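import Pool.Agent.H3.Dem.TauDef

/-!
Two-term complexes of projectives over a finite-dimensional algebra, after a proof of helper10
(MP_655e1e_al): basic numerical lemmas.
-/

universe u

namespace Dem

section

variable {K A : Type u} [Field K] [Ring A] [Algebra K A]

instance subFinite (L : Type u) [AddCommGroup L] [Module A L] [Module K L]
    [IsScalarTower K A L] [Module.Finite K L] (N : Submodule A L) : Module.Finite K N :=
  Module.Finite.of_injective (N.subtype.restrictScalars K) N.injective_subtype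

instance quoFinite (L : Type u) [AddCommGroup L] [Module A L] [Module K L]
    [IsScalarTower K A L] [Module.Finite K L] (N : Submodule A L) : Module.Finite K (L ⧸ N) :=
  Module.Finite.of_surjective (N.mkQ.restrictScalars K) N.mkQ_surjective

/-- the submodule `N` of `L` as a finite-dimensional module -/
@[reducible] def FMod.sub (L : FMod K A) (N : Submodule A L) : FMod K A :=
  { carrier := N }

/-- the quotient of `L` by `N` as a finite-dimensional module -/
@[reducible] def FMod.quo (L : FMod K A) (N : Submodule A L) : FMod K A :=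
  { carrier := L ⧸ N }

/-- the cokernel `H⁰` of a two-term complex -/
@[reducible] def Cpx.H (f : Cpx K A) : FMod K A := f.P0.quo (LinearMap.range f.d)

/-- pulling back along the differential: `Hom(P₀, L) → Hom(P₁, L)` -/
def pull (f : Cpx K A) (L : FMod K A) : (f.P0 →ₗ[A] L) →ₗ[K] (f.P1 →ₗ[A] L) where
  toFun φ := φ ∘ₗ f.d
  map_add' _ _ := by ext; rfl
  map_smul' _ _ := by ext; rfl

@[simp] lemma pull_apply (f : Cpx K A) (L : FMod K A) (φ : f.P0 →ₗ[A] L) :
    pull f L φ = φ ∘ₗ f.d := rfl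

/-- `Hom(P₀, L) → Hom(P₁, L)` is onto, i.e. `Hom(f, L[1]) = 0` -/
def Van (f : Cpx K A) (L : FMod K A) : Prop := Function.Surjective (pull f L)

/-- A two-term complex is rigid (presilting) if `Hom(f, f[1]) = 0` in the homotopy category,
equivalently `Hom(P₀, coker f) → Hom(P₁, coker f)` is onto. -/
def Cpx.Rigid (f : Cpx K A) : Prop := Van f f.H

/-- `dim ker (Hom(P₀, L) → Hom(P₁, L)) = dim Hom(coker f, L)` -/
noncomputable def hh (f : Cpx K A) (L : FMod K A) : ℕ :=
  Module.finrank K (LinearMap.ker (pull f L))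

/-- `dim coker (Hom(P₀, L) → Hom(P₁, L)) = dim Hom(f, L[1])` -/
noncomputable def ee (f : Cpx K A) (L : FMod K A) : ℕ :=
  Module.finrank K ((f.P1 →ₗ[A] L) ⧸ LinearMap.range (pull f L))

/-- the class of `f` in `K₀(proj A)`, seen as a function on finite-dimensional modules -/
noncomputable def cls (f : Cpx K A) (L : FMod K A) : ℤ := (hd f.P0 L : ℤ) - hd f.P1 L

lemma hh_sub_ee (f : Cpx K A) (L : FMod K A) : (hh f L : ℤ) - ee f L = cls f L := by
  have h1 := LinearMap.finrank_range_add_finrank_ker (pull f L)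
  have h2 := Submodule.finrank_quotient_add_finrank (LinearMap.range (pull f L))
  unfold hh ee cls hd
  have h1' : (Module.finrank K (LinearMap.range (pull f L)) : ℤ) +
    Module.finrank K (LinearMap.ker (pull f L)) = Module.finrank K (f.P0 →ₗ[A] L) := by
    exact_mod_cast h1
  have h2' : (Module.finrank K ((f.P1 →ₗ[A] L) ⧸ LinearMap.range (pull f L)) : ℤ) +
    Module.finrank K (LinearMap.range (pull f L)) = Module.finrank K (f.P1 →ₗ[A] L) := by
    exact_mod_cast h2
  linarith

lemma van_iff_ee (f : Cpx K A) (L : FMod K A) : Van f L ↔ ee f L = 0 := by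
  unfold Van ee
  rw [← LinearMap.range_eq_top]
  constructor
  · intro h
    rw [h]
    have := Submodule.finrank_quotient_add_finrank (⊤ : Submodule K (f.P1 →ₗ[A] L))
    rw [finrank_top] at this
    omega
  · intro h
    have := Submodule.finrank_quotient_add_finrank (LinearMap.range (pull f L))
    rw [h, zero_add] at this
    exact Submodule.eq_top_of_finrank_eq this

/-- right exactness -/
lemma Van.of_surjective {f : Cpx K A} {L M : FMod K A} (h : Van f L) (p : L →ₗ[A] M)
    (hp : Function.Surjective p) : Van f M := by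
  intro g
  have := f.proj1
  obtain ⟨g', hg'⟩ := Module.projective_lifting_property p g hp
  obtain ⟨φ, hφ⟩ := h g'
  refine ⟨p ∘ₗ φ, ?_⟩
  rw [← hg', ← hφ]
  rfl

lemma Van.prod {f : Cpx K A} {L M : FMod K A} (h : Van f L) (h' : Van f M) :
    Van f (L.prod M) := by
  intro g
  obtain ⟨φ, hφ⟩ := h (LinearMap.fst A L M ∘ₗ g)
  obtain ⟨ψ, hψ⟩ := h' (LinearMap.snd A L M ∘ₗ g)
  refine ⟨LinearMap.prod φ ψ, ?_⟩
  refine LinearMap.ext fun x => Prod.ext ?_ ?_
  · exact LinearMap.congr_fun hφ x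
  · exact LinearMap.congr_fun hψ x

/-- the trace of `coker f` in `L` -/
def tr (f : Cpx K A) (L : FMod K A) : Submodule A L :=
  ⨆ φ : LinearMap.ker (pull f L), LinearMap.range φ.1

lemma range_le_tr (f : Cpx K A) (L : FMod K A) (φ : f.P0 →ₗ[A] L)
    (h : φ ∘ₗ f.d = 0) : LinearMap.range φ ≤ tr f L :=
  le_iSup (fun φ : LinearMap.ker (pull f L) => LinearMap.range φ.1) ⟨φ, h⟩

/-- the inclusion of kernels along an inclusion `N ≤ L` -/
def kerIncl (g : Cpx K A) (L : FMod K A) (N : Submodule A L) :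
    LinearMap.ker (pull g (L.sub N)) →ₗ[K] LinearMap.ker (pull g L) where
  toFun φ := ⟨N.subtype ∘ₗ φ.1, by
    have h := φ.2
    rw [LinearMap.mem_ker] at h ⊢
    ext x
    have := LinearMap.congr_fun h x
    exact congrArg N.subtype this⟩
  map_add' _ _ := by ext; rfl
  map_smul' _ _ := by ext; rfl

lemma kerIncl_injective (g : Cpx K A) (L : FMod K A) (N : Submodule A L) :
    Function.Injective (kerIncl g L N) := by
  intro φ ψ h
  apply Subtype.ext
  ext x
  have h1 := congrArg Subtype.val h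
  have := LinearMap.congr_fun h1 x
  exact this

lemma hh_sub_le (g : Cpx K A) (L : FMod K A) (N : Submodule A L) :
    hh g (L.sub N) ≤ hh g L :=
  LinearMap.finrank_le_finrank_of_injective (kerIncl_injective g L N)

lemma hh_sub_eq_iff (g : Cpx K A) (L : FMod K A) (N : Submodule A L) :
    hh g (L.sub N) = hh g L ↔ ∀ φ : g.P0 →ₗ[A] L, φ ∘ₗ g.d = 0 → LinearMap.range φ ≤ N := by
  constructor
  · intro h φ hφ
    have hs : Function.Surjective (kerIncl g L N) :=
      (LinearMap.injective_iff_surjective_of_finrank_eq_finrank h).1 (kerIncl_injective g L N)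
    obtain ⟨ψ, hψ⟩ := hs ⟨φ, hφ⟩
    have h1 := congrArg Subtype.val hψ
    rintro _ ⟨x, rfl⟩
    have := LinearMap.congr_fun h1 x
    rw [← this]
    exact (ψ.1 x).2
  · intro h
    apply le_antisymm (hh_sub_le g L N)
    apply LinearMap.finrank_le_finrank_of_injective (f := ({
      toFun := fun φ => ⟨LinearMap.codRestrict N φ.1
          (fun x => h φ.1 φ.2 (LinearMap.mem_range_self φ.1 x)), by
            rw [LinearMap.mem_ker]
            refine LinearMap.ext fun x => Subtype.ext ?_
            exact LinearMap.congr_fun φ.2 x⟩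
      map_add' := fun _ _ => by ext; rfl
      map_smul' := fun _ _ => by ext; rfl } :
        LinearMap.ker (pull g L) →ₗ[K] LinearMap.ker (pull g (L.sub N))))
    intro φ ψ hφψ
    apply Subtype.ext
    ext x
    have h1 := LinearMap.congr_fun (congrArg Subtype.val hφψ) x
    exact congrArg Subtype.val h1

lemma hh_tr (f : Cpx K A) (L : FMod K A) : hh f (L.sub (tr f L)) = hh f L :=
  (hh_sub_eq_iff f L _).2 fun φ h => range_le_tr f L φ h

/-- **L1**: if `f` is rigid then `e(f, tr_f L) = 0`. -/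
lemma van_tr {f : Cpx K A} (hf : f.Rigid) (L : FMod K A) : Van f (L.sub (tr f L)) := by
  -- a finite generating family of the kernel
  let b := Module.finBasis K (LinearMap.ker (pull f L))
  let n := Module.finrank K (LinearMap.ker (pull f L))
  -- induced maps on the cokernel
  have hb : ∀ i, LinearMap.range f.d ≤ LinearMap.ker (b i).1 := by
    rintro i _ ⟨x, rfl⟩
    exact LinearMap.congr_fun (b i).2 x
  have hbt : ∀ i (x : f.H), (LinearMap.range f.d).liftQ (b i).1 (hb i) x ∈ tr f L := by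
    intro i x
    obtain ⟨y, rfl⟩ := (LinearMap.range f.d).mkQ_surjective x
    exact range_le_tr f L (b i).1 (b i).2 (LinearMap.mem_range_self _ y)
  let c : Fin n → (f.H →ₗ[A] (L.sub (tr f L))) := fun i =>
    LinearMap.codRestrict (tr f L) ((LinearMap.range f.d).liftQ (b i).1 (hb i)) (hbt i)
  let Φ : (Fin n → f.H) →ₗ[A] (L.sub (tr f L)) :=
    ∑ i, (c i) ∘ₗ (LinearMap.proj i)
  have hΦv : ∀ m, Φ m = ∑ i, c i (m i) := by
    intro m
    simp [Φ]
  have hsurj : Function.Surjective Φ := by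
    rintro ⟨y, hy⟩
    -- the image of `Φ` contains all ranges
    have key : tr f L ≤ Submodule.map (tr f L).subtype (LinearMap.range Φ) := by
      apply iSup_le
      rintro ⟨φ, hφ⟩ _ ⟨x, rfl⟩
      have hrepr := b.sum_repr ⟨φ, hφ⟩
      have h1 : (∑ i, (b.repr ⟨φ, hφ⟩ i) • (b i).1) = φ := by
        have h := congrArg Subtype.val hrepr
        refine Eq.trans ?_ h
        rw [AddSubmonoidClass.coe_finsetSum]
        rfl
      refine ⟨Φ (fun i => (b.repr ⟨φ, hφ⟩ i) • (LinearMap.range f.d).mkQ x),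
        LinearMap.mem_range_self _ _, ?_⟩
      rw [hΦv, map_sum]
      refine Eq.trans ?_ (LinearMap.congr_fun h1 x)
      rw [LinearMap.sum_apply]
      refine Finset.sum_congr rfl fun i _ => ?_
      change (LinearMap.range f.d).liftQ (b i).1 (hb i)
        ((b.repr ⟨φ, hφ⟩ i) • (LinearMap.range f.d).mkQ x) = _
      have h2 := ((LinearMap.range f.d).liftQ (b i).1 (hb i)).map_smul_of_tower
        (b.repr ⟨φ, hφ⟩ i) ((LinearMap.range f.d).mkQ x)
      rw [h2]
      rfl
    obtain ⟨z, ⟨m, hm⟩, hz⟩ := key hy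
    refine ⟨m, ?_⟩
    rw [hm]
    exact Subtype.ext hz
  intro g
  have := f.proj1
  obtain ⟨g', hg'⟩ := Module.projective_lifting_property Φ g hsurj
  have hcomp : ∀ i, ∃ h : f.P0 →ₗ[A] f.H, h ∘ₗ f.d =
      (LinearMap.proj i : (Fin n → f.H) →ₗ[A] f.H) ∘ₗ g' := fun i =>
    hf ((LinearMap.proj i : (Fin n → f.H) →ₗ[A] f.H) ∘ₗ g')
  choose h hh using hcomp
  refine ⟨Φ ∘ₗ LinearMap.pi h, ?_⟩
  rw [← hg']
  ext x
  have : LinearMap.pi h (f.d x) = g' x := by
    funext i
    exact LinearMap.congr_fun (hh i) x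
  change ((Φ (LinearMap.pi h (f.d x))) : L) = _
  rw [this]
  rfl

/-- **L2** -/
lemma hh_le {f g : Cpx K A} (hf : f.Rigid) (hc : ∀ L, cls f L = cls g L) (L : FMod K A) :
    hh f L ≤ hh g L := by
  have h1 := hh_sub_le g L (tr f L)
  have h2 := hh_sub_ee g (L.sub (tr f L))
  have h3 := hh_sub_ee f (L.sub (tr f L))
  have h4 := (van_iff_ee f _).1 (van_tr hf L)
  have h5 := hh_tr f L
  have h6 := hc (L.sub (tr f L))
  omega

lemma ee_le {f g : Cpx K A} (hf : f.Rigid) (hc : ∀ L, cls f L = cls g L) (L : FMod K A) :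
    ee f L ≤ ee g L := by
  have h1 := hh_le hf hc L
  have h2 := hh_sub_ee g L
  have h3 := hh_sub_ee f L
  have h6 := hc L
  omega

lemma eq_case {f g : Cpx K A} (hf : f.Rigid) (hc : ∀ L, cls f L = cls g L) (L : FMod K A)
    (he : hh f L = hh g L) :
    hh g (L.sub (tr f L)) = hh g L ∧ Van g (L.sub (tr f L)) := by
  have h1 := hh_sub_le g L (tr f L)
  have h2 := hh_sub_ee g (L.sub (tr f L))
  have h3 := hh_sub_ee f (L.sub (tr f L))
  have h4 := (van_iff_ee f _).1 (van_tr hf L)
  have h5 := hh_tr f L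
  have h6 := hc (L.sub (tr f L))
  constructor
  · omega
  · rw [van_iff_ee]
    omega

/-! ### direct sums -/

/-- direct sum of two-term complexes -/
@[reducible] def Cpx.sum (f g : Cpx K A) : Cpx K A where
  P1 := f.P1.prod g.P1
  P0 := f.P0.prod g.P0
  proj1 := by
    have := f.proj1
    have := g.proj1
    exact (inferInstance : Module.Projective A (f.P1 × g.P1))
  proj0 := by
    have := f.proj0
    have := g.proj0
    exact (inferInstance : Module.Projective A (f.P0 × g.P0))
  d := LinearMap.prodMap f.d g.d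

lemma hd_prod (P Q L : FMod K A) : hd (P.prod Q) L = hd P L + hd Q L := by
  unfold hd
  rw [← Module.finrank_prod]
  exact (LinearMap.coprodEquiv K (R := A) (M := P) (M₂ := Q) (M₃ := L)).finrank_eq.symm

lemma cls_sum (f g : Cpx K A) (L : FMod K A) : cls (f.sum g) L = cls f L + cls g L := by
  unfold cls
  have h1 := hd_prod f.P0 g.P0 L
  have h2 := hd_prod f.P1 g.P1 L
  have h1' : hd (f.sum g).P0 L = hd f.P0 L + hd g.P0 L := h1
  have h2' : hd (f.sum g).P1 L = hd f.P1 L + hd g.P1 L := h2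
  rw [h1', h2']
  push_cast
  ring

lemma hh_sum (f g : Cpx K A) (L : FMod K A) : hh (f.sum g) L = hh f L + hh g L := by
  unfold hh
  rw [← Module.finrank_prod]
  symm
  apply LinearEquiv.finrank_eq
  refine LinearEquiv.ofBijective ({
    toFun := fun p => ⟨LinearMap.coprod p.1.1 p.2.1, ?_⟩
    map_add' := ?_
    map_smul' := ?_ } : (LinearMap.ker (pull f L) × LinearMap.ker (pull g L)) →ₗ[K]
      LinearMap.ker (pull (f.sum g) L)) ⟨?_, ?_⟩
  · rw [LinearMap.mem_ker]
    refine LinearMap.ext fun x => ?_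
    have h1 := LinearMap.congr_fun p.1.2 x.1
    have h2 := LinearMap.congr_fun p.2.2 x.2
    change p.1.1 (f.d x.1) + p.2.1 (g.d x.2) = 0
    have h1' : p.1.1 (f.d x.1) = 0 := h1
    have h2' : p.2.1 (g.d x.2) = 0 := h2
    rw [h1', h2', add_zero]
  · rintro p q
    apply Subtype.ext
    refine LinearMap.ext fun x => ?_
    change (p.1.1 + q.1.1) x.1 + (p.2.1 + q.2.1) x.2 =
      (p.1.1 x.1 + p.2.1 x.2) + (q.1.1 x.1 + q.2.1 x.2)
    rw [LinearMap.add_apply, LinearMap.add_apply]
    abel
  · rintro r p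
    apply Subtype.ext
    refine LinearMap.ext fun x => ?_
    change r • p.1.1 x.1 + r • p.2.1 x.2 = r • (p.1.1 x.1 + p.2.1 x.2)
    rw [smul_add]
  · rintro p q h
    have h1 := congrArg Subtype.val h
    apply Prod.ext
    · apply Subtype.ext
      refine LinearMap.ext fun x => ?_
      have := LinearMap.congr_fun h1 (x, 0)
      change p.1.1 x + p.2.1 0 = q.1.1 x + q.2.1 0 at this
      rwa [map_zero, map_zero, add_zero, add_zero] at this
    · apply Subtype.ext
      refine LinearMap.ext fun x => ?_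
      have := LinearMap.congr_fun h1 (0, x)
      change p.1.1 0 + p.2.1 x = q.1.1 0 + q.2.1 x at this
      rwa [map_zero, map_zero, zero_add, zero_add] at this
  · rintro ⟨φ, hφ⟩
    refine ⟨⟨⟨φ ∘ₗ LinearMap.inl A f.P0 g.P0, ?_⟩, ⟨φ ∘ₗ LinearMap.inr A f.P0 g.P0, ?_⟩⟩, ?_⟩
    · rw [LinearMap.mem_ker]
      refine LinearMap.ext fun x => ?_
      have := LinearMap.congr_fun hφ (x, 0)
      change φ (f.d x, 0) = 0
      change φ (f.d x, g.d 0) = 0 at this
      rwa [map_zero] at this
    · rw [LinearMap.mem_ker]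
      refine LinearMap.ext fun x => ?_
      have := LinearMap.congr_fun hφ (0, x)
      change φ (0, g.d x) = 0
      change φ (f.d 0, g.d x) = 0 at this
      rwa [map_zero] at this
    · apply Subtype.ext
      refine LinearMap.ext fun x => ?_
      change φ (x.1, 0) + φ (0, x.2) = φ x
      rw [← map_add]
      congr 1
      exact Prod.ext (add_zero _) (zero_add _)

lemma ee_sum (f g : Cpx K A) (L : FMod K A) : ee (f.sum g) L = ee f L + ee g L := by
  have h1 := hh_sub_ee f L
  have h2 := hh_sub_ee g L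
  have h3 := hh_sub_ee (f.sum g) L
  have h4 := cls_sum f g L
  have h5 := hh_sum f g L
  omega

lemma van_sum (f g : Cpx K A) (L : FMod K A) : Van (f.sum g) L ↔ Van f L ∧ Van g L := by
  rw [van_iff_ee, van_iff_ee, van_iff_ee, ee_sum]
  omega

/-- `coker (f ⊕ g)` surjects onto `coker f` -/
lemma exists_fst (f g : Cpx K A) :
    ∃ p : (f.sum g).H →ₗ[A] f.H, Function.Surjective p := by
  refine ⟨Submodule.mapQ (LinearMap.range (f.sum g).d) (LinearMap.range f.d)
    (LinearMap.fst A f.P0 g.P0) ?_, ?_⟩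
  · rintro _ ⟨x, rfl⟩
    exact ⟨x.1, rfl⟩
  · intro y
    obtain ⟨x, rfl⟩ := (LinearMap.range f.d).mkQ_surjective y
    exact ⟨(LinearMap.range (f.sum g).d).mkQ (x, 0), rfl⟩

lemma exists_snd (f g : Cpx K A) :
    ∃ p : (f.sum g).H →ₗ[A] g.H, Function.Surjective p := by
  refine ⟨Submodule.mapQ (LinearMap.range (f.sum g).d) (LinearMap.range g.d)
    (LinearMap.snd A f.P0 g.P0) ?_, ?_⟩
  · rintro _ ⟨x, rfl⟩
    exact ⟨x.2, rfl⟩
  · intro y
    obtain ⟨x, rfl⟩ := (LinearMap.range g.d).mkQ_surjective y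
    exact ⟨(LinearMap.range (f.sum g).d).mkQ (0, x), rfl⟩

lemma exists_prod (f g : Cpx K A) :
    ∃ p : (f.H.prod g.H) →ₗ[A] (f.sum g).H, Function.Surjective p := by
  refine ⟨LinearMap.coprod (Submodule.mapQ (LinearMap.range f.d) (LinearMap.range (f.sum g).d)
    (LinearMap.inl A f.P0 g.P0) ?_) (Submodule.mapQ (LinearMap.range g.d)
    (LinearMap.range (f.sum g).d) (LinearMap.inr A f.P0 g.P0) ?_), ?_⟩
  · rintro _ ⟨x, rfl⟩
    refine ⟨(x, 0), ?_⟩
    change (f.d x, g.d 0) = (f.d x, 0)
    rw [map_zero]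
  · rintro _ ⟨x, rfl⟩
    refine ⟨(0, x), ?_⟩
    change (f.d 0, g.d x) = (0, g.d x)
    rw [map_zero]
  · intro y
    obtain ⟨x, rfl⟩ := (LinearMap.range (f.sum g).d).mkQ_surjective y
    refine ⟨((LinearMap.range f.d).mkQ x.1, (LinearMap.range g.d).mkQ x.2), ?_⟩
    change (LinearMap.range (f.sum g).d).mkQ (x.1, 0) + (LinearMap.range (f.sum g).d).mkQ (0, x.2)
      = _
    rw [← map_add]
    congr 1
    exact Prod.ext (add_zero _) (zero_add _)

lemma rigid_sum_iff (f g : Cpx K A) : (f.sum g).Rigid ↔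
    (f.Rigid ∧ Van f g.H) ∧ (Van g f.H ∧ g.Rigid) := by
  unfold Cpx.Rigid
  rw [van_sum]
  obtain ⟨p1, hp1⟩ := exists_fst f g
  obtain ⟨p2, hp2⟩ := exists_snd f g
  obtain ⟨p3, hp3⟩ := exists_prod f g
  constructor
  · rintro ⟨h1, h2⟩
    exact ⟨⟨h1.of_surjective p1 hp1, h1.of_surjective p2 hp2⟩,
      ⟨h2.of_surjective p1 hp1, h2.of_surjective p2 hp2⟩⟩
  · rintro ⟨⟨h1, h2⟩, ⟨h3, h4⟩⟩
    exact ⟨(h1.prod h2).of_surjective p3 hp3, (h3.prod h4).of_surjective p3 hp3⟩

end

end Dem
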