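import Pool.Agent.H3.Dem.Torsion

/-!
An indecomposable τ-rigid module `V` is determined by the brick `V / rad(End V) V`
(Demonet, Iyama, Jasso).
-/

namespace Dem

open SBC

section

variable {K A : Type} [Field K] [Ring A] [Algebra K A]

theorem not_bij_mem_jac {V : FMod K A} (hV : Indec V) (f : V →ₗ[A] V)
    (hf : ¬ Function.Bijective f) : (f : Module.End A V) ∈ Ring.jacobson (Module.End A V) := by
  apply Pool.Agent.H17.SBC.mem_jac
  intro y
  rcases fitting hV (y * f : Module.End A V) with h | h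
  · exfalso
    apply hf
    have h1 : Function.Injective f := Function.Injective.of_comp (f := y) (g := f) h.1
    exact ⟨h1, surj_of_finrank_eq f h1 rfl⟩
  · exact h

/-- the last nonzero restriction to powers of the radical -/
theorem exists_last {V : FMod K A} (hV : Indec V) (Z : FMod K A) (θ : V →ₗ[A] Z) (hθ : θ ≠ 0) :
    ∃ φ : V →ₗ[A] V, θ ∘ₗ φ ≠ 0 ∧
      ∀ f : V →ₗ[A] V, ¬ Function.Bijective f → (θ ∘ₗ φ) ∘ₗ f = 0 := by
  have hfin : Module.Finite K (Module.End A V) := by
    let F : Module.End A V →ₗ[K] Module.End K V :=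
      { toFun := fun φ => φ.restrictScalars K
        map_add' := fun _ _ => rfl
        map_smul' := fun _ _ => rfl }
    exact Module.Finite.of_injective F fun a b hab => by
      refine LinearMap.ext fun x => ?_
      exact LinearMap.congr_fun hab x
  have hart : IsArtinianRing (Module.End A V) := isArtinian_of_tower K inferInstance
  obtain ⟨n, hn⟩ := IsSemiprimaryRing.isNilpotent (R := Module.End A V)
  classical
  have hP : ∃ k : ℕ, ∀ φ ∈ (Ring.jacobson (Module.End A V)) ^ k, θ ∘ₗ φ = 0 := by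
    refine ⟨n, fun φ hφ => ?_⟩
    rw [hn] at hφ
    have : φ = 0 := hφ
    rw [this]
    exact LinearMap.comp_zero θ
  have hk := Nat.find_spec hP
  have hmin : ∀ m < Nat.find hP, ¬ _ := fun m hm => Nat.find_min hP hm
  generalize Nat.find hP = k at hk hmin
  have hk0 : k ≠ 0 := by
    rintro rfl
    apply hθ
    have := hk 1 (by rw [Submodule.pow_zero, Ideal.one_eq_top]; trivial)
    exact this
  obtain ⟨i, rfl⟩ := Nat.exists_eq_succ_of_ne_zero hk0
  have h1 := hmin i (Nat.lt_succ_self i)
  push Not at h1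
  obtain ⟨φ, hφ, hφ0⟩ := h1
  refine ⟨φ, hφ0, fun f hf => ?_⟩
  have h6 : φ * (f : Module.End A V) ∈ (Ring.jacobson (Module.End A V)) ^ (i + 1) := by
    rw [Submodule.pow_succ]
    exact Submodule.mul_mem_mul hφ (not_bij_mem_jac hV f hf)
  exact hk _ h6

/-- `V^n → V` with image `rad(End V) V` -/
theorem exists_rad {V : FMod K A} (hV : Indec V) :
    ∃ (n : ℕ) (p : (Fin n → V) →ₗ[A] V),
      (∀ f : V →ₗ[A] V, ¬ Function.Bijective f → LinearMap.range f ≤ LinearMap.range p) ∧
      (∀ (Z : FMod K A) (θ : V →ₗ[A] Z),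
        (∀ f : V →ₗ[A] V, ¬ Function.Bijective f → θ ∘ₗ f = 0) → θ ∘ₗ p = 0) := by
  let J : Submodule K (V →ₗ[A] V) :=
    { carrier := {f | ¬ Function.Bijective f}
      add_mem' := fun {f g} hf hg h => by
        rcases local_add hV f g h with h1 | h1
        · exact hf h1
        · exact hg h1
      zero_mem' := fun h => by
        have := hV.1
        obtain ⟨x, hx⟩ := exists_ne (0 : V)
        exact hx (h.1 rfl)
      smul_mem' := fun c f hf h => by
        apply hf
        have h1 : Function.Injective f := by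
          intro x y hxy
          apply h.1
          change c • f x = c • f y
          rw [hxy]
        exact ⟨h1, surj_of_finrank_eq f h1 rfl⟩ }
  let bs := Module.finBasis K J
  let n := Module.finrank K J
  let p : (Fin n → V) →ₗ[A] V := ∑ i, (bs i).1 ∘ₗ (LinearMap.proj i)
  have hp : ∀ x, p x = ∑ i, (bs i).1 (x i) := fun x => by
    simp only [p, LinearMap.sum_apply]
    rfl
  refine ⟨n, p, ?_, ?_⟩
  · rintro f hf _ ⟨x, rfl⟩
    have h1 : f x = ∑ i, bs.repr ⟨f, hf⟩ i • (bs i).1 x := by
      have h2 : f = ∑ i, bs.repr ⟨f, hf⟩ i • (bs i).1 := by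
        have h3 := congrArg Subtype.val (bs.sum_repr ⟨f, hf⟩)
        rw [Submodule.coe_sum] at h3
        exact h3.symm
      conv_lhs => rw [h2]
      rw [LinearMap.sum_apply]
      rfl
    refine ⟨fun i => (bs.repr ⟨f, hf⟩ i) • x, ?_⟩
    rw [hp, h1]
    exact Finset.sum_congr rfl fun i _ => (bs i).1.map_smul_of_tower _ x
  · intro Z θ hθ
    refine LinearMap.ext fun x => ?_
    change θ (p x) = 0
    rw [hp, map_sum]
    exact Finset.sum_eq_zero fun i _ => LinearMap.congr_fun (hθ (bs i).1 (bs i).2) (x i)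

variable [Module.Finite K A]

/-- the brick of an indecomposable τ-rigid module -/
theorem exists_brick {V : FMod K A} (hV : Indec V) (hr : TauRigid V) :
    ∃ (n : ℕ) (p : (Fin n → V) →ₗ[A] V),
      (∀ f : V →ₗ[A] V, ¬ Function.Bijective f → LinearMap.range f ≤ LinearMap.range p) ∧
      Brick (V.quo (LinearMap.range p)) ∧
      ∀ Z : FMod K A, Hom0 (V.quo (LinearMap.range p)) Z ↔ Hom0 V Z := by
  obtain ⟨n, p, hp1, hp2⟩ := exists_rad hV
  obtain ⟨m, hm⟩ := hr
  refine ⟨n, p, hp1, ⟨?_, ?_⟩, fun Z => ⟨?_, ?_⟩⟩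
  · have hid : (LinearMap.id : V →ₗ[A] V) ≠ 0 := by
      intro h
      have := hV.1
      obtain ⟨x, hx⟩ := exists_ne (0 : V)
      exact hx (LinearMap.congr_fun h x)
    obtain ⟨φ, h1, h2⟩ := exists_last hV V LinearMap.id hid
    have h3 := hp2 V _ h2
    rw [Submodule.Quotient.nontrivial_iff]
    intro ht
    apply h1
    refine LinearMap.ext fun x => ?_
    have hx : x ∈ LinearMap.range p := by
      rw [ht]
      trivial
    obtain ⟨y, rfl⟩ := hx
    exact LinearMap.congr_fun h3 y
  · intro φ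
    obtain ⟨q, hq⟩ := m.exists_map
    let e := LinearEquiv.ofBijective q hq
    have hVv : Van m.f V := (van_iff_hom_tau m.f V).2 hm
    let N : FMod K A := V.sub (LinearMap.range p)
    have hN : Fac V N := ⟨n, p.rangeRestrict, p.surjective_rangeRestrict⟩
    have hee : ee m.f N = 0 := (van_iff_ee _ _).1 (van_of_fac hVv hN)
    have hses := ses_sub V (LinearMap.range p)
    let π : V →ₗ[A] V.quo (LinearMap.range p) := (LinearMap.range p).mkQ
    have hπ : Function.Surjective π := (LinearMap.range p).mkQ_surjective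
    obtain ⟨ψ, hψ⟩ := (all_LFT K A m.f _ _ _ _ _ hses).1 hee (φ ∘ₗ π ∘ₗ q)
    let ψ' : V →ₗ[A] V := ψ ∘ₗ e.symm.toLinearMap
    have h1 : π ∘ₗ ψ' = φ ∘ₗ π := by
      change (π ∘ₗ ψ) ∘ₗ e.symm.toLinearMap = φ ∘ₗ π
      rw [hψ]
      refine LinearMap.ext fun x => ?_
      exact congrArg (fun z => φ (π z)) (e.apply_symm_apply x)
    by_cases hb : Function.Bijective ψ'
    · right
      have hs : Function.Surjective φ := by
        apply Function.Surjective.of_comp (f := φ) (g := π)
        have h2 : Function.Surjective (π ∘ₗ ψ') := hπ.comp hb.2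
        rw [h1] at h2
        exact h2
      exact ⟨inj_of_finrank_eq φ hs rfl, hs⟩
    · left
      refine LinearMap.ext fun y => ?_
      obtain ⟨x, rfl⟩ := hπ y
      have h2 : φ (π x) = π (ψ' x) := (LinearMap.congr_fun h1 x).symm
      change φ (π x) = 0
      rw [h2]
      change (LinearMap.range p).mkQ (ψ' x) = 0
      rw [Submodule.mkQ_apply, Submodule.Quotient.mk_eq_zero]
      exact hp1 ψ' hb ⟨x, rfl⟩
  · intro h θ
    by_contra hθ
    obtain ⟨φ, h1, h2⟩ := exists_last hV Z θ hθ
    have h3 := hp2 Z _ h2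
    obtain ⟨c, hc⟩ := (ses_sub V (LinearMap.range p)).desc (θ ∘ₗ φ) (by
      refine LinearMap.ext fun x => ?_
      obtain ⟨y, hy⟩ := x.2
      change (θ ∘ₗ φ) x.1 = 0
      rw [← hy]
      exact LinearMap.congr_fun h3 y)
    apply h1
    rw [← hc, h c, LinearMap.zero_comp]
  · exact fun h => h.of_surj (LinearMap.range p).mkQ (LinearMap.range p).mkQ_surjective

omit [Module.Finite K A] in
/-- a nonzero direct summand of an indecomposable module is isomorphic to it -/
theorem iso_of_summ {M N : FMod K A} (hM : Nontrivial M) (hN : Indec N) (h : Summ M N) :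
    Nonempty (M ≃ₗ[A] N) := by
  obtain ⟨q, p, h⟩ := h
  have hq : Function.Injective q := Function.Injective.of_comp (f := p) h.1
  have hp : Function.Surjective p := Function.Surjective.of_comp (g := q) h.2
  have hcompl : IsCompl (LinearMap.range q) (LinearMap.ker p) := by
    rw [isCompl_iff]
    constructor
    · rw [Submodule.disjoint_def]
      rintro _ ⟨x, rfl⟩ hx
      have : x = 0 := by
        apply h.1
        change p (q x) = p (q 0)
        rw [LinearMap.mem_ker.1 hx, map_zero, map_zero]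
      rw [this, map_zero]
    · rw [codisjoint_iff, eq_top_iff]
      intro y _
      obtain ⟨x, hx⟩ := h.2 (p y)
      have hx' : p (q x) = p y := hx
      rw [Submodule.mem_sup]
      refine ⟨q x, LinearMap.mem_range_self _ _, y - q x, ?_, by abel⟩
      rw [LinearMap.mem_ker, map_sub, hx', sub_self]
  rcases hN.2 _ _ hcompl with h1 | h1
  · exfalso
    obtain ⟨x, hx⟩ := exists_ne (0 : M)
    apply hx
    apply hq
    have : q x ∈ LinearMap.range q := LinearMap.mem_range_self _ _
    rw [h1, Submodule.mem_bot] at this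
    rw [this, map_zero]
  · have hpi : Function.Injective p := LinearMap.ker_eq_bot.1 h1
    exact ⟨(LinearEquiv.ofBijective p ⟨hpi, hp⟩).symm⟩

/-- indecomposable τ-rigid modules with the same right perpendicular class are isomorphic -/
theorem iso_of_perp {V W : FMod K A} (hV : Indec V) (hrV : TauRigid V) (hW : Indec W)
    (hrW : TauRigid W) (h : ∀ Z : FMod K A, Hom0 V Z ↔ Hom0 W Z) : Nonempty (V ≃ₗ[A] W) := by
  obtain ⟨mV, hmV⟩ := hrV
  obtain ⟨mW, hmW⟩ := hrW
  obtain ⟨a, P, hP⟩ : Fac V W := fac_of_perp mV hmV W fun Z hZ => (h Z).1 hZ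
  obtain ⟨b, Q, hQ⟩ : Fac W V := fac_of_perp mW hmW V fun Z hZ => (h Z).2 hZ
  obtain ⟨n, p, hp1, ⟨hp2, -⟩, -⟩ := exists_brick hV ⟨mV, hmV⟩
  -- some composite `V → W → V` is bijective
  have hex : ∃ (i : Fin a) (j : Fin b), Function.Bijective
      ((Q ∘ₗ LinearMap.single A (fun _ : Fin b => (W : Type)) j) ∘ₗ
        (P ∘ₗ LinearMap.single A (fun _ : Fin a => (V : Type)) i)) := by
    by_contra hno
    push Not at hno
    have hall : ∀ w : V, w ∈ LinearMap.range p := by
      intro v
      obtain ⟨w, rfl⟩ := hQ v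
      have h1 : w = ∑ j, Pi.single j (w j) := (Finset.univ_sum_single w).symm
      rw [h1, map_sum]
      refine Submodule.sum_mem _ fun j _ => ?_
      obtain ⟨x, hx⟩ := hP (w j)
      rw [← hx]
      have h2 : x = ∑ i, Pi.single i (x i) := (Finset.univ_sum_single x).symm
      have h3 : (Pi.single j (P x) : Fin b → W) = ∑ i, Pi.single j (P (Pi.single i (x i))) := by
        conv_lhs => rw [h2, map_sum]
        exact map_sum (LinearMap.single A (fun _ : Fin b => (W : Type)) j) _ _
      rw [h3, map_sum]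
      refine Submodule.sum_mem _ fun i _ => ?_
      exact hp1 _ (hno i j) ⟨x i, rfl⟩
    rw [Submodule.Quotient.nontrivial_iff] at hp2
    exact hp2 (eq_top_iff.2 fun v _ => hall v)
  obtain ⟨i, j, hij⟩ := hex
  exact iso_of_summ hV.1 hW ⟨_, _, hij⟩

/-- finitely many bricks imply finitely many indecomposable τ-rigid modules -/
theorem finite_of_bricks (l : List (FMod K A))
    (hl : ∀ B : FMod K A, Brick B → ∃ N ∈ l, Nonempty (B ≃ₗ[A] N)) :
    ∃ l' : List (FMod K A), ∀ V : FMod K A, Indec V → TauRigid V →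
      ∃ N ∈ l', Nonempty (V ≃ₗ[A] N) := by
  classical
  let R : FMod K A → FMod K A → Prop := fun N V => Indec V ∧ TauRigid V ∧
    ∀ Z : FMod K A, Hom0 N Z ↔ Hom0 V Z
  let c : FMod K A → FMod K A := fun N => if h : ∃ V, R N V then h.choose else N
  refine ⟨l.map c, fun V hV hr => ?_⟩
  obtain ⟨n, p, -, hb, hZ⟩ := exists_brick hV hr
  obtain ⟨N, hN, ⟨e⟩⟩ := hl _ hb
  have hR : R N V := by
    refine ⟨hV, hr, fun Z => ?_⟩
    rw [← hZ]
    exact ⟨fun h => h.of_surj e.symm.toLinearMap e.symm.surjective,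
      fun h => h.of_surj e.toLinearMap e.surjective⟩
  have hex : ∃ V, R N V := ⟨V, hR⟩
  have hc : R N (c N) := by
    have : c N = hex.choose := dif_pos hex
    rw [this]
    exact hex.choose_spec
  refine ⟨c N, List.mem_map.2 ⟨N, hN, rfl⟩, ?_⟩
  exact iso_of_perp hV hr hc.1 hc.2.1 fun Z => (hR.2.2 Z).symm.trans (hc.2.2 Z)

end

end Dem
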