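import Pool.Agent.H3.Dem.PairOf
import Pool.Agent.H3.Dem.Brk
import Pool.Agent.H5.SBC.Equiv

/-!
If every class is rigid then every brick is a quotient of an indecomposable τ-rigid module.
Over an infinite field, finitely many bricks in each dimension imply that every element of
`K₀(proj A)` is the `g`-vector of a τ-rigid pair.
-/

namespace Dem

open SBC

section

variable {K A : Type} [Field K] [Ring A] [Algebra K A]

theorem exists_map_of_hh {g : Cpx K A} {L : FMod K A} (h : hh g L ≠ 0) :
    ∃ φ : g.H →ₗ[A] L, φ ≠ 0 := by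
  by_contra hno
  push Not at hno
  apply h
  unfold hh
  have : Subsingleton (LinearMap.ker (pull g L)) := by
    have h0 : ∀ a : LinearMap.ker (pull g L), a = 0 := by
      intro a
      have hb : LinearMap.range g.d ≤ LinearMap.ker a.1 := by
        rintro _ ⟨x, rfl⟩
        exact LinearMap.congr_fun a.2 x
      have h1 := hno ((LinearMap.range g.d).liftQ a.1 hb)
      refine Subtype.ext (LinearMap.ext fun x => ?_)
      exact LinearMap.congr_fun h1 ((LinearMap.range g.d).mkQ x)
    exact ⟨fun a b => (h0 a).trans (h0 b).symm⟩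
  exact Module.finrank_zero_of_subsingleton

theorem hh_ne_of_map {g : Cpx K A} {L : FMod K A} (φ : g.H →ₗ[A] L) (h : φ ≠ 0) : hh g L ≠ 0 := by
  intro h0
  unfold hh at h0
  have h1 : Subsingleton (LinearMap.ker (pull g L)) := Module.finrank_zero_iff.1 h0
  apply h
  have h2 : φ ∘ₗ (LinearMap.range g.d).mkQ ∈ LinearMap.ker (pull g L) := by
    rw [LinearMap.mem_ker]
    refine LinearMap.ext fun x => ?_
    change φ ((LinearMap.range g.d).mkQ (g.d x)) = 0
    have : (LinearMap.range g.d).mkQ (g.d x) = 0 := by
      rw [Submodule.mkQ_apply, Submodule.Quotient.mk_eq_zero]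
      exact ⟨x, rfl⟩
    rw [this, map_zero]
  have h3 := congrArg Subtype.val (Subsingleton.elim
    (⟨_, h2⟩ : LinearMap.ker (pull g L)) 0)
  refine LinearMap.ext fun y => ?_
  obtain ⟨x, rfl⟩ := (LinearMap.range g.d).mkQ_surjective y
  exact LinearMap.congr_fun h3 x

/-- a module all of whose endomorphisms are bijective or nilpotent is indecomposable -/
theorem indec_of_end {M : FMod K A} (hM : Nontrivial M)
    (h : ∀ φ : Module.End A M, Function.Bijective φ ∨ IsNilpotent φ) : Indec M := by
  refine ⟨hM, fun P Q hPQ => ?_⟩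
  let e : Module.End A M := P.subtype ∘ₗ P.projectionOnto Q hPQ
  have he : ∀ x, e (e x) = e x := by
    intro x
    change ((P.projectionOnto Q hPQ (P.projectionOnto Q hPQ x : M)) : M) = _
    rw [P.projectionOnto_apply_left hPQ]
    rfl
  rcases h e with h1 | h1
  · right
    have hid : ∀ x, e x = x := fun x => h1.1 (he x)
    rw [eq_bot_iff]
    intro x hx
    have h2 : x ∈ P := by
      rw [← hid x]
      exact (P.projectionOnto Q hPQ x).2
    exact hPQ.disjoint.le_bot ⟨h2, hx⟩
  · left
    obtain ⟨n, hn⟩ := h1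
    have hpow : ∀ k : ℕ, ∀ x ∈ P, (e ^ k) x = x := by
      intro k
      induction k with
      | zero => intro x _; rfl
      | succ k ih =>
        intro x hx
        rw [pow_comm_apply]
        have : e x = x := by
          change ((P.projectionOnto Q hPQ x : P) : M) = x
          have h3 := P.projectionOnto_apply_left hPQ ⟨x, hx⟩
          exact congrArg Subtype.val h3
        rw [this, ih x hx]
    rw [eq_bot_iff]
    intro x hx
    have h4 := hpow n x hx
    rw [hn] at h4
    exact h4.symm

variable [Module.Finite K A]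

/-- rigid complexes of minimal size in a class that is closed under passing to one of two
summands are minimal presentations of indecomposable τ-rigid modules -/
theorem min_rigid (B : FMod K A) (g : Cpx K A) (hg : g.Rigid) (h1 : hh g B ≠ 0)
    (h2 : ∀ Z, Hom0 B Z → hh g Z = 0)
    (hmin : ∀ g' : Cpx K A, g'.Rigid → hh g' B ≠ 0 → (∀ Z, Hom0 B Z → hh g' Z = 0) →
      size g ≤ size g') : Indec g.H ∧ TauRigid g.H := by
  have hred : ∀ g' g'' : Cpx K A, NSplit g g' g'' → size g' < size g → size g'' < size g →
      False := by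
    intro g' g'' hs hl hl'
    have h3 := hs.hh_eq B
    by_cases h4 : hh g' B = 0
    · have h5 : hh g'' B ≠ 0 := by omega
      have hs' := (sbc_NSR K A (all_HOM K A)).2.1 _ _ _ hs
      have h6 := hmin g'' (rigid_of_nsplit hg hs') h5 (fun Z hZ => by
        have := h2 Z hZ
        rw [hs.hh_eq] at this
        omega)
      omega
    · have h6 := hmin g' (rigid_of_nsplit hg hs) h4 (fun Z hZ => by
        have := h2 Z hZ
        rw [hs.hh_eq] at this
        omega)
      omega
  have hnon : Nontrivial g.H := by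
    obtain ⟨φ, hφ⟩ := exists_map_of_hh h1
    by_contra hns
    rw [not_nontrivial_iff_subsingleton] at hns
    apply hφ
    refine LinearMap.ext fun x => ?_
    have : x = 0 := Subsingleton.elim _ _
    rw [this, map_zero, map_zero]
  refine ⟨indec_of_end hnon fun φ => ?_, ?_⟩
  · rcases sbc_FIT K A g φ with h | h | ⟨g', g'', h3, h4, h5⟩
    · exact Or.inl h
    · exact Or.inr h
    · exact (hred _ _ h3 h4 h5).elim
  · -- `g` is a minimal presentation
    have m0 : Superfluous (LinearMap.ker (LinearMap.range g.d).mkQ) := by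
      by_contra h0
      unfold Superfluous at h0
      push Not at h0
      obtain ⟨N, hN1, hN⟩ := h0
      have p0 := g.proj0
      have hsurj : Function.Surjective (N.mkQ ∘ₗ g.d) := by
        intro y
        obtain ⟨x, rfl⟩ := N.mkQ_surjective y
        have hx : x ∈ N ⊔ LinearMap.range g.d := by
          have : LinearMap.ker (LinearMap.range g.d).mkQ = LinearMap.range g.d :=
            Submodule.ker_mkQ _
          rw [this] at hN1
          rw [hN1]; trivial
        obtain ⟨a, ha, _, ⟨b, rfl⟩, rfl⟩ := Submodule.mem_sup.1 hx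
        refine ⟨b, ?_⟩
        rw [map_add]
        have : N.mkQ a = 0 := by
          rw [Submodule.mkQ_apply, Submodule.Quotient.mk_eq_zero]
          exact ha
        rw [this, zero_add]
        rfl
      obtain ⟨s, hs⟩ := Module.projective_lifting_property _ N.mkQ hsurj
      obtain ⟨f', f'', e1, e2, e3, e4⟩ := split_contractible g s N hN
        (fun x => LinearMap.congr_fun hs x)
      have h5 := e1.size_eq
      have h6 := hmin f' (rigid_of_nsplit hg e1) (by
        have := e1.hh_eq B
        rw [e2, add_zero] at this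
        rw [← this]
        exact h1) (fun Z hZ => by
        have := e1.hh_eq Z
        rw [e2, add_zero] at this
        rw [← this]
        exact h2 Z hZ)
      omega
    have m1 : Superfluous (LinearMap.ker g.d) := by
      by_contra h0
      unfold Superfluous at h0
      push Not at h0
      obtain ⟨N, hN1, hN⟩ := h0
      have p1 := g.proj1
      have hsurj : Function.Surjective (N.mkQ ∘ₗ (LinearMap.ker g.d).subtype) := by
        intro y
        obtain ⟨x, rfl⟩ := N.mkQ_surjective y
        have hx : x ∈ N ⊔ LinearMap.ker g.d := by rw [hN1]; trivial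
        obtain ⟨a, ha, b, hb, rfl⟩ := Submodule.mem_sup.1 hx
        refine ⟨⟨b, hb⟩, ?_⟩
        rw [map_add]
        have : N.mkQ a = 0 := by
          rw [Submodule.mkQ_apply, Submodule.Quotient.mk_eq_zero]
          exact ha
        rw [this, zero_add]
        rfl
      obtain ⟨s', hs'⟩ := Module.projective_lifting_property _ N.mkQ hsurj
      obtain ⟨f', Q, hQ, e1, e2, e3, f'', e4, e5⟩ := split_shift g
        ((LinearMap.ker g.d).subtype ∘ₗ s') N hN
        (fun x => LinearMap.congr_fun hs' x) (fun x => (s' x).2)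
      have h6 := hmin f' (rigid_of_nsplit hg e4) (by rw [← e1]; exact h1)
        (fun Z hZ => by rw [← e1]; exact h2 Z hZ)
      omega
    let m : MinPres g.H :=
      { f := g
        π := (LinearMap.range g.d).mkQ
        surj := (LinearMap.range g.d).mkQ_surjective
        exact := by
          rw [LinearMap.exact_iff, Submodule.ker_mkQ]
        min0 := m0
        min1 := m1 }
    exact ⟨m, (van_iff_hom_tau g g.H).1 hg⟩

/-- every brick is a quotient of an indecomposable τ-rigid module -/
theorem exists_tau_of_brick (hLR : LR K A) {B : FMod K A} (hB : Brick B) :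
    ∃ V : FMod K A, Indec V ∧ TauRigid V ∧ ∃ p : V →ₗ[A] B, Function.Surjective p := by
  obtain ⟨g₀, hg₀, hZ₀⟩ := all_FFF K A hLR B
  have hex : ∃ n : ℕ, ∃ g : Cpx K A, size g = n ∧ g.Rigid ∧ hh g B ≠ 0 ∧
      ∀ Z, Hom0 B Z → hh g Z = 0 := by
    refine ⟨_, g₀, rfl, hg₀.1, ?_, fun Z hZ => (hZ₀ Z).2 hZ⟩
    intro h0
    have h1 := (hZ₀ B).1 h0
    have h2 := h1 LinearMap.id
    have := hB.1
    obtain ⟨x, hx⟩ := exists_ne (0 : B)
    exact hx (LinearMap.congr_fun h2 x)
  classical
  obtain ⟨g, hg0, hg, h1, h2⟩ := Nat.find_spec hex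
  have hmin : ∀ g' : Cpx K A, g'.Rigid → hh g' B ≠ 0 → (∀ Z, Hom0 B Z → hh g' Z = 0) →
      size g ≤ size g' := by
    intro g' a b c
    rw [hg0]
    exact Nat.find_min' hex ⟨g', rfl, a, b, c⟩
  obtain ⟨hV, hr⟩ := min_rigid B g hg h1 h2 hmin
  obtain ⟨φ, hφ⟩ := exists_map_of_hh h1
  refine ⟨g.H, hV, hr, φ, ?_⟩
  let I : FMod K A := B.sub (LinearMap.range φ)
  have h3 : hh g I ≠ 0 := by
    apply hh_ne_of_map (φ.rangeRestrict : g.H →ₗ[A] I)
    intro h4
    apply hφ
    refine LinearMap.ext fun x => ?_
    exact congrArg Subtype.val (LinearMap.congr_fun h4 x)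
  have h5 : ¬ Hom0 B I := fun h => h3 (h2 I h)
  unfold Hom0 at h5
  push Not at h5
  obtain ⟨ψ, hψ⟩ := h5
  rcases hB.2 ((LinearMap.range φ).subtype ∘ₗ ψ) with h6 | h6
  · exfalso
    apply hψ
    refine LinearMap.ext fun x => Subtype.ext ?_
    exact LinearMap.congr_fun h6 x
  · intro y
    obtain ⟨x, hx⟩ := h6.2 y
    obtain ⟨z, hz⟩ := (ψ x).2
    refine ⟨z, ?_⟩
    rw [hz]
    exact hx

/-- if every class is rigid, finitely many indecomposable τ-rigid modules imply finitely many
bricks -/
theorem bricks_of_finite (hLR : LR K A) (l : List (FMod K A))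
    (hl : ∀ V : FMod K A, Indec V → TauRigid V → ∃ N ∈ l, Nonempty (V ≃ₗ[A] N)) :
    ∃ l' : List (FMod K A), ∀ B : FMod K A, Brick B → ∃ N ∈ l', Nonempty (B ≃ₗ[A] N) := by
  classical
  have hbd : ∃ D : ℕ, ∀ N ∈ l, Module.finrank K N ≤ D := by
    refine ⟨(l.map fun N : FMod K A => Module.finrank K N).sum, fun N hN => ?_⟩
    exact List.single_le_sum (fun _ _ => Nat.zero_le _) _ (List.mem_map.2 ⟨N, hN, rfl⟩)
  obtain ⟨D, hD⟩ := hbd
  choose f hf using finitely_many_bricks K A hLR
  refine ⟨(List.range (D + 1)).flatMap f, fun B hB => ?_⟩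
  obtain ⟨V, h1, h2, p, hp⟩ := exists_tau_of_brick hLR hB
  obtain ⟨N, hN, ⟨e⟩⟩ := hl V h1 h2
  have h3 : Module.finrank K B ≤ D := by
    have h4 : Module.finrank K B ≤ Module.finrank K V :=
      LinearMap.finrank_le_finrank_of_surjective (f := p.restrictScalars K) hp
    have h5 : Module.finrank K V = Module.finrank K N := (e.restrictScalars K).finrank_eq
    have h6 := hD N hN
    omega
  obtain ⟨N', hN', e'⟩ := hf _ B hB rfl
  exact ⟨N', List.mem_flatMap.2 ⟨_, List.mem_range.2 (by omega), hN'⟩, e'⟩

/-- Over an infinite field, finitely many bricks in each dimension imply that every element of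
`K₀(proj A)` is the `g`-vector of a τ-rigid pair. -/
theorem pairs_of_bricks (hK : Infinite K)
    (h : ∀ n : ℕ, ∃ l : List (FMod K A), ∀ B : FMod K A, Brick B →
      Module.finrank K B = n → ∃ N ∈ l, Nonempty (B ≃ₗ[A] N)) :
    ∀ x ∈ K0 K A, ∃ t : TRPair K A, ∀ L, gvec t L = x L := by
  intro x hx
  obtain ⟨f, hf, hc⟩ := (lr_iff K A hK).2 h x hx
  obtain ⟨t, ht⟩ := pair_of_rigid f hf
  exact ⟨t, fun L => (ht L).trans (hc L)⟩

end

end Dem
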