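import Mathlib

/-!
Definitions for Demonet's conjecture (MP_655e1e_al): finite-dimensional modules, two-term complexes
of projectives, the Auslander-Reiten translate, tau-rigid pairs, g-vectors and their cones.
-/

universe u

namespace Dem

/-- A finite-dimensional left `A`-module (`A` a `K`-algebra). -/
structure FMod (K A : Type u) [Field K] [Ring A] [Algebra K A] where
  /-- the underlying type -/
  carrier : Type u
  [isAddCommGroup : AddCommGroup carrier]
  [isModule : Module A carrier]
  [isModuleK : Module K carrier]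
  [isScalarTower : IsScalarTower K A carrier]
  [isFinite : Module.Finite K carrier]

section

variable {K A : Type u} [Field K] [Ring A] [Algebra K A]

instance : CoeSort (FMod K A) (Type u) := ⟨FMod.carrier⟩

attribute [instance] FMod.isAddCommGroup FMod.isModule FMod.isModuleK FMod.isScalarTower
  FMod.isFinite

/-- the direct sum of two finite-dimensional modules -/
@[reducible] def FMod.prod (L M : FMod K A) : FMod K A :=
  { carrier := L × M }

/-- `dim_K Hom_A(P, L)` -/
noncomputable def hd (P L : FMod K A) : ℕ := Module.finrank K (P →ₗ[A] L)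

/-- an indecomposable module -/
def Indec (M : FMod K A) : Prop :=
  Nontrivial M ∧ ∀ P Q : Submodule A M, IsCompl P Q → P = ⊥ ∨ Q = ⊥

end

/-- A two-term complex `d : P₁ → P₀` of finitely generated projective `A`-modules
(`P₁` in degree `-1`, `P₀` in degree `0`). -/
structure Cpx (K A : Type u) [Field K] [Ring A] [Algebra K A] where
  /-- the term in degree `-1` -/
  P1 : FMod K A
  /-- the term in degree `0` -/
  P0 : FMod K A
  proj1 : Module.Projective A P1
  proj0 : Module.Projective A P0
  /-- the differential -/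
  d : P1 →ₗ[A] P0

section

variable {K A : Type u} [Field K] [Ring A] [Algebra K A]

/-- pairings of `V` with `Hom_A(P₁, A)` with values in `K` -/
abbrev Form (f : Cpx K A) (V : FMod K A) : Type u := V → (f.P1 →ₗ[A] A) → K

/-- `β` is additive in both variables and `K`-linear in the second one -/
def Form.IsBilin {f : Cpx K A} {V : FMod K A} (β : Form f V) : Prop :=
  (∀ v w φ, β (v + w) φ = β v φ + β w φ) ∧ (∀ v φ ψ, β v (φ + ψ) = β v φ + β v ψ) ∧
    ∀ v (c : K) φ, β v (c • φ) = c * β v φ

/-- `β(a v, φ) = β(v, φ a)`, where `(φ a)(x) = φ(x) a` -/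
def Form.IsBalanced {f : Cpx K A} {V : FMod K A} (β : Form f V) : Prop :=
  ∀ (a : A) v φ, β (a • v) φ = β v (LinearMap.toSpanSingleton A A a ∘ₗ φ)

/-- `β(v, -)` vanishes on the image of `Hom_A(P₀, A)` in `Hom_A(P₁, A)` -/
def Form.InTau {f : Cpx K A} {V : FMod K A} (β : Form f V) : Prop :=
  ∀ (v : V) (φ : f.P0 →ₗ[A] A), β v (φ ∘ₗ f.d) = 0

/-- `Hom_A(V, τ f) = 0`, where `τ f = D coker (Hom_A(P₀, A) → Hom_A(P₁, A))`, `D = Hom_K(-, K)`,
is the dual of the transpose of the complex `f`: a homomorphism `V → τ f` is the same thing as a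
bilinear balanced pairing `β` as above that vanishes on the image of `Hom_A(P₀, A)`. -/
def NoTauHom (f : Cpx K A) (V : FMod K A) : Prop :=
  ∀ β : Form f V, β.IsBilin → β.IsBalanced → β.InTau → ∀ v φ, β v φ = 0

/-- a superfluous (small) submodule -/
def Superfluous {M : FMod K A} (N : Submodule A M) : Prop :=
  ∀ N' : Submodule A M, N' ⊔ N = ⊤ → N' = ⊤

/-- A minimal projective presentation `P₁ → P₀ → V → 0` of `V`: `f = (d : P₁ → P₀)`,
the sequence is exact, and `ker π`, `ker d` are superfluous. -/
structure MinPres (V : FMod K A) where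
  /-- the complex `P₁ → P₀` -/
  f : Cpx K A
  /-- the augmentation `P₀ → V` -/
  π : f.P0 →ₗ[A] V
  surj : Function.Surjective π
  exact : Function.Exact f.d π
  min0 : Superfluous (LinearMap.ker π)
  min1 : Superfluous (LinearMap.ker f.d)

/-- `V` is τ-rigid: `Hom_A(V, τ_A V) = 0`, where `τ_A V = D Tr V` is computed from a minimal
projective presentation of `V`. -/
def TauRigid (V : FMod K A) : Prop :=
  ∃ m : MinPres V, NoTauHom m.f V

end

/-- A τ-rigid pair `(V, P)`: `V` is τ-rigid and `Hom_A(P, V) = 0`, `P` projective. -/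
structure TRPair (K A : Type u) [Field K] [Ring A] [Algebra K A] where
  /-- the module `V` -/
  V : FMod K A
  /-- the projective module `P` -/
  P : FMod K A
  projP : Module.Projective A P
  /-- a minimal projective presentation of `V` -/
  m : MinPres V
  rigid : NoTauHom m.f V
  hom : ∀ φ : P →ₗ[A] V, φ = 0

section

variable {K A : Type u} [Field K] [Ring A] [Algebra K A]

/-- the `g`-vector `g(V, P) = [P₀] - [P₁] - [P]` -/
noncomputable def gvec (t : TRPair K A) (L : FMod K A) : ℤ :=
  (hd t.m.f.P0 L : ℤ) - hd t.m.f.P1 L - hd t.P L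

/-- `s` is a direct summand of the τ-rigid pair `t` -/
def IsSummand (s t : TRPair K A) : Prop :=
  ∃ V' P' : FMod K A, Nonempty (t.V ≃ₗ[A] s.V.prod V') ∧ Nonempty (t.P ≃ₗ[A] s.P.prod P')

/-- the cone `C(V, P)`: nonnegative real combinations of the `g`-vectors of the direct summands of
the pair `t = (V, P)` -/
def InCone (t : TRPair K A) (x : FMod K A → ℝ) : Prop :=
  ∃ (n : ℕ) (s : Fin n → TRPair K A) (c : Fin n → ℝ), (∀ i, IsSummand (s i) t) ∧ (∀ i, 0 ≤ c i) ∧
    ∀ L, x L = ∑ i, c i * (gvec (s i) L : ℝ)

end

/-- The group `K₀(proj A)`, as a group of functions on finite-dimensional modules: the class of `P`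
is `L ↦ dim Hom_A(P, L)`. -/
def K0 (K A : Type u) [Field K] [Ring A] [Algebra K A] : AddSubgroup (FMod K A → ℤ) :=
  AddSubgroup.closure {x | ∃ P : FMod K A, Module.Projective A P ∧ ∀ L, x L = hd P L}

end Dem
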