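import Pool.Agent.H3.Dem.Rec

/-!
Finiteness of the indecomposable direct summands.
-/

universe u

namespace Dem

variable {K A : Type u} [Field K] [Ring A] [Algebra K A]

/-- Fitting's lemma: an endomorphism of an indecomposable finite-dimensional module is bijective
or nilpotent. -/
lemma fitting {M : FMod K A} (hM : Indec M) (f : M →ₗ[A] M) :
    Function.Bijective f ∨ IsNilpotent (f : Module.End A M) := by
  have h1 : IsNoetherian A M := isNoetherian_of_tower K inferInstance
  have h2 : IsArtinian A M := isArtinian_of_tower K inferInstance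
  obtain ⟨n, hn⟩ := (LinearMap.eventually_isCompl_ker_pow_range_pow f).exists_forall_of_atTop
  have h := hn (n + 1) (by omega)
  rcases hM.2 _ _ h with h3 | h3
  · left
    have hinj : Function.Injective (f ^ (n + 1) : Module.End A M) := LinearMap.ker_eq_bot.1 h3
    have hinjf : Function.Injective f := by
      have : (f ^ (n + 1) : Module.End A M) = (f ^ n : Module.End A M) * f := pow_succ f n
      rw [this] at hinj
      exact Function.Injective.of_comp hinj
    refine ⟨hinjf, ?_⟩
    exact IsArtinian.surjective_of_injective_endomorphism f hinjf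
  · right
    exact ⟨n + 1, LinearMap.range_eq_bot.1 h3⟩

/-- the endomorphism ring of an indecomposable module is local -/
lemma local_add {M : FMod K A} (hM : Indec M) (f g : Module.End A M)
    (h : Function.Bijective ⇑(f + g)) : Function.Bijective f ∨ Function.Bijective g := by
  rcases fitting hM f with hf | hf
  · exact Or.inl hf
  · right
    -- `u = f + g` is a unit; `u⁻¹ f` is not bijective, hence nilpotent
    obtain ⟨u, hu⟩ : IsUnit (f + g) := (Module.End.isUnit_iff _).2 h
    have hnot : ¬ Function.Bijective (((u⁻¹ : (Module.End A M)ˣ) : Module.End A M) * f) := by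
      intro hb
      have hfb : Function.Bijective f := by
        have h3 : f = (u : Module.End A M) * ((((u⁻¹ : (Module.End A M)ˣ) : Module.End A M)) * f) := by
          rw [← mul_assoc, Units.mul_inv, one_mul]
        rw [h3]
        have h4 : Function.Bijective (u : Module.End A M) := by rw [hu]; exact h
        exact h4.comp hb
      obtain ⟨n, hn⟩ := hf
      have h5 : Function.Bijective (f ^ n : Module.End A M) := by
        rw [← Module.End.isUnit_iff]
        exact ((Module.End.isUnit_iff _).2 hfb).pow n
      rw [hn] at h5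
      obtain ⟨x, hx⟩ := (have := hM.1; exists_ne (0 : M))
      exact hx (h5.1 rfl)
    have hnil : IsNilpotent (((u⁻¹ : (Module.End A M)ˣ) : Module.End A M) * f) := by
      rcases fitting hM (((u⁻¹ : (Module.End A M)ˣ) : Module.End A M) * f) with h6 | h6
      · exact absurd h6 hnot
      · exact h6
    have h7 : IsUnit (1 - ((u⁻¹ : (Module.End A M)ˣ) : Module.End A M) * f) := hnil.isUnit_one_sub
    have h8 : (u : Module.End A M) * (1 - ((u⁻¹ : (Module.End A M)ˣ) : Module.End A M) * f) = g := by
      rw [mul_sub, mul_one, ← mul_assoc, Units.mul_inv, one_mul, hu]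
      abel
    have h9 : IsUnit g := by
      rw [← h8]
      exact u.isUnit.mul h7
    exact (Module.End.isUnit_iff _).1 h9

lemma local_sum {M : FMod K A} (hM : Indec M) {ι : Type*} (s : Finset ι)
    (f : ι → Module.End A M) (h : Function.Bijective ⇑(∑ i ∈ s, f i)) :
    ∃ i ∈ s, Function.Bijective (f i) := by
  classical
  induction s using Finset.induction_on with
  | empty =>
    exfalso
    obtain ⟨x, hx⟩ := (have := hM.1; exists_ne (0 : M))
    rw [Finset.sum_empty] at h
    exact hx (h.1 rfl)
  | insert a s ha ih =>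
    rw [Finset.sum_insert ha] at h
    rcases local_add hM _ _ h with h1 | h1
    · exact ⟨a, Finset.mem_insert_self _ _, h1⟩
    · obtain ⟨i, hi, h2⟩ := ih h1
      exact ⟨i, Finset.mem_insert_of_mem hi, h2⟩

/-- `M` is (isomorphic to) a direct summand of `N` -/
def Summ (M N : FMod K A) : Prop :=
  ∃ (q : M →ₗ[A] N) (p : N →ₗ[A] M), Function.Bijective (p ∘ₗ q)

lemma summ_of_pow {M : FMod K A} (hM : Indec M) (N : FMod K A) (n : ℕ)
    (q : M →ₗ[A] (Fin n → N)) (p : (Fin n → N) →ₗ[A] M) (h : Function.Bijective (p ∘ₗ q)) :
    Summ M N := by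
  have h1 : (p ∘ₗ q : Module.End A M) = ∑ i : Fin n,
      (p ∘ₗ LinearMap.single A (fun _ : Fin n => (N : Type u)) i) ∘ₗ
        ((LinearMap.proj i : (Fin n → N) →ₗ[A] N) ∘ₗ q) := by
    refine LinearMap.ext fun x => ?_
    rw [LinearMap.sum_apply]
    change p (q x) = ∑ i, p (Pi.single i (q x i))
    rw [← map_sum, Finset.univ_sum_single]
  rw [h1] at h
  obtain ⟨i, -, hi⟩ := local_sum hM _ _ h
  exact ⟨_, _, hi⟩

/-- the finiteness statement for the summands of `N` -/
theorem finite_summands (n : ℕ) : ∀ N : FMod K A, Module.finrank K N ≤ n →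
    ∃ l : List (FMod K A), ∀ M : FMod K A, Indec M → Summ M N →
      ∃ N' ∈ l, Nonempty (M ≃ₗ[A] N') := by
  induction n with
  | zero =>
    intro N hN
    refine ⟨[], fun M hM hMN => ?_⟩
    exfalso
    obtain ⟨q, p, h⟩ := hMN
    have : Subsingleton N := Module.finrank_zero_iff.1 (by omega : Module.finrank K N = 0)
    obtain ⟨x, hx⟩ := (have := hM.1; exists_ne (0 : M))
    apply hx
    apply h.1
    change p (q x) = p (q 0)
    rw [Subsingleton.elim (q x) (q 0)]
  | succ n ih =>
    intro N hN
    by_cases hind : Indec N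
    · refine ⟨[N], fun M hM hMN => ⟨N, List.mem_singleton.2 rfl, ?_⟩⟩
      obtain ⟨q, p, h⟩ := hMN
      have hq : Function.Injective q := by
        apply Function.Injective.of_comp (f := p)
        exact h.1
      have hp : Function.Surjective p := by
        apply Function.Surjective.of_comp (g := q)
        exact h.2
      have hcompl : IsCompl (LinearMap.range q) (LinearMap.ker p) := by
        rw [isCompl_iff]
        constructor
        · rw [Submodule.disjoint_def]
          rintro _ ⟨x, rfl⟩ hx
          have : x = 0 := by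
            apply h.1
            change p (q x) = p (q 0)
            rw [LinearMap.mem_ker.1 hx, map_zero, map_zero]
          rw [this, map_zero]
        · rw [codisjoint_iff, eq_top_iff]
          intro y _
          obtain ⟨x, hx⟩ := h.2 (p y)
          have hx' : p (q x) = p y := hx
          rw [Submodule.mem_sup]
          refine ⟨q x, LinearMap.mem_range_self _ _, y - q x, ?_, by abel⟩
          rw [LinearMap.mem_ker, map_sub, hx', sub_self]
      rcases hind.2 _ _ hcompl with h1 | h1
      · exfalso
        obtain ⟨x, hx⟩ := (have := hM.1; exists_ne (0 : M))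
        apply hx
        apply hq
        have : q x ∈ LinearMap.range q := LinearMap.mem_range_self _ _
        rw [h1, Submodule.mem_bot] at this
        rw [this, map_zero]
      · have hpi : Function.Injective p := LinearMap.ker_eq_bot.1 h1
        exact ⟨(LinearEquiv.ofBijective p ⟨hpi, hp⟩).symm⟩
    · unfold Indec at hind
      by_cases hnt : Nontrivial N
      · have : ∃ P Q : Submodule A N, IsCompl P Q ∧ P ≠ ⊥ ∧ Q ≠ ⊥ := by
          by_contra hcon
          apply hind
          refine ⟨hnt, fun P Q hPQ => ?_⟩
          by_contra h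
          rw [not_or] at h
          exact hcon ⟨P, Q, hPQ, h.1, h.2⟩
        obtain ⟨P, Q, hPQ, hP, hQ⟩ := this
        have hdim : Module.finrank K P + Module.finrank K Q = Module.finrank K N := by
          have := (Submodule.prodEquivOfIsCompl P Q hPQ).restrictScalars K
          rw [← Module.finrank_prod]
          exact this.finrank_eq
        have hPpos : 0 < Module.finrank K P := by
          rw [Module.finrank_pos_iff]
          exact Submodule.nontrivial_iff_ne_bot.2 hP
        have hQpos : 0 < Module.finrank K Q := by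
          rw [Module.finrank_pos_iff]
          exact Submodule.nontrivial_iff_ne_bot.2 hQ
        obtain ⟨l1, hl1⟩ := ih (N.sub P) (by
          change Module.finrank K P ≤ n
          omega)
        obtain ⟨l2, hl2⟩ := ih (N.sub Q) (by
          change Module.finrank K Q ≤ n
          omega)
        refine ⟨l1 ++ l2, fun M hM hMN => ?_⟩
        obtain ⟨q, p, h⟩ := hMN
        have h1 : (p ∘ₗ q : Module.End A M) =
            (p ∘ₗ P.subtype) ∘ₗ (Submodule.projectionOnto P Q hPQ ∘ₗ q) +
            (p ∘ₗ Q.subtype) ∘ₗ (Submodule.projectionOnto Q P hPQ.symm ∘ₗ q) := by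
          refine LinearMap.ext fun x => ?_
          change p (q x) = p (Submodule.projectionOnto P Q hPQ (q x)) +
            p (Submodule.projectionOnto Q P hPQ.symm (q x))
          rw [← map_add]
          congr 1
          exact (Submodule.projection_add_projection_eq_self hPQ (q x)).symm
        rw [h1] at h
        rcases local_add hM _ _ h with h2 | h2
        · obtain ⟨N', hN', e⟩ := hl1 M hM ⟨_, _, h2⟩
          exact ⟨N', List.mem_append.2 (Or.inl hN'), e⟩
        · obtain ⟨N', hN', e⟩ := hl2 M hM ⟨_, _, h2⟩
          exact ⟨N', List.mem_append.2 (Or.inr hN'), e⟩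
      · refine ⟨[], fun M hM hMN => ?_⟩
        exfalso
        obtain ⟨q, p, h⟩ := hMN
        have : Subsingleton N := not_nontrivial_iff_subsingleton.1 hnt
        obtain ⟨x, hx⟩ := (have := hM.1; exists_ne (0 : M))
        apply hx
        apply h.1
        change p (q x) = p (q 0)
        rw [Subsingleton.elim (q x) (q 0)]

/-- The Bongartz trick: if `dim Hom(M, -) = a dim Hom(N₁, -) + b dim Hom(N₂, -)` then `M` is a
direct summand of a power of `N₁ × N₂`. -/
theorem bongartz (M N₁ N₂ : FMod K A) (a b : ℕ)
    (h : ∀ L, hd M L = a * hd N₁ L + b * hd N₂ L) :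
    ∃ (n : ℕ) (q : M →ₗ[A] (Fin n → (N₁.prod N₂))) (p : (Fin n → (N₁.prod N₂)) →ₗ[A] M),
      Function.Bijective (p ∘ₗ q) := by
  let bs := Module.finBasis K ((N₁.prod N₂) →ₗ[A] M)
  let n := Module.finrank K ((N₁.prod N₂) →ₗ[A] M)
  let p : (Fin n → (N₁.prod N₂)) →ₗ[A] M := ∑ i, (bs i) ∘ₗ (LinearMap.proj i)
  have hp : ∀ x, p x = ∑ i, bs i (x i) := fun x => by
    simp only [p, LinearMap.sum_apply]
    rfl
  -- composition with `p`, for a test module `X`
  let E : FMod K A := { carrier := Fin n → (N₁.prod N₂) }
  let comp : ∀ X : FMod K A, (X →ₗ[A] E) →ₗ[K] (X →ₗ[A] M) := fun X =>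
    { toFun := fun φ => p ∘ₗ φ
      map_add' := fun φ ψ => by
        refine LinearMap.ext fun x => ?_
        exact map_add p _ _
      map_smul' := fun c φ => by
        refine LinearMap.ext fun x => ?_
        exact p.map_smul_of_tower c (φ x) }
  let Ker : FMod K A := E.sub (LinearMap.ker p)
  have hker : ∀ X : FMod K A, Module.finrank K (LinearMap.ker (comp X)) = hd X Ker := by
    intro X
    unfold hd
    symm
    apply LinearEquiv.finrank_eq
    refine LinearEquiv.ofBijective ({
      toFun := fun φ => ⟨(LinearMap.ker p).subtype ∘ₗ φ, ?_⟩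
      map_add' := fun _ _ => rfl
      map_smul' := fun _ _ => rfl } : (X →ₗ[A] Ker) →ₗ[K] LinearMap.ker (comp X)) ⟨?_, ?_⟩
    · rw [LinearMap.mem_ker]
      refine LinearMap.ext fun x => ?_
      exact (φ x).2
    · intro φ ψ hφψ
      refine LinearMap.ext fun x => Subtype.ext ?_
      exact LinearMap.congr_fun (congrArg Subtype.val hφψ) x
    · rintro ⟨φ, hφ⟩
      refine ⟨LinearMap.codRestrict (LinearMap.ker p) φ (fun x => ?_), ?_⟩
      · exact LinearMap.congr_fun hφ x
      · apply Subtype.ext
        rfl
  have hle : ∀ X : FMod K A, (hd X E : ℤ) - hd X Ker ≤ hd X M := by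
    intro X
    have h1 := LinearMap.finrank_range_add_finrank_ker (comp X)
    have h2 := Submodule.finrank_le (LinearMap.range (comp X))
    rw [hker] at h1
    unfold hd at *
    omega
  have heq : ∀ X : FMod K A, Function.Surjective (comp X) ↔ (hd X E : ℤ) - hd X Ker = hd X M := by
    intro X
    have h1 := LinearMap.finrank_range_add_finrank_ker (comp X)
    rw [hker] at h1
    constructor
    · intro hs
      have h3 : LinearMap.range (comp X) = ⊤ := LinearMap.range_eq_top.2 hs
      rw [h3, finrank_top] at h1
      unfold hd at *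
      omega
    · intro h3
      rw [← LinearMap.range_eq_top]
      apply Submodule.eq_top_of_finrank_eq
      unfold hd at *
      omega
  have hsum : ∀ (φ : (N₁.prod N₂) →ₗ[A] M) (x : N₁.prod N₂),
      φ x = ∑ i, bs.repr φ i • bs i x := by
    intro φ x
    conv_lhs => rw [← bs.sum_repr φ]
    rw [LinearMap.sum_apply]
    rfl
  have hs1 : Function.Surjective (comp N₁) := by
    intro φ
    refine ⟨LinearMap.pi fun i => (bs.repr (φ ∘ₗ LinearMap.fst A N₁ N₂) i) •
      LinearMap.inl A N₁ N₂, ?_⟩
    refine LinearMap.ext fun x => ?_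
    change p _ = φ x
    rw [hp]
    have := hsum (φ ∘ₗ LinearMap.fst A N₁ N₂) (x, 0)
    refine Eq.trans ?_ this.symm
    refine Finset.sum_congr rfl fun i _ => ?_
    exact (bs i).map_smul_of_tower (bs.repr (φ ∘ₗ LinearMap.fst A N₁ N₂) i)
      ((x, 0) : N₁.prod N₂)
  have hs2 : Function.Surjective (comp N₂) := by
    intro φ
    refine ⟨LinearMap.pi fun i => (bs.repr (φ ∘ₗ LinearMap.snd A N₁ N₂) i) •
      LinearMap.inr A N₁ N₂, ?_⟩
    refine LinearMap.ext fun x => ?_
    change p _ = φ x
    rw [hp]
    have := hsum (φ ∘ₗ LinearMap.snd A N₁ N₂) (0, x)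
    refine Eq.trans ?_ this.symm
    refine Finset.sum_congr rfl fun i _ => ?_
    exact (bs i).map_smul_of_tower (bs.repr (φ ∘ₗ LinearMap.snd A N₁ N₂) i)
      ((0, x) : N₁.prod N₂)
  have h1 := (heq N₁).1 hs1
  have h2 := (heq N₂).1 hs2
  have hsM : Function.Surjective (comp M) := by
    rw [heq, h E, h Ker, h M]
    push_cast
    linear_combination (a : ℤ) * h1 + (b : ℤ) * h2
  obtain ⟨q, hq⟩ := hsM LinearMap.id
  refine ⟨n, q, p, ?_⟩
  have : p ∘ₗ q = LinearMap.id := hq
  rw [this]
  exact Function.bijective_id

end Dem
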