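import Pool.Agent.H3.Dem.Fin

/-!
τ-rigid pairs, `g`-vectors, the cones `C(V, P)`, and the passage between τ-rigid pairs and rigid
two-term complexes.
-/

universe u

namespace Dem

variable {K A : Type u} [Field K] [Ring A] [Algebra K A] [Module.Finite K A]

/-! ### from pairs to complexes -/

omit [Module.Finite K A] in
lemma MinPres.range_eq {V : FMod K A} (m : MinPres V) :
    LinearMap.range m.f.d = LinearMap.ker m.π := (LinearMap.exact_iff.1 m.exact).symm

omit [Module.Finite K A] in
lemma MinPres.exists_map {V : FMod K A} (m : MinPres V) :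
    ∃ p : m.f.H →ₗ[A] V, Function.Bijective p := by
  refine ⟨(LinearMap.range m.f.d).liftQ m.π m.range_eq.le, ?_, ?_⟩
  · rw [← LinearMap.ker_eq_bot]
    exact Submodule.ker_liftQ_eq_bot _ _ _ m.range_eq.ge
  · intro v
    obtain ⟨x, rfl⟩ := m.surj v
    exact ⟨(LinearMap.range m.f.d).mkQ x, rfl⟩

omit [Module.Finite K A] in
lemma Van.of_equiv {f : Cpx K A} {L M : FMod K A} (h : Van f M) (p : L →ₗ[A] M)
    (hp : Function.Bijective p) : Van f L := by
  let e := LinearEquiv.ofBijective p hp
  exact h.of_surjective e.symm.toLinearMap e.symm.surjective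

lemma van_iff_hom_tau (f : Cpx K A) (L : FMod K A) :
    Van f L ↔ NoTauHom f L := by
  rw [noTauHom_iff, van_iff_ee, ← hd_tau]
  unfold hd
  rw [Module.finrank_zero_iff]
  constructor
  · intro h φ
    exact Subsingleton.elim _ _
  · intro h
    exact ⟨fun φ ψ => by rw [h φ, h ψ]⟩

lemma MinPres.rigid_of_tau {V : FMod K A} (m : MinPres V) (h : NoTauHom m.f V) :
    m.f.Rigid := by
  obtain ⟨p, hp⟩ := m.exists_map
  exact ((van_iff_hom_tau m.f V).2 h).of_equiv p hp

/-- the rigid complex of a τ-rigid pair -/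
def TRPair.cpx (t : TRPair K A) : Cpx K A := t.m.f.sum (Cpx.shift t.P t.projP)

omit [Module.Finite K A] in
lemma van_shift_iff (P : FMod K A) (hP : Module.Projective A P) (L : FMod K A) :
    Van (Cpx.shift P hP) L ↔ ∀ φ : P →ₗ[A] L, φ = 0 := by
  constructor
  · intro h φ
    obtain ⟨ψ, hψ⟩ := h φ
    rw [← hψ]
    refine LinearMap.ext fun x => ?_
    change ψ ((Cpx.shift P hP).d x) = 0
    have : (Cpx.shift P hP).d x = 0 := rfl
    rw [this, map_zero]
  · intro h φ
    refine ⟨0, ?_⟩
    rw [h φ, map_zero]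

lemma TRPair.rigid_cpx (t : TRPair K A) : t.cpx.Rigid := by
  unfold TRPair.cpx
  rw [rigid_sum_iff]
  have hs := subsingleton_shift_H t.P t.projP
  obtain ⟨p, hp⟩ := t.m.exists_map
  refine ⟨⟨t.m.rigid_of_tau t.rigid, van_of_subsingleton _ _ hs⟩, ⟨?_, van_of_subsingleton _ _ hs⟩⟩
  exact ((van_shift_iff t.P t.projP t.V).2 t.hom).of_equiv p hp

lemma TRPair.cls_cpx (t : TRPair K A) (L : FMod K A) : cls t.cpx L = gvec t L := by
  unfold TRPair.cpx gvec
  rw [cls_sum, cls_shift]
  unfold cls
  ring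

/-! ### direct sums of minimal presentations -/

omit [Module.Finite K A] in
/-- the product of superfluous submodules is superfluous -/
lemma superfluous_prod {P Q : Type u} [AddCommGroup P] [Module A P] [AddCommGroup Q] [Module A Q]
    (X : Submodule A P) (Y : Submodule A Q) (hX : ∀ N : Submodule A P, N ⊔ X = ⊤ → N = ⊤)
    (hY : ∀ N : Submodule A Q, N ⊔ Y = ⊤ → N = ⊤) (N : Submodule A (P × Q))
    (h : N ⊔ X.prod Y = ⊤) : N = ⊤ := by
  -- first show `N ⊔ (0 × Y)`-step
  have h1 : ∀ N : Submodule A (P × Q), N ⊔ (⊥ : Submodule A P).prod Y = ⊤ → N = ⊤ := by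
    intro N hN
    have h2 : N.comap (LinearMap.inr A P Q) = ⊤ := by
      apply hY
      rw [eq_top_iff]
      intro q _
      have : ((0 : P), q) ∈ N ⊔ (⊥ : Submodule A P).prod Y := by rw [hN]; trivial
      obtain ⟨n, hn, z, hz, hnz⟩ := Submodule.mem_sup.1 this
      rw [Submodule.mem_prod, Submodule.mem_bot] at hz
      rw [Submodule.mem_sup]
      refine ⟨n.2, ?_, z.2, hz.2, ?_⟩
      · rw [Submodule.mem_comap]
        have hn1 : n.1 = 0 := by
          have := congrArg Prod.fst hnz
          change n.1 + z.1 = 0 at this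
          rw [hz.1, add_zero] at this
          exact this
        have : LinearMap.inr A P Q n.2 = n := Prod.ext hn1.symm rfl
        rw [this]
        exact hn
      · exact congrArg Prod.snd hnz
    rw [eq_top_iff]
    rintro w -
    have : w ∈ N ⊔ (⊥ : Submodule A P).prod Y := by rw [hN]; trivial
    obtain ⟨n, hn, z, hz, rfl⟩ := Submodule.mem_sup.1 this
    apply N.add_mem hn
    rw [Submodule.mem_prod, Submodule.mem_bot] at hz
    have h3 : z.2 ∈ N.comap (LinearMap.inr A P Q) := by rw [h2]; trivial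
    rw [Submodule.mem_comap] at h3
    have : LinearMap.inr A P Q z.2 = z := Prod.ext hz.1.symm rfl
    rwa [this] at h3
  have h1' : ∀ N : Submodule A (P × Q), N ⊔ X.prod (⊥ : Submodule A Q) = ⊤ → N = ⊤ := by
    intro N hN
    have h2 : N.comap (LinearMap.inl A P Q) = ⊤ := by
      apply hX
      rw [eq_top_iff]
      intro q _
      have : (q, (0 : Q)) ∈ N ⊔ X.prod (⊥ : Submodule A Q) := by rw [hN]; trivial
      obtain ⟨n, hn, z, hz, hnz⟩ := Submodule.mem_sup.1 this
      rw [Submodule.mem_prod, Submodule.mem_bot] at hz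
      rw [Submodule.mem_sup]
      refine ⟨n.1, ?_, z.1, hz.1, ?_⟩
      · rw [Submodule.mem_comap]
        have hn1 : n.2 = 0 := by
          have := congrArg Prod.snd hnz
          change n.2 + z.2 = 0 at this
          rw [hz.2, add_zero] at this
          exact this
        have : LinearMap.inl A P Q n.1 = n := Prod.ext rfl hn1.symm
        rw [this]
        exact hn
      · exact congrArg Prod.fst hnz
    rw [eq_top_iff]
    rintro w -
    have : w ∈ N ⊔ X.prod (⊥ : Submodule A Q) := by rw [hN]; trivial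
    obtain ⟨n, hn, z, hz, rfl⟩ := Submodule.mem_sup.1 this
    apply N.add_mem hn
    rw [Submodule.mem_prod, Submodule.mem_bot] at hz
    have h3 : z.1 ∈ N.comap (LinearMap.inl A P Q) := by rw [h2]; trivial
    rw [Submodule.mem_comap] at h3
    have : LinearMap.inl A P Q z.1 = z := Prod.ext rfl hz.2.symm
    rwa [this] at h3
  have hsplit : X.prod Y ≤ X.prod (⊥ : Submodule A Q) ⊔ (⊥ : Submodule A P).prod Y := by
    intro z hz
    rw [Submodule.mem_prod] at hz
    rw [Submodule.mem_sup]
    refine ⟨(z.1, 0), ?_, (0, z.2), ?_, ?_⟩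
    · rw [Submodule.mem_prod]
      exact ⟨hz.1, Submodule.zero_mem _⟩
    · rw [Submodule.mem_prod]
      exact ⟨Submodule.zero_mem _, hz.2⟩
    · exact Prod.ext (add_zero _) (zero_add _)
  apply h1'
  apply h1
  rw [sup_assoc, eq_top_iff, ← h]
  exact sup_le_sup_left hsplit N

/-- the direct sum of two minimal presentations -/
def MinPres.sum {V W : FMod K A} (m : MinPres V) (m' : MinPres W) : MinPres (V.prod W) where
  f := m.f.sum m'.f
  π := LinearMap.prodMap m.π m'.π
  surj := by
    rintro ⟨v, w⟩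
    obtain ⟨x, rfl⟩ := m.surj v
    obtain ⟨y, rfl⟩ := m'.surj w
    exact ⟨(x, y), rfl⟩
  exact := by
    rw [LinearMap.exact_iff]
    symm
    ext ⟨x, y⟩
    constructor
    · rintro ⟨z, hz⟩
      have h1 : m.f.d z.1 = x := congrArg Prod.fst hz
      have h2 : m'.f.d z.2 = y := congrArg Prod.snd hz
      have h3 : x ∈ LinearMap.ker m.π := by
        rw [← m.range_eq, ← h1]
        exact LinearMap.mem_range_self _ _
      have h4 : y ∈ LinearMap.ker m'.π := by
        rw [← m'.range_eq, ← h2]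
        exact LinearMap.mem_range_self _ _
      exact Prod.ext h3 h4
    · intro h
      have h3 : x ∈ LinearMap.ker m.π := congrArg Prod.fst h
      have h4 : y ∈ LinearMap.ker m'.π := congrArg Prod.snd h
      rw [← m.range_eq] at h3
      rw [← m'.range_eq] at h4
      obtain ⟨a, rfl⟩ := h3
      obtain ⟨b, rfl⟩ := h4
      exact ⟨(a, b), rfl⟩
  min0 := by
    intro N hN
    apply superfluous_prod _ _ m.min0 m'.min0 N
    rw [← hN]
    congr 1
    ext z
    rw [Submodule.mem_prod]
    constructor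
    · rintro ⟨h1, h2⟩
      exact Prod.ext h1 h2
    · intro h
      exact ⟨congrArg Prod.fst h, congrArg Prod.snd h⟩
  min1 := by
    intro N hN
    apply superfluous_prod _ _ m.min1 m'.min1 N
    rw [← hN]
    congr 1
    ext z
    rw [Submodule.mem_prod]
    constructor
    · rintro ⟨h1, h2⟩
      exact Prod.ext h1 h2
    · intro h
      exact ⟨congrArg Prod.fst h, congrArg Prod.snd h⟩

/-- Two τ-rigid pairs whose complexes are compatible are direct summands of a τ-rigid pair. -/
lemma exists_pair_sum (t s : TRPair K A) (h : (t.cpx.sum s.cpx).Rigid) :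
    ∃ r : TRPair K A, IsSummand t r ∧ IsSummand s r := by
  obtain ⟨⟨-, hts⟩, ⟨hst, -⟩⟩ := (rigid_sum_iff _ _).1 h
  obtain ⟨pt, hpt⟩ := t.m.exists_map
  obtain ⟨ps, hps⟩ := s.m.exists_map
  obtain ⟨qt, hqt⟩ := exists_fst t.m.f (Cpx.shift t.P t.projP)
  obtain ⟨qs, hqs⟩ := exists_fst s.m.f (Cpx.shift s.P s.projP)
  have e1 : Van t.cpx s.V := (Van.of_surjective hts qs hqs).of_surjective ps hps.2
  have e2 : Van s.cpx t.V := (Van.of_surjective hst qt hqt).of_surjective pt hpt.2
  obtain ⟨a1, a2⟩ := (van_sum _ _ _).1 e1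
  obtain ⟨b1, b2⟩ := (van_sum _ _ _).1 e2
  have c1 := (van_iff_hom_tau t.m.f t.V).2 t.rigid
  have c2 := (van_iff_hom_tau s.m.f s.V).2 s.rigid
  refine ⟨{
    V := t.V.prod s.V
    P := t.P.prod s.P
    projP := by
      have := t.projP
      have := s.projP
      exact (inferInstance : Module.Projective A (t.P × s.P))
    m := t.m.sum s.m
    rigid := ?_
    hom := ?_ }, ⟨s.V, s.P, ⟨LinearEquiv.refl A _⟩, ⟨LinearEquiv.refl A _⟩⟩,
      ⟨t.V, t.P, ⟨LinearEquiv.prodComm A t.V s.V⟩, ⟨LinearEquiv.prodComm A t.P s.P⟩⟩⟩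
  · rw [← van_iff_hom_tau]
    change Van (t.m.f.sum s.m.f) (t.V.prod s.V)
    rw [van_sum]
    exact ⟨c1.prod a1, b1.prod c2⟩
  · intro φ
    have d1 := (van_shift_iff t.P t.projP s.V).1 a2
    have d2 := (van_shift_iff s.P s.projP t.V).1 b2
    refine LinearMap.ext fun x => ?_
    have hx : x = (x.1, 0) + (0, x.2) := (Prod.ext (add_zero _) (zero_add _) : _ = x).symm
    have e3 : ∀ y : t.P, φ (y, 0) = 0 := by
      intro y
      have f1 := LinearMap.congr_fun (t.hom (LinearMap.fst A t.V s.V ∘ₗ φ ∘ₗ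
        LinearMap.inl A t.P s.P)) y
      have f2 := LinearMap.congr_fun (d1 (LinearMap.snd A t.V s.V ∘ₗ φ ∘ₗ
        LinearMap.inl A t.P s.P)) y
      exact Prod.ext f1 f2
    have e4 : ∀ y : s.P, φ (0, y) = 0 := by
      intro y
      have f1 := LinearMap.congr_fun (d2 (LinearMap.fst A t.V s.V ∘ₗ φ ∘ₗ
        LinearMap.inr A t.P s.P)) y
      have f2 := LinearMap.congr_fun (s.hom (LinearMap.snd A t.V s.V ∘ₗ φ ∘ₗ
        LinearMap.inr A t.P s.P)) y
      exact Prod.ext f1 f2
    have e5 : φ x = φ (x.1, 0) + φ (0, x.2) := by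
      conv_lhs => rw [hx]
      exact map_add φ _ _
    rw [e5, e3, e4, add_zero]
    rfl

end Dem
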