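import Pool.Agent.H5.SBC.Main
import Pool.Agent.H3.Dem.Pairs

/-!
If every element of `K₀(proj A)` is the `g`-vector of a τ-rigid pair then the smallest torsion class
containing a given module is `Fac V` for a τ-rigid module `V`.
-/

namespace Dem

open SBC

section

variable {K A : Type} [Field K] [Ring A] [Algebra K A] [Module.Finite K A]

theorem lr_of_pairs (hZ : ∀ x ∈ K0 K A, ∃ t : TRPair K A, ∀ L, gvec t L = x L) : LR K A := by
  intro x hx
  obtain ⟨t, ht⟩ := hZ x hx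
  exact ⟨t.cpx, t.rigid_cpx, fun L => (t.cls_cpx L).trans (ht L)⟩

/-- the module `V^n` -/
@[reducible] def FMod.pow (V : FMod K A) (n : ℕ) : FMod K A := { carrier := Fin n → V }

/-- `Y` is generated by `V` -/
def Fac (V Y : FMod K A) : Prop := ∃ (n : ℕ) (p : (Fin n → V) →ₗ[A] Y), Function.Surjective p

omit [Module.Finite K A] in
/-- the trace of `V` in `Y` -/
theorem exists_trace (V Y : FMod K A) :
    ∃ (n : ℕ) (p : (Fin n → V) →ₗ[A] Y), ∀ φ : V →ₗ[A] Y, LinearMap.range φ ≤ LinearMap.range p := by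
  let bs := Module.finBasis K (V →ₗ[A] Y)
  let n := Module.finrank K (V →ₗ[A] Y)
  let p : (Fin n → V) →ₗ[A] Y := ∑ i, (bs i) ∘ₗ (LinearMap.proj i)
  refine ⟨n, p, fun φ => ?_⟩
  have hp : ∀ x, p x = ∑ i, bs i (x i) := fun x => by
    simp only [p, LinearMap.sum_apply]
    rfl
  have hsum : ∀ x : V, φ x = ∑ i, bs.repr φ i • bs i x := by
    intro x
    conv_lhs => rw [← bs.sum_repr φ]
    rw [LinearMap.sum_apply]
    rfl
  rintro _ ⟨x, rfl⟩
  refine ⟨fun i => (bs.repr φ i) • x, ?_⟩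
  rw [hp, hsum]
  exact Finset.sum_congr rfl fun i _ => (bs i).map_smul_of_tower (bs.repr φ i) x

omit [Module.Finite K A] in
theorem van_pow {f : Cpx K A} {L : FMod K A} (h : Van f L) (n : ℕ) : Van f (L.pow n) := by
  intro g
  choose φ hφ using fun i : Fin n => h ((LinearMap.proj i : (Fin n → L) →ₗ[A] L) ∘ₗ g)
  refine ⟨LinearMap.pi φ, ?_⟩
  refine LinearMap.ext fun x => ?_
  funext i
  exact LinearMap.congr_fun (hφ i) x

omit [Module.Finite K A] in
theorem van_of_fac {f : Cpx K A} {V Y : FMod K A} (h : Van f V) (hf : Fac V Y) : Van f Y := by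
  obtain ⟨n, p, hp⟩ := hf
  exact (van_pow h n).of_surjective (L := V.pow n) (M := Y) p hp

/-- If `V` is τ-rigid and `Y` is arbitrary then `Y` is generated by `V` or has a nonzero quotient
`Z` with `Hom(V, Z) = 0`. -/
theorem fac_of_perp {V : FMod K A} (m : MinPres V) (hr : NoTauHom m.f V) (Y : FMod K A)
    (hY : ∀ Z : FMod K A, Hom0 V Z → Hom0 Y Z) : Fac V Y := by
  obtain ⟨n, p, hp⟩ := exists_trace V Y
  refine ⟨n, p, ?_⟩
  obtain ⟨q, hq⟩ := m.exists_map
  let e := LinearEquiv.ofBijective q hq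
  have hV : Van m.f V := (van_iff_hom_tau m.f V).2 hr
  let N : FMod K A := Y.sub (LinearMap.range p)
  have hN : Fac V N := ⟨n, p.rangeRestrict, p.surjective_rangeRestrict⟩
  have hee : ee m.f N = 0 := (van_iff_ee _ _).1 (van_of_fac hV hN)
  have hses := ses_sub Y (LinearMap.range p)
  have h0 : Hom0 V (Y.quo (LinearMap.range p)) := by
    intro φ
    obtain ⟨ψ, hψ⟩ := (all_LFT K A m.f _ _ _ _ _ hses).1 hee (φ ∘ₗ q)
    have h1 : (LinearMap.range p).mkQ ∘ₗ (ψ ∘ₗ e.symm.toLinearMap) = φ := by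
      rw [← LinearMap.comp_assoc, hψ]
      refine LinearMap.ext fun x => ?_
      exact congrArg φ (e.apply_symm_apply x)
    rw [← h1]
    refine LinearMap.ext fun x => ?_
    change (LinearMap.range p).mkQ (ψ (e.symm x)) = 0
    rw [Submodule.mkQ_apply, Submodule.Quotient.mk_eq_zero]
    exact hp (ψ ∘ₗ e.symm.toLinearMap) ⟨x, rfl⟩
  have h2 := hY _ h0 (LinearMap.range p).mkQ
  intro y
  have h3 : (LinearMap.range p).mkQ y = 0 := LinearMap.congr_fun h2 y
  rw [Submodule.mkQ_apply, Submodule.Quotient.mk_eq_zero] at h3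
  exact h3

/-- `T(M) = Fac V` for a τ-rigid module `V`; perpendicular form -/
theorem exists_fac (hZ : ∀ x ∈ K0 K A, ∃ t : TRPair K A, ∀ L, gvec t L = x L) (M : FMod K A) :
    ∃ t : TRPair K A, ∀ Y : FMod K A, (∀ Z : FMod K A, Hom0 M Z → Hom0 Y Z) ↔ Fac t.V Y := by
  obtain ⟨g, hg, hgM⟩ := all_FFF K A (lr_of_pairs hZ) M
  obtain ⟨t, ht⟩ := hZ _ (cls_mem_K0 g)
  have hc : ∀ L, cls t.cpx L = cls g L := fun L => (t.cls_cpx L).trans (ht L)
  have hhe : ∀ L, hh t.cpx L = hh g L := fun L =>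
    le_antisymm (hh_le t.rigid_cpx hc L) (hh_le hg.1 (fun L => (hc L).symm) L)
  obtain ⟨hom1, -⟩ := all_HOM K A
  obtain ⟨p, hp⟩ := t.m.exists_map
  let e := LinearEquiv.ofBijective p hp
  -- `hh t.cpx Z = 0` if and only if `Hom(V, Z) = 0`
  have hV : ∀ Z, hh t.cpx Z = 0 ↔ Hom0 t.V Z := by
    intro Z
    have h1 : hh t.cpx Z = hh t.m.f Z + hh (Cpx.shift t.P t.projP) Z := hh_sum _ _ Z
    have h2 : hh (Cpx.shift t.P t.projP) Z = 0 := by
      rw [hom1]
      exact hom0_left (subsingleton_shift_H t.P t.projP)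
    rw [h1, h2, Nat.add_zero, hom1]
    constructor
    · exact fun h => h.of_surj p hp.2
    · exact fun h => h.of_surj e.symm.toLinearMap e.symm.surjective
  have hVM : ∀ Z, Hom0 M Z ↔ Hom0 t.V Z := fun Z => by rw [← hgM, ← hhe, hV]
  refine ⟨t, fun Y => ⟨fun h => ?_, ?_⟩⟩
  · exact fac_of_perp t.m t.rigid Y fun Z hZ' => h Z ((hVM Z).2 hZ')
  · rintro ⟨n, q, hq⟩ Z hZ'
    rw [hVM] at hZ'
    intro φ
    have h1 : φ ∘ₗ q = 0 := by
      refine LinearMap.pi_ext' fun i => ?_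
      rw [LinearMap.comp_assoc]
      rw [LinearMap.zero_comp]
      have := hZ' (φ ∘ₗ (q ∘ₗ LinearMap.single A (fun _ : Fin n => (t.V : Type)) i))
      exact this
    refine LinearMap.ext fun y => ?_
    obtain ⟨x, rfl⟩ := hq y
    exact LinearMap.congr_fun h1 x

/-- the smallest torsion class containing a module, in terms of perpendicular classes -/
theorem tors_iff_perp (M Y : FMod K A) :
    (∀ T : FMod K A → Prop, TorsCls T → T M → T Y) ↔
      ∀ Z : FMod K A, Hom0 M Z → Hom0 Y Z := by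
  constructor
  · intro h Z hZ
    exact h (fun Y => ∀ Z, Hom0 M Z → Hom0 Y Z) ((all_CLO K A).2.2.2.1 (fun Z => Hom0 M Z))
      (fun _ h => h) Z hZ
  · intro h T hT hM
    obtain ⟨N, Q, i, p, hs, hN, hQ⟩ := (all_RAD K A).1 T hT Y
    have h1 : Hom0 M Q := hQ M hM
    have h2 := h Q h1 p
    refine hT.quo N Y i (fun y => ?_) hN
    exact hs.exists_of_zero (LinearMap.congr_fun h2 y)

end

end Dem
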