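import Pool.Agent.H5.SBC.FIT
import Pool.Agent.H5.SBC.NSR
import Pool.Agent.H3.Dem.Torsion

/-!
Every rigid two-term complex is, up to contractible direct summands, the complex of a τ-rigid pair.
-/

namespace Dem

open SBC

section

variable {K A : Type} [Field K] [Ring A] [Algebra K A]

/-- numbers of the complex `P → 0` -/
theorem hh_shift (P : FMod K A) (hP : Module.Projective A P) (L : FMod K A) :
    hh (Cpx.shift P hP) L = 0 := by
  unfold hh
  have : Subsingleton (LinearMap.ker (pull (Cpx.shift P hP) L)) := by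
    refine ⟨fun a b => Subtype.ext (LinearMap.ext fun x => ?_)⟩
    have : x = 0 := Subsingleton.elim (α := PUnit) x 0
    rw [this, map_zero, map_zero]
  exact Module.finrank_zero_of_subsingleton

theorem ee_shift (P : FMod K A) (hP : Module.Projective A P) (L : FMod K A) :
    ee (Cpx.shift P hP) L = hd P L := by
  have h1 := hh_sub_ee (Cpx.shift P hP) L
  rw [hh_shift, cls_shift] at h1
  omega

/-- a complex with bijective differential is contractible -/
theorem hh_of_bij (f : Cpx K A) (h : Function.Bijective f.d) (L : FMod K A) : hh f L = 0 := by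
  unfold hh
  have : Subsingleton (LinearMap.ker (pull f L)) := by
    refine ⟨fun a b => Subtype.ext (LinearMap.ext fun x => ?_)⟩
    obtain ⟨y, rfl⟩ := h.2 x
    exact (LinearMap.congr_fun a.2 y).trans (LinearMap.congr_fun b.2 y).symm
  exact Module.finrank_zero_of_subsingleton

theorem ee_of_bij (f : Cpx K A) (h : Function.Bijective f.d) (L : FMod K A) : ee f L = 0 := by
  rw [← van_iff_ee]
  intro g
  let e := LinearEquiv.ofBijective f.d h
  refine ⟨g ∘ₗ e.symm.toLinearMap, ?_⟩
  refine LinearMap.ext fun x => ?_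
  exact congrArg g (e.symm_apply_apply x)

theorem pow_comm_apply {M : FMod K A} (u : Module.End A M) (n : ℕ) (x : M) :
    (u ^ (n + 1)) x = (u ^ n) (u x) := by
  rw [pow_succ]
  rfl

/-- splitting off a contractible summand -/
theorem split_contractible (f : Cpx K A) (s : f.P0 →ₗ[A] f.P1) (N : Submodule A f.P0)
    (hN : N ≠ ⊤) (hs : ∀ x, N.mkQ (f.d (s x)) = N.mkQ x) :
    ∃ f' f'' : Cpx K A, NSplit f f' f'' ∧ (∀ L, hh f'' L = 0) ∧ (∀ L, ee f'' L = 0) ∧
      0 < size f'' := by
  have n1 := fit_noeth f.P1
  have n0 := fit_noeth f.P0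
  have a1 := fit_artin f.P1
  have a0 := fit_artin f.P0
  let u1 : Module.End A f.P1 := s ∘ₗ f.d
  let u0 : Module.End A f.P0 := f.d ∘ₗ s
  have hu : ∀ x, f.d (u1 x) = u0 (f.d x) := fun x => rfl
  have e1 := LinearMap.eventually_isCompl_ker_pow_range_pow (R := A) (M := f.P1) u1
  have e0 := LinearMap.eventually_isCompl_ker_pow_range_pow (R := A) (M := f.P0) u0
  obtain ⟨n, ⟨hn1, hn0⟩, hnp⟩ := ((e1.and e0).and (Filter.eventually_ge_atTop 1)).exists
  obtain ⟨m, rfl⟩ : ∃ m, n = m + 1 := ⟨n - 1, by omega⟩
  have c1 : ∀ x ∈ LinearMap.range (u1 ^ (m + 1) : Module.End A f.P1),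
      f.d x ∈ LinearMap.range (u0 ^ (m + 1) : Module.End A f.P0) := by
    rintro _ ⟨x, rfl⟩
    exact ⟨f.d x, (fit_pow f u1 u0 hu (m + 1) x).symm⟩
  have c2 : ∀ x ∈ LinearMap.ker (u1 ^ (m + 1) : Module.End A f.P1),
      f.d x ∈ LinearMap.ker (u0 ^ (m + 1) : Module.End A f.P0) := by
    intro x hx
    rw [LinearMap.mem_ker] at hx ⊢
    rw [← fit_pow f u1 u0 hu (m + 1) x, hx, map_zero]
  have hsp := fitSub_split f _ _ _ _ hn1 hn0 c2 c1
  have hcs : ∀ (k : ℕ) (x : f.P0), s ((u0 ^ k) x) = (u1 ^ k) (s x) := by
    intro k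
    induction k with
    | zero => intro x; rfl
    | succ k ih =>
      intro x
      rw [pow_comm_apply, pow_comm_apply, ih]
      rfl
  have hbij : Function.Bijective (fitSub f _ _ _ _ hn1.symm hn0.symm c1).d := by
    constructor
    · rw [injective_iff_map_eq_zero]
      rintro ⟨x, hx⟩ h0
      have h3 : f.d x = 0 := congrArg Subtype.val h0
      have h4 : x ∈ LinearMap.ker (u1 ^ (m + 1) : Module.End A f.P1) := by
        rw [LinearMap.mem_ker, pow_comm_apply]
        change (u1 ^ m) (s (f.d x)) = 0
        rw [h3, map_zero, map_zero]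
      have h5 : x ∈ (⊥ : Submodule A f.P1) := hn1.disjoint.le_bot ⟨h4, hx⟩
      exact Subtype.ext h5
    · rintro ⟨y, ⟨z, rfl⟩⟩
      have hz : z ∈ LinearMap.ker (u0 ^ (m + 1) : Module.End A f.P0) ⊔
          LinearMap.range (u0 ^ (m + 1) : Module.End A f.P0) := by
        rw [hn0.sup_eq_top]
        exact Submodule.mem_top
      obtain ⟨k, hk, _, ⟨w, rfl⟩, rfl⟩ := Submodule.mem_sup.1 hz
      rw [LinearMap.mem_ker] at hk
      refine ⟨⟨(u1 ^ (m + 1)) (s ((u0 ^ m) w)), ⟨_, rfl⟩⟩, ?_⟩
      apply Subtype.ext
      change f.d ((u1 ^ (m + 1)) (s ((u0 ^ m) w))) = (u0 ^ (m + 1)) (k + (u0 ^ (m + 1)) w)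
      rw [fit_pow f u1 u0 hu, map_add, hk, zero_add]
      congr 1
      rw [pow_succ']
      rfl
  refine ⟨_, _, hsp, hh_of_bij _ hbij, ee_of_bij _ hbij, ?_⟩
  have hz : LinearMap.range (u0 ^ (m + 1) : Module.End A f.P0) ≠ ⊥ := by
    intro hz
    apply hN
    rw [eq_top_iff]
    intro x _
    have h1 : ∀ k : ℕ, ∀ x, N.mkQ ((u0 ^ k) x) = N.mkQ x := by
      intro k
      induction k with
      | zero => intro x; rfl
      | succ k ih =>
        intro x
        rw [pow_comm_apply, ih]
        exact hs x
    have h2 : (u0 ^ (m + 1)) x = 0 := by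
      have : (u0 ^ (m + 1)) x ∈ LinearMap.range (u0 ^ (m + 1) : Module.End A f.P0) := ⟨x, rfl⟩
      rw [hz] at this
      exact this
    have h3 := h1 (m + 1) x
    rw [h2, map_zero] at h3
    rw [← Submodule.Quotient.mk_eq_zero, ← Submodule.mkQ_apply]
    exact h3.symm
  have : Nontrivial (LinearMap.range (u0 ^ (m + 1) : Module.End A f.P0)) :=
    Submodule.nontrivial_iff_ne_bot.2 hz
  have h3 : 0 < Module.finrank K (LinearMap.range (u0 ^ (m + 1) : Module.End A f.P0)) :=
    Module.finrank_pos
  exact Nat.lt_of_lt_of_le h3 (Nat.le_add_right _ _)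

/-- splitting off a summand `Q → 0` -/
theorem split_shift (f : Cpx K A) (s : f.P1 →ₗ[A] f.P1) (N : Submodule A f.P1)
    (hN : N ≠ ⊤) (hs : ∀ x, N.mkQ (s x) = N.mkQ x) (hd0 : ∀ x, f.d (s x) = 0) :
    ∃ (f' : Cpx K A) (Q : FMod K A) (_ : Module.Projective A Q),
      (∀ L, hh f L = hh f' L) ∧ (∀ L, ee f L = ee f' L + hd Q L) ∧ size f' < size f ∧
      ∃ f'', NSplit f f' f'' ∧ ∀ L, ee f'' L = hd Q L := by
  have n1 := fit_noeth f.P1
  have a1 := fit_artin f.P1
  let u1 : Module.End A f.P1 := s
  have e1 := LinearMap.eventually_isCompl_ker_pow_range_pow (R := A) (M := f.P1) u1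
  obtain ⟨n, hn1, hnp⟩ := (e1.and (Filter.eventually_ge_atTop 1)).exists
  obtain ⟨m, rfl⟩ : ∃ m, n = m + 1 := ⟨n - 1, by omega⟩
  have c1 : ∀ x ∈ LinearMap.range (u1 ^ (m + 1) : Module.End A f.P1),
      f.d x ∈ (⊥ : Submodule A f.P0) := by
    rintro _ ⟨x, rfl⟩
    rw [Submodule.mem_bot, pow_succ']
    exact hd0 _
  have c2 : ∀ x ∈ LinearMap.ker (u1 ^ (m + 1) : Module.End A f.P1),
      f.d x ∈ (⊤ : Submodule A f.P0) := fun x _ => Submodule.mem_top
  have hc : IsCompl (⊤ : Submodule A f.P0) ⊥ := isCompl_top_bot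
  have hsp := fitSub_split f _ _ _ _ hn1 hc c2 c1
  set f'' := fitSub f _ _ _ _ hn1.symm hc.symm c1 with hf''
  set f' := fitSub f _ _ _ _ hn1 hc c2 with hf'
  have hh0 : ∀ L, hh f'' L = 0 := by
    intro L
    unfold hh
    have : Subsingleton (LinearMap.ker (pull f'' L)) := by
      refine ⟨fun a b => Subtype.ext (LinearMap.ext fun x => ?_)⟩
      have : x = 0 := Subsingleton.elim (α := (⊥ : Submodule A f.P0)) x 0
      rw [this, map_zero, map_zero]
    exact Module.finrank_zero_of_subsingleton
  have hee : ∀ L, ee f'' L = hd f''.P1 L := by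
    intro L
    have h1 := hh_sub_ee f'' L
    have h2 : hd f''.P0 L = 0 := by
      unfold hd
      have : Subsingleton (f''.P0 →ₗ[A] L) := by
        refine ⟨fun a b => LinearMap.ext fun x => ?_⟩
        have : x = 0 := Subsingleton.elim (α := (⊥ : Submodule A f.P0)) x 0
        rw [this, map_zero, map_zero]
      exact Module.finrank_zero_of_subsingleton
    unfold cls at h1
    rw [hh0, h2] at h1
    omega
  refine ⟨f', f''.P1, f''.proj1, fun L => ?_, fun L => ?_, ?_, f'', hsp, hee⟩
  · rw [hsp.hh_eq, hh0, add_zero]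
  · rw [hsp.ee_eq, hee]
  · rw [hsp.size_eq]
    have hz : LinearMap.range (u1 ^ (m + 1) : Module.End A f.P1) ≠ ⊥ := by
      intro hz
      apply hN
      rw [eq_top_iff]
      intro x _
      have h1 : ∀ k : ℕ, ∀ x, N.mkQ ((u1 ^ k) x) = N.mkQ x := by
        intro k
        induction k with
        | zero => intro x; rfl
        | succ k ih =>
          intro x
          rw [pow_comm_apply, ih]
          exact hs x
      have h2 : (u1 ^ (m + 1)) x = 0 := by
        have : (u1 ^ (m + 1)) x ∈ LinearMap.range (u1 ^ (m + 1) : Module.End A f.P1) := ⟨x, rfl⟩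
        rw [hz] at this
        exact this
      have h3 := h1 (m + 1) x
      rw [h2, map_zero] at h3
      rw [← Submodule.Quotient.mk_eq_zero, ← Submodule.mkQ_apply]
      exact h3.symm
    have : Nontrivial (LinearMap.range (u1 ^ (m + 1) : Module.End A f.P1)) :=
      Submodule.nontrivial_iff_ne_bot.2 hz
    have h3 : 0 < Module.finrank K (LinearMap.range (u1 ^ (m + 1) : Module.End A f.P1)) :=
      Module.finrank_pos
    have h4 : 0 < size f'' := Nat.lt_of_lt_of_le h3 (Nat.le_add_left _ _)
    omega

variable [Module.Finite K A]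

theorem rigid_of_nsplit {f f' f'' : Cpx K A} (hf : f.Rigid) (h : NSplit f f' f'') : f'.Rigid := by
  have hN := (sbc_NSR K A (all_HOM K A)).1 f f f' f'' ((rigid_sum_iff f f).2 ⟨⟨hf, hf⟩, ⟨hf, hf⟩⟩) h
  exact ((rigid_sum_iff f f').1 hN).2.2

/-- a τ-rigid pair with the same numbers -/
theorem pair_aux : ∀ (n : ℕ) (f : Cpx K A), size f < n → f.Rigid →
    ∃ t : TRPair K A, ∀ L, hh t.cpx L = hh f L ∧ ee t.cpx L = ee f L := by
  intro n
  induction n with
  | zero => intro f hf; omega
  | succ n ih =>
    intro f hsz hf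
    by_cases h0 : Superfluous (LinearMap.ker (LinearMap.range f.d).mkQ)
    · by_cases h1 : Superfluous (LinearMap.ker f.d)
      · -- minimal presentation
        let m : MinPres f.H :=
          { f := f
            π := (LinearMap.range f.d).mkQ
            surj := (LinearMap.range f.d).mkQ_surjective
            exact := by
              rw [LinearMap.exact_iff, Submodule.ker_mkQ]
            min0 := h0
            min1 := h1 }
        refine ⟨⟨f.H, FMod.zero, (inferInstance : Module.Projective A PUnit), m,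
          (van_iff_hom_tau f f.H).1 hf, fun φ => ?_⟩, fun L => ?_⟩
        · refine LinearMap.ext fun x => ?_
          have : x = 0 := Subsingleton.elim (α := PUnit) x 0
          rw [this, map_zero, map_zero]
        · constructor
          · unfold TRPair.cpx
            rw [hh_sum, hh_shift, add_zero]
          · unfold TRPair.cpx
            rw [ee_sum, ee_shift, hd_zero_left, add_zero]
      · unfold Superfluous at h1
        push Not at h1
        obtain ⟨N, hN1, hN⟩ := h1
        have p1 := f.proj1
        have hsurj : Function.Surjective (N.mkQ ∘ₗ (LinearMap.ker f.d).subtype) := by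
          intro y
          obtain ⟨x, rfl⟩ := N.mkQ_surjective y
          have hx : x ∈ N ⊔ LinearMap.ker f.d := by rw [hN1]; trivial
          obtain ⟨a, ha, b, hb, rfl⟩ := Submodule.mem_sup.1 hx
          refine ⟨⟨b, hb⟩, ?_⟩
          rw [map_add]
          have : N.mkQ a = 0 := by
            rw [Submodule.mkQ_apply, Submodule.Quotient.mk_eq_zero]
            exact ha
          rw [this, zero_add]
          rfl
        obtain ⟨s', hs'⟩ := Module.projective_lifting_property _ N.mkQ hsurj
        obtain ⟨f', Q, hQ, e1, e2, e3, f'', e4, e5⟩ := split_shift f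
          ((LinearMap.ker f.d).subtype ∘ₗ s') N hN
          (fun x => LinearMap.congr_fun hs' x) (fun x => (s' x).2)
        have hf' : f'.Rigid := rigid_of_nsplit hf e4
        obtain ⟨t, ht⟩ := ih f' (by omega) hf'
        -- `V` is generated by `f.H`
        have hV : Van f t.V := by
          have htr : tr f t.V = ⊤ := by
            obtain ⟨q, hq⟩ := t.m.exists_map
            let e := LinearEquiv.ofBijective q hq
            have h2 : hh t.cpx (t.V.sub (tr f t.V)) = hh t.cpx t.V := by
              rw [(ht _).1, (ht _).1, ← e1, ← e1]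
              exact hh_tr f t.V
            have h3 := (hh_sub_eq_iff t.cpx t.V (tr f t.V)).1 h2
            rw [eq_top_iff]
            intro v _
            let φ : t.cpx.P0 →ₗ[A] t.V := t.m.π ∘ₗ LinearMap.fst A t.m.f.P0 FMod.zero
            have hφ : φ ∘ₗ t.cpx.d = 0 := by
              refine LinearMap.ext fun x => ?_
              change t.m.π (t.m.f.d x.1) = 0
              exact t.m.exact.apply_apply_eq_zero x.1
            obtain ⟨y, hy⟩ := t.m.surj v
            have h4 := h3 φ hφ ⟨(y, 0), rfl⟩
            have h5 : φ (y, 0) = v := hy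
            rw [h5] at h4
            exact h4
          have h6 := van_tr hf t.V
          rw [htr] at h6
          exact h6.of_surjective (⊤ : Submodule A t.V).subtype (by
            intro v
            exact ⟨⟨v, trivial⟩, rfl⟩)
        have hQV : hd Q t.V = 0 := by
          have h7 := (van_iff_ee f t.V).1 hV
          rw [e2] at h7
          omega
        have hQ0 : ∀ φ : Q →ₗ[A] t.V, φ = 0 := by
          intro φ
          unfold hd at hQV
          have := Module.finrank_zero_iff.1 hQV
          exact Subsingleton.elim _ _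
        refine ⟨⟨t.V, t.P.prod Q, ?_, t.m, t.rigid, ?_⟩, fun L => ?_⟩
        · have := t.projP
          exact (inferInstance : Module.Projective A (t.P × Q))
        · intro φ
          refine LinearMap.ext fun x => ?_
          have h8 := LinearMap.congr_fun (t.hom (φ ∘ₗ LinearMap.inl A t.P Q)) x.1
          have h9 := LinearMap.congr_fun (hQ0 (φ ∘ₗ LinearMap.inr A t.P Q)) x.2
          have hx : x = (x.1, 0) + (0, x.2) :=
            (Prod.ext (add_zero _) (zero_add _) : _ = x).symm
          have h10 : φ (x.1, 0) = 0 := h8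
          have h11 : φ (0, x.2) = 0 := h9
          have e5' : φ x = φ (x.1, 0) + φ (0, x.2) := by
            conv_lhs => rw [hx]
            exact map_add φ _ _
          rw [e5', h10, h11, add_zero]
          rfl
        · have h12 := ht L
          unfold TRPair.cpx at h12 ⊢
          rw [hh_sum, ee_sum, hh_shift, ee_shift] at h12
          rw [hh_sum, ee_sum, hh_shift, ee_shift, e1, e2, hd_prod]
          obtain ⟨h13, h14⟩ := h12
          constructor
          · exact h13
          · rw [← h14]
            ring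
    · unfold Superfluous at h0
      push Not at h0
      obtain ⟨N, hN1, hN⟩ := h0
      have p0 := f.proj0
      have hsurj : Function.Surjective (N.mkQ ∘ₗ f.d) := by
        intro y
        obtain ⟨x, rfl⟩ := N.mkQ_surjective y
        have hx : x ∈ N ⊔ LinearMap.range f.d := by
          have : LinearMap.ker (LinearMap.range f.d).mkQ = LinearMap.range f.d :=
            Submodule.ker_mkQ _
          rw [this] at hN1
          rw [hN1]; trivial
        obtain ⟨a, ha, _, ⟨b, rfl⟩, rfl⟩ := Submodule.mem_sup.1 hx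
        refine ⟨b, ?_⟩
        rw [map_add]
        have : N.mkQ a = 0 := by
          rw [Submodule.mkQ_apply, Submodule.Quotient.mk_eq_zero]
          exact ha
        rw [this, zero_add]
        rfl
      obtain ⟨s, hs⟩ := Module.projective_lifting_property _ N.mkQ hsurj
      obtain ⟨f', f'', e1, e2, e3, e4⟩ := split_contractible f s N hN
        (fun x => LinearMap.congr_fun hs x)
      have hf' : f'.Rigid := rigid_of_nsplit hf e1
      have h5 := e1.size_eq
      obtain ⟨t, ht⟩ := ih f' (by omega) hf'
      refine ⟨t, fun L => ?_⟩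
      rw [(ht L).1, (ht L).2, e1.hh_eq, e1.ee_eq, e2, e3, add_zero, add_zero]
      exact ⟨rfl, rfl⟩

/-- the class of a rigid complex is the `g`-vector of a τ-rigid pair -/
theorem pair_of_rigid (f : Cpx K A) (hf : f.Rigid) : ∃ t : TRPair K A, ∀ L, gvec t L = cls f L := by
  obtain ⟨t, ht⟩ := pair_aux (size f + 1) f (Nat.lt_succ_self _) hf
  refine ⟨t, fun L => ?_⟩
  rw [← t.cls_cpx, ← hh_sub_ee, ← hh_sub_ee, (ht L).1, (ht L).2]

end

end Dem
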