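import Pool.Agent.H3.Dem.Pairs

/-!
Assembly: if all lattice points are `g`-vectors of τ-rigid pairs, then every rational plane is
covered by finitely many cones; with at most two simple modules the algebra is τ-tilting finite.
-/

universe u

namespace Dem

variable {K A : Type u} [Field K] [Ring A] [Algebra K A] [Module.Finite K A]

/-- a complex coming from a τ-rigid pair -/
def FromPair (X : Cpx K A) : Prop := ∃ t : TRPair K A, t.cpx = X

/-- the quadrant version for lattice vectors -/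
lemma quadrant (hZ : ∀ x ∈ K0 K A, ∃ t : TRPair K A, ∀ L, gvec t L = x L)
    {x y : FMod K A → ℤ} (hx : x ∈ K0 K A) (hy : y ∈ K0 K A) :
    ∃ S : List (Cpx K A × Cpx K A), (∀ p ∈ S, (p.1.sum p.2).Rigid ∧ FromPair p.1 ∧ FromPair p.2) ∧
      ∀ α β : ℝ, 0 ≤ α → 0 ≤ β → ∃ p ∈ S, ∃ α' β' : ℝ, 0 ≤ α' ∧ 0 ≤ β' ∧
        (∀ L, α * (x L : ℝ) + β * (y L : ℝ) = α' * (cls p.1 L : ℝ) + β' * (cls p.2 L : ℝ)) ∧
        ((∃ a b : ℕ, α = a ∧ β = b) → ∃ a b : ℕ, α' = a ∧ β' = b) := by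
  obtain ⟨t, ht⟩ := hZ x hx
  obtain ⟨s, hs⟩ := hZ y hy
  have hU : ∀ L, cls t.cpx L = x L := fun L => by rw [t.cls_cpx, ht]
  have hV : ∀ L, cls s.cpx L = y L := fun L => by rw [s.cls_cpx, hs]
  obtain ⟨S, hS, hcov⟩ := chain (FromPair (K := K) (A := A))
    (fun X ⟨r, hr⟩ => hr ▸ r.rigid_cpx) (kap t.cpx s.cpx) t.cpx s.cpx ⟨t, rfl⟩ ⟨s, rfl⟩
    (fun a b => by
      have hmem : (a : ℤ) • x + (b : ℤ) • y ∈ K0 K A :=
        (K0 K A).add_mem ((K0 K A).zsmul_mem hx a) ((K0 K A).zsmul_mem hy b)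
      obtain ⟨r, hr⟩ := hZ _ hmem
      refine ⟨r.cpx, ⟨r, rfl⟩, fun L => ?_⟩
      rw [r.cls_cpx, hr, hU, hV]
      simp) le_rfl
  refine ⟨S, hS, fun α β hα hβ => ?_⟩
  obtain ⟨p, hp, α', β', h1, h2, h3, h4⟩ := hcov α β hα hβ
  refine ⟨p, hp, α', β', h1, h2, fun L => ?_, h4⟩
  rw [← hU, ← hV]
  exact h3 L

/-- all four quadrants together -/
lemma plane (hZ : ∀ x ∈ K0 K A, ∃ t : TRPair K A, ∀ L, gvec t L = x L)
    {x y : FMod K A → ℤ} (hx : x ∈ K0 K A) (hy : y ∈ K0 K A) :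
    ∃ S : List (Cpx K A × Cpx K A), (∀ p ∈ S, (p.1.sum p.2).Rigid ∧ FromPair p.1 ∧ FromPair p.2) ∧
      ∀ α β : ℝ, ∃ p ∈ S, ∃ α' β' : ℝ, 0 ≤ α' ∧ 0 ≤ β' ∧
        (∀ L, α * (x L : ℝ) + β * (y L : ℝ) = α' * (cls p.1 L : ℝ) + β' * (cls p.2 L : ℝ)) ∧
        ((∃ a b : ℤ, α = a ∧ β = b) → ∃ a b : ℕ, α' = a ∧ β' = b) := by
  have hx' : -x ∈ K0 K A := (K0 K A).neg_mem hx
  have hy' : -y ∈ K0 K A := (K0 K A).neg_mem hy
  obtain ⟨S1, h1, c1⟩ := quadrant hZ hx hy
  obtain ⟨S2, h2, c2⟩ := quadrant hZ hx hy'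
  obtain ⟨S3, h3, c3⟩ := quadrant hZ hx' hy
  obtain ⟨S4, h4, c4⟩ := quadrant hZ hx' hy'
  have toNat : ∀ {a : ℤ}, 0 ≤ (a : ℝ) → ∃ n : ℕ, (a : ℝ) = n := fun {a} h => by
    have h' : (0 : ℤ) ≤ a := by exact_mod_cast h
    obtain ⟨n, rfl⟩ := Int.eq_ofNat_of_zero_le h'
    exact ⟨n, by push_cast; rfl⟩
  refine ⟨S1 ++ S2 ++ S3 ++ S4, ?_, ?_⟩
  · intro p hp
    simp only [List.mem_append] at hp
    rcases hp with ((h | h) | h) | h
    · exact h1 p h
    · exact h2 p h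
    · exact h3 p h
    · exact h4 p h
  · intro α β
    rcases le_total 0 α with hα | hα <;> rcases le_total 0 β with hβ | hβ
    · obtain ⟨p, hp, α', β', e1, e2, e3, e4⟩ := c1 α β hα hβ
      refine ⟨p, by simp [hp], α', β', e1, e2, e3, ?_⟩
      rintro ⟨a, b, rfl, rfl⟩
      obtain ⟨n, hn⟩ := toNat hα
      obtain ⟨m, hm⟩ := toNat hβ
      exact e4 ⟨n, m, hn, hm⟩
    · obtain ⟨p, hp, α', β', e1, e2, e3, e4⟩ := c2 α (-β) hα (by linarith)
      refine ⟨p, by simp [hp], α', β', e1, e2, fun L => ?_, ?_⟩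
      · rw [← e3 L]
        simp
      · rintro ⟨a, b, rfl, rfl⟩
        obtain ⟨n, hn⟩ := toNat hα
        obtain ⟨m, hm⟩ := toNat (a := -b) (by push_cast; linarith)
        exact e4 ⟨n, m, hn, by rw [← hm]; push_cast; rfl⟩
    · obtain ⟨p, hp, α', β', e1, e2, e3, e4⟩ := c3 (-α) β (by linarith) hβ
      refine ⟨p, by simp [hp], α', β', e1, e2, fun L => ?_, ?_⟩
      · rw [← e3 L]
        simp
      · rintro ⟨a, b, rfl, rfl⟩
        obtain ⟨n, hn⟩ := toNat (a := -a) (by push_cast; linarith)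
        obtain ⟨m, hm⟩ := toNat hβ
        exact e4 ⟨n, m, by rw [← hn]; push_cast; rfl, hm⟩
    · obtain ⟨p, hp, α', β', e1, e2, e3, e4⟩ := c4 (-α) (-β) (by linarith) (by linarith)
      refine ⟨p, by simp [hp], α', β', e1, e2, fun L => ?_, ?_⟩
      · rw [← e3 L]
        simp
      · rintro ⟨a, b, rfl, rfl⟩
        obtain ⟨n, hn⟩ := toNat (a := -a) (by push_cast; linarith)
        obtain ⟨m, hm⟩ := toNat (a := -b) (by push_cast; linarith)
        exact e4 ⟨n, m, by rw [← hn]; push_cast; rfl, by rw [← hm]; push_cast; rfl⟩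

/-- **Rational planes.** -/
theorem planes (hZ : ∀ x ∈ K0 K A, ∃ t : TRPair K A, ∀ L, gvec t L = x L)
    {x y : FMod K A → ℤ} (hx : x ∈ K0 K A) (hy : y ∈ K0 K A) :
    ∃ S : List (TRPair K A), ∀ α β : ℝ, ∃ t ∈ S,
      InCone t (fun L => α * (x L : ℝ) + β * (y L : ℝ)) := by
  classical
  obtain ⟨S, hS, hcov⟩ := plane hZ hx hy
  have hex : ∀ p : {p // p ∈ S}, ∃ r : TRPair K A, ∃ t s : TRPair K A, t.cpx = p.1.1 ∧
      s.cpx = p.1.2 ∧ IsSummand t r ∧ IsSummand s r := by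
    rintro ⟨p, hp⟩
    obtain ⟨h1, ⟨t, ht⟩, ⟨s, hs⟩⟩ := hS p hp
    rw [← ht, ← hs] at h1
    obtain ⟨r, hr1, hr2⟩ := exists_pair_sum t s h1
    exact ⟨r, t, s, ht, hs, hr1, hr2⟩
  choose r t s ht hs hr1 hr2 using hex
  refine ⟨S.attach.map r, fun α β => ?_⟩
  obtain ⟨p, hp, α', β', h1, h2, h3, -⟩ := hcov α β
  refine ⟨r ⟨p, hp⟩, List.mem_map.2 ⟨⟨p, hp⟩, List.mem_attach _ _, rfl⟩, 2,
    ![t ⟨p, hp⟩, s ⟨p, hp⟩], ![α', β'], ?_, ?_, fun L => ?_⟩
  · intro i
    fin_cases i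
    · exact hr1 ⟨p, hp⟩
    · exact hr2 ⟨p, hp⟩
  · intro i
    fin_cases i
    · exact h1
    · exact h2
  · refine (h3 L).trans ?_
    rw [Fin.sum_univ_two]
    change _ = α' * (gvec (t ⟨p, hp⟩) L : ℝ) + β' * (gvec (s ⟨p, hp⟩) L : ℝ)
    rw [← (t ⟨p, hp⟩).cls_cpx, ← (s ⟨p, hp⟩).cls_cpx, ht, hs]

/-! ### at most two simple modules -/

omit [Module.Finite K A] in
lemma hd_congr_right (P : FMod K A) {L M : FMod K A} (e : L ≃ₗ[A] M) : hd P L = hd P M := by
  unfold hd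
  apply LinearEquiv.finrank_eq
  refine LinearEquiv.ofBijective ({
    toFun := fun φ => e.toLinearMap ∘ₗ φ
    map_add' := fun φ ψ => by
      refine LinearMap.ext fun x => ?_
      exact map_add e _ _
    map_smul' := fun c φ => by
      refine LinearMap.ext fun x => ?_
      exact e.toLinearMap.map_smul_of_tower c (φ x) } : (P →ₗ[A] L) →ₗ[K] (P →ₗ[A] M)) ⟨?_, ?_⟩
  · intro φ ψ h
    refine LinearMap.ext fun x => ?_
    exact e.injective (LinearMap.congr_fun h x)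
  · intro ψ
    refine ⟨e.symm.toLinearMap ∘ₗ ψ, ?_⟩
    refine LinearMap.ext fun x => ?_
    exact e.apply_symm_apply _

omit [Module.Finite K A] in
lemma hd_exact (P : FMod K A) (hP : Module.Projective A P) (L : FMod K A) (N : Submodule A L) :
    hd P L = hd P (L.sub N) + hd P (L.quo N) := by
  let comp : (P →ₗ[A] L) →ₗ[K] (P →ₗ[A] (L.quo N)) :=
    { toFun := fun φ => N.mkQ ∘ₗ φ
      map_add' := fun φ ψ => rfl
      map_smul' := fun c φ => rfl }
  have hsurj : Function.Surjective comp := by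
    intro ψ
    exact Module.projective_lifting_property N.mkQ ψ N.mkQ_surjective
  have h1 := LinearMap.finrank_range_add_finrank_ker comp
  rw [LinearMap.range_eq_top.2 hsurj, finrank_top] at h1
  have h2 : Module.finrank K (LinearMap.ker comp) = hd P (L.sub N) := by
    unfold hd
    symm
    apply LinearEquiv.finrank_eq
    refine LinearEquiv.ofBijective ({
      toFun := fun φ => ⟨N.subtype ∘ₗ φ, ?_⟩
      map_add' := fun _ _ => rfl
      map_smul' := fun _ _ => rfl } : (P →ₗ[A] (L.sub N)) →ₗ[K] LinearMap.ker comp) ⟨?_, ?_⟩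
    · rw [LinearMap.mem_ker]
      refine LinearMap.ext fun x => ?_
      change N.mkQ (φ x : L) = 0
      rw [Submodule.mkQ_apply, Submodule.Quotient.mk_eq_zero]
      exact (φ x).2
    · intro φ ψ hφψ
      refine LinearMap.ext fun x => Subtype.ext ?_
      exact LinearMap.congr_fun (congrArg Subtype.val hφψ) x
    · rintro ⟨φ, hφ⟩
      refine ⟨LinearMap.codRestrict N φ (fun x => ?_), ?_⟩
      · have := LinearMap.congr_fun hφ x
        change N.mkQ (φ x) = 0 at this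
        rwa [Submodule.mkQ_apply, Submodule.Quotient.mk_eq_zero] at this
      · apply Subtype.ext
        rfl
  rw [h2] at h1
  unfold hd at *
  omega

omit [Module.Finite K A] in
lemma K0_exact {x : FMod K A → ℤ} (hx : x ∈ K0 K A) (L : FMod K A) (N : Submodule A L) :
    x L = x (L.sub N) + x (L.quo N) := by
  unfold K0 at hx
  induction hx using AddSubgroup.closure_induction with
  | mem x h =>
    obtain ⟨P, hP, h⟩ := h
    rw [h, h, h, hd_exact P hP L N]
    push_cast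
    ring
  | zero => simp
  | add x y _ _ h1 h2 =>
    simp only [Pi.add_apply]
    rw [h1, h2]
    ring
  | neg x _ h1 =>
    simp only [Pi.neg_apply]
    rw [h1]
    ring

omit [Module.Finite K A] in
lemma K0_congr {x : FMod K A → ℤ} (hx : x ∈ K0 K A) {L M : FMod K A} (e : L ≃ₗ[A] M) :
    x L = x M := by
  unfold K0 at hx
  induction hx using AddSubgroup.closure_induction with
  | mem x h =>
    obtain ⟨P, hP, h⟩ := h
    rw [h, h, hd_congr_right P e]
  | zero => simp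
  | add x y _ _ h1 h2 =>
    simp only [Pi.add_apply]
    rw [h1, h2]
  | neg x _ h1 =>
    simp only [Pi.neg_apply]
    rw [h1]

omit [Module.Finite K A] in
lemma K0_subsingleton {x : FMod K A → ℤ} (hx : x ∈ K0 K A) {L : FMod K A}
    (hL : Subsingleton L) : x L = 0 := by
  unfold K0 at hx
  induction hx using AddSubgroup.closure_induction with
  | mem x h =>
    obtain ⟨P, hP, h⟩ := h
    rw [h]
    have : Subsingleton (P →ₗ[A] L) := ⟨fun a b => LinearMap.ext fun x => Subsingleton.elim _ _⟩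
    unfold hd
    rw [Module.finrank_zero_of_subsingleton]
    rfl
  | zero => simp
  | add x y _ _ h1 h2 =>
    simp only [Pi.add_apply]
    rw [h1, h2, add_zero]
  | neg x _ h1 =>
    simp only [Pi.neg_apply]
    rw [h1, neg_zero]

omit [Module.Finite K A] in
/-- an element of `K₀` is determined by its values at the simple modules -/
lemma K0_eq_zero {x : FMod K A → ℤ} (hx : x ∈ K0 K A)
    (h : ∀ S : FMod K A, IsSimpleModule A S → x S = 0) (n : ℕ) :
    ∀ L : FMod K A, Module.finrank K L ≤ n → x L = 0 := by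
  induction n with
  | zero =>
    intro L hL
    exact K0_subsingleton hx (Module.finrank_zero_iff.1 (by omega : Module.finrank K L = 0))
  | succ n ih =>
    intro L hL
    by_cases hs : Subsingleton L
    · exact K0_subsingleton hx hs
    · have hnt : Nontrivial L := not_subsingleton_iff_nontrivial.1 hs
      have hart : IsArtinian A L := isArtinian_of_tower K inferInstance
      obtain ⟨N, hN⟩ := IsAtomic.exists_atom (Submodule A L)
      have hNs : IsSimpleModule A N := isSimpleModule_iff_isAtom.2 hN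
      have h1 : x (L.sub N) = 0 := h _ hNs
      have hpos : 0 < Module.finrank K N := by
        rw [Module.finrank_pos_iff]
        exact Submodule.nontrivial_iff_ne_bot.2 hN.1
      have h2 : Module.finrank K (L ⧸ N) + Module.finrank K N = Module.finrank K L :=
        Submodule.finrank_quotient_add_finrank (N.restrictScalars K)
      have h3 : x (L.quo N) = 0 := ih _ (by
        change Module.finrank K (L ⧸ N) ≤ n
        omega)
      rw [K0_exact hx L N, h1, h3, add_zero]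

omit [Module.Finite K A] in
/-- if there are at most two simple modules then `K₀` is generated by two elements -/
lemma K0_two (S₁ S₂ : FMod K A)
    (hS : ∀ S : FMod K A, IsSimpleModule A S → Nonempty (S ≃ₗ[A] S₁) ∨ Nonempty (S ≃ₗ[A] S₂)) :
    ∃ u ∈ K0 K A, ∃ v ∈ K0 K A, ∀ x ∈ K0 K A, ∃ a b : ℤ, ∀ L, x L = a * u L + b * v L := by
  have key : ∀ x ∈ K0 K A, x S₁ = 0 → x S₂ = 0 → ∀ L, x L = 0 := by
    intro x hx h1 h2 L
    refine K0_eq_zero hx ?_ _ L le_rfl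
    intro S hSs
    rcases hS S hSs with he | he
    · obtain ⟨e⟩ := he
      rw [K0_congr hx e, h1]
    · obtain ⟨e⟩ := he
      rw [K0_congr hx e, h2]
  -- the values at `S₁`
  let ev1 : (FMod K A → ℤ) →+ ℤ := Pi.evalAddMonoidHom (fun _ => ℤ) S₁
  let ev2 : (FMod K A → ℤ) →+ ℤ := Pi.evalAddMonoidHom (fun _ => ℤ) S₂
  obtain ⟨d, hd⟩ := Int.subgroup_cyclic ((K0 K A).map ev1)
  obtain ⟨e, he⟩ := Int.subgroup_cyclic (((K0 K A) ⊓ ev1.ker).map ev2)
  have hdmem : d ∈ (K0 K A).map ev1 := by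
    rw [hd]
    exact AddSubgroup.subset_closure (Set.mem_singleton d)
  have hemem : e ∈ ((K0 K A) ⊓ ev1.ker).map ev2 := by
    rw [he]
    exact AddSubgroup.subset_closure (Set.mem_singleton e)
  obtain ⟨u, hu, hud⟩ := hdmem
  obtain ⟨v, ⟨hv, hv1⟩, hve⟩ := hemem
  refine ⟨u, hu, v, hv, fun x hx => ?_⟩
  have h1 : ev1 x ∈ (K0 K A).map ev1 := ⟨x, hx, rfl⟩
  rw [hd, AddSubgroup.mem_closure_singleton] at h1
  obtain ⟨a, ha⟩ := h1
  have h2m : x - a • u ∈ (K0 K A) ⊓ ev1.ker := by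
    refine ⟨(K0 K A).sub_mem hx ((K0 K A).zsmul_mem hu a), ?_⟩
    change ev1 (x - a • u) = 0
    rw [map_sub, map_zsmul, hud, ha, sub_self]
  have h2 : ev2 (x - a • u) ∈ ((K0 K A) ⊓ ev1.ker).map ev2 := ⟨_, h2m, rfl⟩
  rw [he, AddSubgroup.mem_closure_singleton] at h2
  obtain ⟨b, hb⟩ := h2
  refine ⟨a, b, fun L => ?_⟩
  have h3 : x - a • u - b • v ∈ K0 K A :=
    (K0 K A).sub_mem h2m.1 ((K0 K A).zsmul_mem hv b)
  have h4 : (x - a • u - b • v) S₁ = 0 := by
    have e1 : ev1 (x - a • u) = 0 := h2m.2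
    have e2 : ev1 v = 0 := hv1
    change ev1 (x - a • u - b • v) = 0
    rw [map_sub, map_zsmul, e1, e2]
    simp
  have h5 : (x - a • u - b • v) S₂ = 0 := by
    change ev2 (x - a • u - b • v) = 0
    rw [map_sub ev2 (x - a • u) (b • v), map_zsmul, hve, hb, sub_self]
  have h6 := key _ h3 h4 h5 L
  simp only [Pi.sub_apply, Pi.smul_apply, smul_eq_mul] at h6
  linarith

omit [Module.Finite K A] in
lemma cls_mem_K0 (X : Cpx K A) : cls X ∈ K0 K A := by
  have h1 : (fun L => (hd X.P0 L : ℤ)) ∈ K0 K A :=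
    AddSubgroup.subset_closure ⟨X.P0, X.proj0, fun _ => rfl⟩
  have h2 : (fun L => (hd X.P1 L : ℤ)) ∈ K0 K A :=
    AddSubgroup.subset_closure ⟨X.P1, X.proj1, fun _ => rfl⟩
  exact (K0 K A).sub_mem h1 h2

/-- **Two simple modules.** -/
theorem two_simples (hZ : ∀ x ∈ K0 K A, ∃ t : TRPair K A, ∀ L, gvec t L = x L)
    (S₁ S₂ : FMod K A)
    (hS : ∀ S : FMod K A, IsSimpleModule A S → Nonempty (S ≃ₗ[A] S₁) ∨ Nonempty (S ≃ₗ[A] S₂)) :
    ∃ l : List (FMod K A), ∀ V : FMod K A, Indec V → TauRigid V →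
      ∃ N ∈ l, Nonempty (V ≃ₗ[A] N) := by
  classical
  obtain ⟨u, hu, v, hv, hgen⟩ := K0_two S₁ S₂ hS
  obtain ⟨S, hS', hcov⟩ := plane hZ hu hv
  have hfin : ∀ p : Cpx K A × Cpx K A, ∃ l : List (FMod K A), ∀ M : FMod K A, Indec M →
      Summ M (p.1.H.prod p.2.H) → ∃ N' ∈ l, Nonempty (M ≃ₗ[A] N') := fun p =>
    finite_summands _ (p.1.H.prod p.2.H) le_rfl
  choose l hl using hfin
  refine ⟨S.flatMap l, fun V hV hτ => ?_⟩
  obtain ⟨m, hm⟩ := hτ
  have hrig := m.rigid_of_tau hm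
  obtain ⟨a, b, hab⟩ := hgen _ (cls_mem_K0 m.f)
  obtain ⟨p, hp, α', β', -, -, h3, h4⟩ := hcov a b
  obtain ⟨a', b', rfl, rfl⟩ := h4 ⟨a, b, rfl, rfl⟩
  have hc : ∀ L, cls m.f L = a' * cls p.1 L + b' * cls p.2 L := by
    intro L
    rw [hab L]
    exact_mod_cast h3 L
  have hh1 := hh_of_cls (hS' p hp).1 hrig a' b' hc
  obtain ⟨n, q, r, hqr⟩ := bongartz m.f.H p.1.H p.2.H a' b' (fun L => by
    rw [hd_H, hd_H, hd_H, hh1])
  obtain ⟨e, he⟩ := m.exists_map
  let e' := LinearEquiv.ofBijective e he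
  have hsumm : Summ V (p.1.H.prod p.2.H) := by
    refine summ_of_pow hV _ n (q ∘ₗ e'.symm.toLinearMap) (e'.toLinearMap ∘ₗ r) ?_
    exact (e'.bijective.comp hqr).comp e'.symm.bijective
  obtain ⟨N', hN', hiso⟩ := hl p V hV hsumm
  exact ⟨N', List.mem_flatMap.2 ⟨p, hp, hN'⟩, hiso⟩

end Dem
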