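import Pool.Agent.H3.Dem.Tau

/-!
The Stern–Brocot recursion driven by the strict decrease of `κ`.
-/

universe u

namespace Dem

variable {K A : Type u} [Field K] [Ring A] [Algebra K A] [Module.Finite K A]

/-- the real combination of the classes of `U` and `V` lies in the cone of one of the pairs in `S`,
with integral coefficients if the original ones are integral -/
def Covered (U V : Cpx K A) (S : List (Cpx K A × Cpx K A)) (α β : ℝ) : Prop :=
  ∃ p ∈ S, ∃ α' β' : ℝ, 0 ≤ α' ∧ 0 ≤ β' ∧
    (∀ L, α * (cls U L : ℝ) + β * (cls V L : ℝ) = α' * (cls p.1 L : ℝ) + β' * (cls p.2 L : ℝ)) ∧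
    ((∃ a b : ℕ, α = a ∧ β = b) → ∃ a b : ℕ, α' = a ∧ β' = b)

theorem chain (Q : Cpx K A → Prop) (hQ : ∀ X, Q X → X.Rigid) (k : ℕ) :
    ∀ (U V : Cpx K A), Q U → Q V →
    (∀ a b : ℕ, ∃ X : Cpx K A, Q X ∧ ∀ L, cls X L = a * cls U L + b * cls V L) →
    kap U V ≤ k →
    ∃ S : List (Cpx K A × Cpx K A), (∀ p ∈ S, (p.1.sum p.2).Rigid ∧ Q p.1 ∧ Q p.2) ∧
      ∀ α β : ℝ, 0 ≤ α → 0 ≤ β → Covered U V S α β := by
  induction k with
  | zero =>
    intro U V hU hV _ hk
    refine ⟨[(U, V)], ?_, ?_⟩
    · intro p hp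
      rw [List.mem_singleton] at hp
      subst hp
      exact ⟨rigid_sum_of_kap (hQ _ hU) (hQ _ hV) (Nat.le_zero.1 hk), hU, hV⟩
    · intro α β hα hβ
      exact ⟨(U, V), List.mem_singleton.2 rfl, α, β, hα, hβ, fun _ => rfl, fun h => h⟩
  | succ k ih =>
    intro U V hU hV hall hk
    by_cases h0 : kap U V = 0
    · refine ⟨[(U, V)], ?_, ?_⟩
      · intro p hp
        rw [List.mem_singleton] at hp
        subst hp
        exact ⟨rigid_sum_of_kap (hQ _ hU) (hQ _ hV) h0, hU, hV⟩
      · intro α β hα hβ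
        exact ⟨(U, V), List.mem_singleton.2 rfl, α, β, hα, hβ, fun _ => rfl, fun h => h⟩
    · obtain ⟨W, hW, hWc⟩ := hall 1 1
      have hc : ∀ L, cls W L = cls U L + cls V L := fun L => by
        have := hWc L
        push_cast at this
        linarith
      have hc' : ∀ L, cls W L = cls V L + cls U L := fun L => by rw [hc L, add_comm]
      have k1 := kap_decrease (hQ _ hU) (hQ _ hW) hc (by omega)
      have k2 := kap_decrease (hQ _ hV) (hQ _ hW) hc' (by rw [kap_comm]; omega)
      rw [kap_comm V U] at k2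
      obtain ⟨S1, hS1, hcov1⟩ := ih U W hU hW (fun a b => by
        obtain ⟨X, hX, hXc⟩ := hall (a + b) b
        refine ⟨X, hX, fun L => ?_⟩
        rw [hXc, hc]
        push_cast
        ring) (by omega)
      obtain ⟨S2, hS2, hcov2⟩ := ih V W hV hW (fun a b => by
        obtain ⟨X, hX, hXc⟩ := hall b (a + b)
        refine ⟨X, hX, fun L => ?_⟩
        rw [hXc, hc]
        push_cast
        ring) (by omega)
      refine ⟨S1 ++ S2, ?_, ?_⟩
      · intro p hp
        rcases List.mem_append.1 hp with h | h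
        · exact hS1 p h
        · exact hS2 p h
      · intro α β hα hβ
        rcases le_total β α with h | h
        · obtain ⟨p, hp, α', β', h1, h2, h3, h4⟩ := hcov1 (α - β) β (by linarith) hβ
          refine ⟨p, List.mem_append.2 (Or.inl hp), α', β', h1, h2, fun L => ?_, ?_⟩
          · rw [← h3 L, hc L]
            push_cast
            ring
          · rintro ⟨a, b, rfl, rfl⟩
            apply h4
            have hab : b ≤ a := by exact_mod_cast h
            exact ⟨a - b, b, by push_cast [hab]; ring, rfl⟩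
        · obtain ⟨p, hp, α', β', h1, h2, h3, h4⟩ := hcov2 (β - α) α (by linarith) hα
          refine ⟨p, List.mem_append.2 (Or.inr hp), α', β', h1, h2, fun L => ?_, ?_⟩
          · rw [← h3 L, hc L]
            push_cast
            ring
          · rintro ⟨a, b, rfl, rfl⟩
            apply h4
            have hab : a ≤ b := by exact_mod_cast h
            exact ⟨b - a, a, by push_cast [hab]; ring, rfl⟩

/-! ### the zero complex, and sums of copies -/

/-- the zero module -/
@[reducible] def FMod.zero : FMod K A := { carrier := PUnit.{u+1} }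

/-- the complex `P → 0` -/
@[reducible] def Cpx.shift (P : FMod K A) (hP : Module.Projective A P) : Cpx K A where
  P1 := P
  P0 := FMod.zero
  proj1 := hP
  proj0 := (inferInstance : Module.Projective A PUnit.{u+1})
  d := 0

omit [Module.Finite K A] in
lemma subsingleton_shift_H (P : FMod K A) (hP : Module.Projective A P) :
    Subsingleton (Cpx.shift P hP).H := by
  change Subsingleton (PUnit.{u+1} ⧸ _)
  infer_instance

omit [Module.Finite K A] in
lemma van_of_subsingleton (f : Cpx K A) (L : FMod K A) (h : Subsingleton L) : Van f L :=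
  fun g => ⟨0, by ext x; exact Subsingleton.elim _ _⟩

omit [Module.Finite K A] in
lemma hd_zero_left (L : FMod K A) : hd (FMod.zero : FMod K A) L = 0 := by
  unfold hd
  have : Subsingleton ((FMod.zero : FMod K A) →ₗ[A] L) := by
    refine ⟨fun a b => ?_⟩
    refine LinearMap.ext fun x => ?_
    have : x = 0 := Subsingleton.elim _ _
    rw [this, map_zero, map_zero]
  exact Module.finrank_zero_of_subsingleton

omit [Module.Finite K A] in
lemma cls_shift (P : FMod K A) (hP : Module.Projective A P) (L : FMod K A) :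
    cls (Cpx.shift P hP) L = - (hd P L : ℤ) := by
  unfold cls
  have h : hd (Cpx.shift P hP).P0 L = 0 := hd_zero_left L
  rw [h]
  push_cast
  ring

/-- the zero complex -/
def Cpx.zero : Cpx K A := Cpx.shift FMod.zero (inferInstance : Module.Projective A PUnit.{u+1})

omit [Module.Finite K A] in
lemma cls_zero (L : FMod K A) : cls (Cpx.zero : Cpx K A) L = 0 := by
  unfold Cpx.zero
  rw [cls_shift, hd_zero_left]
  rfl

omit [Module.Finite K A] in
lemma van_zero_left (L : FMod K A) : Van (Cpx.zero : Cpx K A) L := by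
  intro g
  refine ⟨0, ?_⟩
  refine LinearMap.ext fun x => ?_
  have : x = 0 := Subsingleton.elim (α := PUnit.{u+1}) x 0
  rw [this, map_zero, map_zero]

omit [Module.Finite K A] in
lemma hh_zero_left (L : FMod K A) : hh (Cpx.zero : Cpx K A) L = 0 := by
  have h1 := hh_sub_ee (Cpx.zero : Cpx K A) L
  have h2 := (van_iff_ee (Cpx.zero : Cpx K A) L).1 (van_zero_left L)
  have h3 := cls_zero (K := K) (A := A) L
  omega

/-- everything needed about `U^a ⊕ V^b` for a compatible pair `(U, V)` -/
def Good (U V : Cpx K A) (a b : ℕ) (T : Cpx K A) : Prop :=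
  T.Rigid ∧ Van T U.H ∧ Van T V.H ∧ Van U T.H ∧ Van V T.H ∧
    (∀ L, cls T L = a * cls U L + b * cls V L) ∧ ∀ L, hh T L = a * hh U L + b * hh V L

omit [Module.Finite K A] in
lemma exists_good {U V : Cpx K A} (h : (U.sum V).Rigid) (a b : ℕ) : ∃ T, Good U V a b T := by
  obtain ⟨⟨hU, hUV⟩, ⟨hVU, hV⟩⟩ := (rigid_sum_iff U V).1 h
  induction a with
  | zero =>
    induction b with
    | zero =>
      have hs : Subsingleton (Cpx.zero : Cpx K A).H := subsingleton_shift_H _ _
      refine ⟨Cpx.zero, van_zero_left _, van_zero_left _, van_zero_left _,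
        van_of_subsingleton _ _ hs, van_of_subsingleton _ _ hs, fun L => ?_, fun L => ?_⟩
      · rw [cls_zero]; push_cast; ring
      · rw [hh_zero_left]; ring
    | succ b ih =>
      obtain ⟨T, hT, h1, h2, h3, h4, h5, h6⟩ := ih
      obtain ⟨p, hp⟩ := exists_prod T V
      refine ⟨T.sum V, (rigid_sum_iff _ _).2 ⟨⟨hT, h2⟩, ⟨h4, hV⟩⟩, (van_sum _ _ _).2 ⟨h1, hVU⟩,
        (van_sum _ _ _).2 ⟨h2, hV⟩, (h3.prod hUV).of_surjective p hp,
        (h4.prod hV).of_surjective p hp, fun L => ?_, fun L => ?_⟩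
      · rw [cls_sum, h5]; push_cast; ring
      · rw [hh_sum, h6]; ring
  | succ a ih =>
    obtain ⟨T, hT, h1, h2, h3, h4, h5, h6⟩ := ih
    obtain ⟨p, hp⟩ := exists_prod T U
    refine ⟨T.sum U, (rigid_sum_iff _ _).2 ⟨⟨hT, h1⟩, ⟨h3, hU⟩⟩, (van_sum _ _ _).2 ⟨h1, hU⟩,
      (van_sum _ _ _).2 ⟨h2, hUV⟩, (h3.prod hU).of_surjective p hp,
      (h4.prod hVU).of_surjective p hp, fun L => ?_, fun L => ?_⟩
    · rw [cls_sum, h5]; push_cast; ring
    · rw [hh_sum, h6]; ring

omit [Module.Finite K A] in
/-- a rigid complex whose class is `a u + b v`, `(U, V)` compatible, has the same `hom`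
numbers as `U^a ⊕ V^b` -/
lemma hh_of_cls {U V X : Cpx K A} (h : (U.sum V).Rigid) (hX : X.Rigid) (a b : ℕ)
    (hc : ∀ L, cls X L = a * cls U L + b * cls V L) (L : FMod K A) :
    hh X L = a * hh U L + b * hh V L := by
  obtain ⟨T, hT, -, -, -, -, h5, h6⟩ := exists_good h a b
  have h1 : ∀ L, cls X L = cls T L := fun L => by rw [hc, h5]
  have h2 := hh_le hX h1 L
  have h3 := hh_le hT (fun L => (h1 L).symm) L
  rw [← h6]
  omega

end Dem
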