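import Pool.Agent.H3.Dem.Torsion

/-!
If every class in `K₀(proj A)` is the class of a rigid complex then the members of a semibrick are
separated by elements of `K₀(proj A)`; in particular there are at most `rank K₀(proj A)` of them.
-/

namespace Dem

open SBC

section

variable {K A : Type} [Field K] [Ring A] [Algebra K A] [Module.Finite K A]

/-- a finite semibrick: pairwise Hom-orthogonal bricks -/
def Semibrick {k : ℕ} (B : Fin k → FMod K A) : Prop :=
  (∀ i, Brick (B i)) ∧ ∀ i j, i ≠ j → Hom0 (B i) (B j)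

/-- the direct sum of a finite family -/
@[reducible] def FMod.pi {k : ℕ} (B : Fin k → FMod K A) : FMod K A :=
  { carrier := ∀ i, B i }

omit [Module.Finite K A] in
theorem hom0_pi {k : ℕ} (B : Fin k → FMod K A) (Z : FMod K A) :
    Hom0 (FMod.pi B) Z ↔ ∀ i, Hom0 (B i) Z := by
  classical
  constructor
  · intro h i φ
    have h1 := h (φ ∘ₗ (LinearMap.proj i : (∀ i, B i) →ₗ[A] B i))
    refine LinearMap.ext fun x => ?_
    have h2 := LinearMap.congr_fun h1 (Pi.single i x)
    have h3 : (LinearMap.proj i : (∀ i, B i) →ₗ[A] B i) (Pi.single i x) = x := by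
      change (Pi.single i x : ∀ i, B i) i = x
      rw [Pi.single_eq_same]
    change φ ((LinearMap.proj i : (∀ i, B i) →ₗ[A] B i) (Pi.single i x)) = 0 at h2
    rw [h3] at h2
    exact h2
  · intro h φ
    refine LinearMap.pi_ext' fun i => ?_
    rw [LinearMap.zero_comp]
    exact h i _

section

variable {k : ℕ} {B : Fin k → FMod K A} (hB : Semibrick B) {g : Cpx K A} (hg : Full g)
  (hgB : ∀ Z, hh g Z = 0 ↔ ∀ i, Hom0 (B i) Z)

include hB hg hgB

omit hB in
theorem semi_mem (i : Fin k) : ee g (B i) = 0 :=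
  (all_FUL K A).2.2 g hg (B i) fun Z hZ => (hgB Z).1 hZ i

theorem semi_surj (i : Fin k) (Y : FMod K A) (hY : ee g Y = 0) (φ : Y →ₗ[A] B i) (hφ : φ ≠ 0) :
    Function.Surjective φ := by
  obtain ⟨hom1, -, -, -, -, hom6, -⟩ := all_HOM K A
  obtain ⟨I, p, j, hp, hj, hjp⟩ := exists_image φ
  have hI : ee g I = 0 := Nat.le_zero.1 (hY ▸ hom6 g Y I p hp)
  by_contra hns
  have hjns : ¬ Function.Surjective j := by
    intro hs
    apply hns
    rw [← hjp]
    exact hs.comp hp
  have hI0 : hh g I = 0 := by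
    rw [hgB]
    intro l ψ
    have h1 : j ∘ₗ ψ = 0 := by
      by_cases hl : l = i
      · subst hl
        rcases (hB.1 l).2 (j ∘ₗ ψ) with h2 | h2
        · exact h2
        · exact absurd (Function.Surjective.of_comp (f := j) (g := ψ) h2.2) hjns
      · exact hB.2 l i hl (j ∘ₗ ψ)
    refine LinearMap.ext fun x => ?_
    apply hj
    rw [LinearMap.zero_apply, map_zero]
    exact LinearMap.congr_fun h1 x
  have hs := hg.2 I hI0 hI
  apply hφ
  rw [← hjp]
  refine LinearMap.ext fun x => ?_
  change j (p x) = 0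
  rw [Subsingleton.elim (p x) 0, map_zero]

theorem semi_ker (i : Fin k) (N Y : FMod K A) (u : N →ₗ[A] Y) (p : Y →ₗ[A] B i) (h : SES u p)
    (hY : ee g Y = 0) : ee g N = 0 := by
  obtain ⟨hom1, -, -, -, -, hom6, hom7, -⟩ := all_HOM K A
  apply (all_FUL K A).2.2 g hg
  intro Z hZ ν
  obtain ⟨I, q, j, hq, hj, hjq⟩ := exists_image ν
  have hI0 : hh g I = 0 := Nat.le_zero.1 (hZ ▸ hom7 g I Z j hj)
  obtain ⟨Y', i', p', q', h', hq', h1, h2⟩ := h.pushout q hq
  have hY' : ee g Y' = 0 := Nat.le_zero.1 (hY ▸ hom6 g Y Y' q' hq')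
  have hIs : Subsingleton I := by
    by_contra hI
    rw [not_subsingleton_iff_nontrivial] at hI
    -- `Y'` is not in the perpendicular class
    have h3 : ¬ ∀ l, Hom0 (B l) Y' := by
      intro h4
      have h5 := hg.2 Y' ((hgB Y').2 h4) hY'
      obtain ⟨x, hx⟩ := exists_ne (0 : I)
      apply hx
      apply h'.inj
      rw [Subsingleton.elim (i' x) (i' 0)]
    push Not at h3
    obtain ⟨l, hl⟩ := h3
    unfold Hom0 at hl
    push Not at hl
    obtain ⟨w, hw⟩ := hl
    -- the composite with `p'` is nonzero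
    have h4 : p' ∘ₗ w ≠ 0 := by
      intro h5
      obtain ⟨w', hw'⟩ := h'.lift w h5
      have h6 : w' = 0 := (hgB I).1 hI0 l w'
      apply hw
      rw [← hw', h6, LinearMap.comp_zero]
    have hli : l = i := by
      by_contra hli
      exact h4 (hB.2 l i hli _)
    subst hli
    rcases (hB.1 l).2 (p' ∘ₗ w) with h5 | h5
    · exact h4 h5
    · -- `p'` splits
      let e := LinearEquiv.ofBijective (p' ∘ₗ w) h5
      let s : Y' →ₗ[A] Y' := w ∘ₗ e.symm.toLinearMap ∘ₗ p'
      have hps : p' ∘ₗ (LinearMap.id - s) = 0 := by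
        refine LinearMap.ext fun y => ?_
        change p' (y - s y) = 0
        rw [map_sub, sub_eq_zero]
        exact (e.apply_symm_apply (p' y)).symm
      obtain ⟨r, hr⟩ := h'.lift (LinearMap.id - s) hps
      have hri : ∀ x, r (i' x) = x := by
        intro x
        apply h'.inj
        have h6 : i' (r (i' x)) = i' x - s (i' x) := LinearMap.congr_fun hr (i' x)
        have h7 : s (i' x) = 0 := by
          change w (e.symm (p' (i' x))) = 0
          rw [h'.comp, map_zero, map_zero]
        rw [h6, h7, sub_zero]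
      have h8 : ee g I = 0 := Nat.le_zero.1 (hY' ▸ hom6 g Y' I r fun x => ⟨i' x, hri x⟩)
      exact not_subsingleton_iff_nontrivial.2 hI (hg.2 I hI0 h8)
  rw [← hjq]
  refine LinearMap.ext fun x => ?_
  change j (q x) = 0
  rw [Subsingleton.elim (q x) 0, map_zero]

theorem semi_sep (i : Fin k) :
    ∃ x ∈ K0 K A, 0 < x (B i) ∧ ∀ j, j ≠ i → x (B j) = 0 := by
  obtain ⟨hom1, -⟩ := all_HOM K A
  -- the minimal complex
  let Q : Cpx K A → Prop := fun h => (∀ Z, hh g Z = 0 → hh h Z = 0) ∧
    (∀ Y, ee g Y = 0 → ee h Y = 0)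
  have hQ : ∀ h h₁ h₂ : Cpx K A, NSplit h h₁ h₂ → Q h → Q h₁ ∧ Q h₂ := by
    intro h h₁ h₂ hs hq
    refine ⟨⟨fun Z hZ => ?_, fun Y hY => ?_⟩, ⟨fun Z hZ => ?_, fun Y hY => ?_⟩⟩
    · have := hs.hh_eq Z
      rw [hq.1 Z hZ] at this
      omega
    · have := hs.ee_eq Y
      rw [hq.2 Y hY] at this
      omega
    · have := hs.hh_eq Z
      rw [hq.1 Z hZ] at this
      omega
    · have := hs.ee_eq Y
      rw [hq.2 Y hY] at this
      omega
  have hC0 : hh g (B i) ≠ 0 := by
    intro h0
    have h2 := hg.2 (B i) h0 (semi_mem hg hgB i)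
    exact not_subsingleton_iff_nontrivial.2 (hB.1 i).1 h2
  have hex : ∃ n, ∃ h : Cpx K A, Q h ∧ hh h (B i) ≠ 0 ∧ size h = n :=
    ⟨_, g, ⟨fun _ h => h, fun _ h => h⟩, hC0, rfl⟩
  classical
  obtain ⟨h, hqh, hhC, hsize⟩ := Nat.find_spec hex
  have hmin : ∀ h' : Cpx K A, Q h' → size h' < size h → hh h' (B i) = 0 := by
    intro h' hq' hlt
    by_contra hne
    exact Nat.find_min hex (hsize ▸ hlt) ⟨h', hq', hne, rfl⟩
  refine ⟨cls h, cls_mem_K0 h, ?_, ?_⟩
  · have h1 := hh_sub_ee h (B i)
    have h2 : ee h (B i) = 0 := hqh.2 _ (semi_mem hg hgB i)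
    omega
  · intro j hji
    have h2 : ee h (B j) = 0 := hqh.2 _ (semi_mem hg hgB j)
    have h1 := hh_sub_ee h (B j)
    by_contra hne
    have hh' : hh h (B j) ≠ 0 := by
      intro h0
      apply hne
      omega
    have ha : ∃ a : h.H →ₗ[A] B i, a ≠ 0 := by
      by_contra hno
      push Not at hno
      exact hhC ((hom1 h (B i)).2 hno)
    have hb : ∃ b : h.H →ₗ[A] B j, b ≠ 0 := by
      by_contra hno
      push Not at hno
      exact hh' ((hom1 h (B j)).2 hno)
    obtain ⟨a, ha⟩ := ha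
    obtain ⟨b, hb⟩ := hb
    -- `ee g h.H = 0`
    have hef : ee g h.H = 0 :=
      (all_FUL K A).2.2 g hg h.H fun Z hZ => (hom1 h Z).1 (hqh.1 Z hZ)
    have hsa := semi_surj hB hg hgB i h.H hef a ha
    obtain ⟨N, u, hN⟩ := exists_ker a hsa
    have heN := semi_ker hB hg hgB i N h.H u a hN hef
    have hbu : b ∘ₗ u ≠ 0 := by
      intro h0
      obtain ⟨c, hc⟩ := hN.desc b h0
      apply hb
      rw [← hc, hB.2 i j hji.symm c, LinearMap.zero_comp]
    have hsb := semi_surj hB hg hgB j N heN (b ∘ₗ u) hbu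
    obtain ⟨L, v, hL⟩ := exists_ker (b ∘ₗ u) hsb
    have heL := semi_ker hB hg hgB j L N v (b ∘ₗ u) hL heN
    have hhL : ee h L = 0 := hqh.2 L heL
    let ab : h.H →ₗ[A] (B i).prod (B j) := LinearMap.prod a b
    have hses : SES (u ∘ₗ v) ab := by
      refine ⟨hN.inj.comp hL.inj, ?_, ?_⟩
      · rintro ⟨x, y⟩
        obtain ⟨m, hm⟩ := hsa x
        obtain ⟨n, hn⟩ := hsb (y - b m)
        refine ⟨m + u n, ?_⟩
        change (a (m + u n), b (m + u n)) = (x, y)
        have e1 : b (u n) = y - b m := hn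
        rw [map_add, map_add, hN.comp, e1, hm, add_zero, add_sub_cancel]
      · ext y
        constructor
        · rintro ⟨l, rfl⟩
          have e1 : b (u (v l)) = 0 := hL.comp l
          have e2 : a (u (v l)) = 0 := hN.comp _
          exact Prod.ext e2 e1
        · intro hy
          have e1 : a y = 0 := congrArg Prod.fst hy
          have e2 : b y = 0 := congrArg Prod.snd hy
          obtain ⟨n, rfl⟩ := hN.exists_of_zero e1
          obtain ⟨l, rfl⟩ := hL.exists_of_zero e2
          exact ⟨l, rfl⟩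
    obtain ⟨ψ, hψ⟩ := (all_LFT K A h L h.H _ _ _ hses).1 hhL (LinearMap.prod a 0)
    have ea : a ∘ₗ ψ = a := by
      refine LinearMap.ext fun x => ?_
      exact congrArg Prod.fst (LinearMap.congr_fun hψ x)
    have eb : b ∘ₗ ψ = 0 := by
      refine LinearMap.ext fun x => ?_
      exact congrArg Prod.snd (LinearMap.congr_fun hψ x)
    rcases all_FIT K A h ψ with hbij | hnil | ⟨h₁, h₂, hs, hl1, hl2⟩
    · apply hb
      refine LinearMap.ext fun x => ?_
      obtain ⟨y, rfl⟩ := hbij.2 x
      exact LinearMap.congr_fun eb y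
    · obtain ⟨n, hn⟩ := hnil
      apply ha
      have : ∀ m : ℕ, ∀ x, a ((ψ ^ m) x) = a x := by
        intro m
        induction m with
        | zero => intro x; rfl
        | succ m ih =>
          intro x
          rw [pow_succ']
          change a (ψ ((ψ ^ m) x)) = a x
          rw [← ih x]
          exact LinearMap.congr_fun ea _
      refine LinearMap.ext fun x => ?_
      rw [← this n x, hn]
      change a 0 = 0
      rw [map_zero]
    · have q := hQ h h₁ h₂ hs hqh
      have m1 := hmin h₁ q.1 hl1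
      have m2 := hmin h₂ q.2 hl2
      have := hs.hh_eq (B i)
      rw [m1, m2] at this
      exact hhC this

end

/-- separation of the members of a semibrick -/
theorem semibrick_sep (hLR : LR K A) {k : ℕ} {B : Fin k → FMod K A} (hB : Semibrick B) :
    ∃ x : Fin k → (FMod K A → ℤ), ∀ i, x i ∈ K0 K A ∧ 0 < x i (B i) ∧
      ∀ j, j ≠ i → x i (B j) = 0 := by
  obtain ⟨g, hg, hgM⟩ := all_FFF K A hLR (FMod.pi B)
  have hgB : ∀ Z, hh g Z = 0 ↔ ∀ i, Hom0 (B i) Z := fun Z => by rw [hgM, hom0_pi]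
  choose x hx h1 h2 using semi_sep hB hg hgB
  exact ⟨x, fun i => ⟨hx i, h1 i, h2 i⟩⟩

/-- a semibrick has at most `rank K₀(proj A)` members -/
theorem semibrick_card (hLR : LR K A) {k : ℕ} {B : Fin k → FMod K A} (hB : Semibrick B) :
    k ≤ Module.finrank ℤ (K0 K A) := by
  obtain ⟨x, hx⟩ := semibrick_sep hLR hB
  obtain ⟨n, y, hy, hyK⟩ := all_KFG K A
  have hfin : Module.Finite ℤ (K0 K A) := by
    have : Submodule.span ℤ (Set.range fun i => (⟨y i, hy i⟩ : K0 K A)) = ⊤ := by
      rw [eq_top_iff]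
      rintro ⟨z, hz⟩ -
      obtain ⟨c, hc⟩ := hyK z hz
      have h1 : (⟨z, hz⟩ : K0 K A) = ∑ i, c i • (⟨y i, hy i⟩ : K0 K A) := by
        apply Subtype.ext
        funext L
        rw [AddSubgroup.val_finsetSum]
        rw [Finset.sum_apply]
        change z L = _
        rw [hc L]
        refine Finset.sum_congr rfl fun i _ => ?_
        rw [AddSubgroup.coe_zsmul]
        change c i * y i L = c i • y i L
        rw [smul_eq_mul]
      rw [h1]
      exact Submodule.sum_mem _ fun i _ => Submodule.smul_mem _ _ (Submodule.subset_span ⟨i, rfl⟩)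
    exact ⟨Submodule.fg_def.2 ⟨_, Set.finite_range _, this⟩⟩
  have hli : LinearIndependent ℤ (fun i => (⟨x i, (hx i).1⟩ : K0 K A)) := by
    rw [Fintype.linearIndependent_iff]
    intro c hc j
    have h1 := congrArg (fun z : K0 K A => (z : FMod K A → ℤ) (B j)) hc
    simp only [AddSubgroup.val_finsetSum, Finset.sum_apply, AddSubgroup.coe_zsmul] at h1
    have h2 : ∑ i, (c i • x i) (B j) = c j * x j (B j) := by
      rw [Finset.sum_eq_single j]
      · rfl
      · intro i _ hij
        change c i * x i (B j) = 0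
        rw [(hx i).2.2 j hij.symm, mul_zero]
      · intro h
        exact absurd (Finset.mem_univ j) h
    have h3 : c j * x j (B j) = 0 := by
      rw [← h2]
      exact h1
    rcases mul_eq_zero.1 h3 with h4 | h4
    · exact h4
    · exact absurd h4 (hx j).2.1.ne'
  have := hli.fintype_card_le_finrank
  rwa [Fintype.card_fin] at this

end

end Dem
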