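import Pool.Agent.H3.Dem.Basic

/-!
The module `τ f = D coker (f^*)` of a two-term complex `f` and the formula
`dim Hom(L, τ f) = dim Hom(f, L[1])`; the strict decrease lemma.
-/

universe u

namespace Dem

variable {K A : Type u} [Field K] [Ring A] [Algebra K A]

/-- dual basis of a finitely generated projective module -/
lemma dual_basis (P : Type u) [AddCommGroup P] [Module A P] [Module.Finite A P]
    [Module.Projective A P] :
    ∃ (n : ℕ) (x : Fin n → P) (φ : Fin n → (P →ₗ[A] A)), ∀ y, y = ∑ i, φ i y • x i := by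
  obtain ⟨n, p, hp⟩ := Module.Finite.exists_fin' A P
  obtain ⟨s, hs⟩ := Module.projective_lifting_property p LinearMap.id hp
  refine ⟨n, fun i => p (Pi.single i 1), fun i => LinearMap.proj i ∘ₗ s, fun y => ?_⟩
  have h1 : p (s y) = y := LinearMap.congr_fun hs y
  conv_lhs => rw [← h1]
  have h2 : s y = ∑ i, (s y i) • (Pi.single i (1 : A) : Fin n → A) := by
    funext j
    rw [Finset.sum_apply]
    rw [Finset.sum_eq_single j]
    · simp
    · intro i _ hij
      simp [hij.symm]
    · intro h
      exact absurd (Finset.mem_univ j) h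
  conv_lhs => rw [h2]
  rw [map_sum]
  refine Finset.sum_congr rfl fun i _ => ?_
  rw [map_smul]
  rfl

@[simp] lemma rmul_apply (P : Type u) [AddCommGroup P] [Module A P] (a : A) (φ : P →ₗ[A] A)
    (x : P) : rmul (K := K) P a φ x = φ x * a := rfl

variable [Module.Finite K A]

instance finA (P : FMod K A) : Module.Finite A P := Module.Finite.of_restrictScalars_finite K A P

/-- the map `x ↦ φ(x) l` -/
def outer {P L : Type u} [AddCommGroup P] [Module A P] [AddCommGroup L] [Module A L]
    (φ : P →ₗ[A] A) (l : L) : P →ₗ[A] L where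
  toFun x := φ x • l
  map_add' x y := by rw [map_add, add_smul]
  map_smul' c x := by rw [map_smul, smul_eq_mul, mul_smul]; rfl

/-- the comparison map `D coker (Hom(P₀, L) → Hom(P₁, L)) → Hom_A(L, τ f)` -/
def tauMap (f : Cpx K A) (L : FMod K A) :
    (((f.P1 →ₗ[A] L) ⧸ LinearMap.range (pull f L)) →ₗ[K] K) →ₗ[K] (L →ₗ[A] tau f) where
  toFun ζ :=
    { toFun := fun l => ⟨
        { toFun := fun φ => ζ ((LinearMap.range (pull f L)).mkQ (outer φ l))
          map_add' := fun φ ψ => by
            rw [← map_add, ← map_add]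
            congr 2
            ext x
            change (φ x + ψ x) • l = φ x • l + ψ x • l
            rw [add_smul]
          map_smul' := fun k φ => by
            rw [RingHom.id_apply, ← map_smul, ← map_smul]
            congr 2
            ext x
            change (k • φ x) • l = k • φ x • l
            rw [smul_assoc] }, fun φ => by
          change ζ ((LinearMap.range (pull f L)).mkQ (outer (φ ∘ₗ f.d) l)) = 0
          have : outer (φ ∘ₗ f.d) l = pull f L (outer φ l) := rfl
          rw [this]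
          have h2 : (LinearMap.range (pull f L)).mkQ (pull f L (outer φ l)) = 0 := by
            rw [Submodule.mkQ_apply, Submodule.Quotient.mk_eq_zero]
            exact LinearMap.mem_range_self _ _
          rw [h2, map_zero]⟩
      map_add' := fun l m => by
        apply Subtype.ext
        refine LinearMap.ext fun φ => ?_
        change ζ _ = ζ _ + ζ _
        rw [← map_add, ← map_add]
        congr 2
        ext x
        change φ x • (l + m) = φ x • l + φ x • m
        rw [smul_add]
      map_smul' := fun a l => by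
        apply Subtype.ext
        refine LinearMap.ext fun φ => ?_
        change ζ _ = ζ _
        congr 2
        ext x
        change φ x • a • l = (φ x * a) • l
        rw [mul_smul] }
  map_add' ζ ζ' := rfl
  map_smul' k ζ := rfl

lemma tauMap_apply (f : Cpx K A) (L : FMod K A)
    (ζ : ((f.P1 →ₗ[A] L) ⧸ LinearMap.range (pull f L)) →ₗ[K] K) (l : L) (φ : f.P1 →ₗ[A] A) :
    (tauMap f L ζ l).1 φ = ζ ((LinearMap.range (pull f L)).mkQ (outer φ l)) := rfl

lemma tauMap_bijective (f : Cpx K A) (L : FMod K A) : Function.Bijective (tauMap f L) := by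
  have := f.proj1
  have := f.proj0
  obtain ⟨n, x, φ, hx⟩ := dual_basis (A := A) f.P1
  obtain ⟨m, y, η, hy⟩ := dual_basis (A := A) f.P0
  have hexp : ∀ ψ : f.P1 →ₗ[A] L, ψ = ∑ i, outer (φ i) (ψ (x i)) := by
    intro ψ
    ext z
    rw [LinearMap.sum_apply]
    conv_lhs => rw [hx z, map_sum]
    refine Finset.sum_congr rfl fun i _ => ?_
    rw [map_smul]
    rfl
  have hexpA : ∀ ψ : f.P1 →ₗ[A] A, ψ = ∑ i, rmul (K := K) f.P1 (ψ (x i)) (φ i) := by
    intro ψ
    ext z
    rw [LinearMap.sum_apply]
    conv_lhs => rw [hx z, map_sum]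
    refine Finset.sum_congr rfl fun i _ => ?_
    rw [map_smul]
    rfl
  constructor
  · refine (injective_iff_map_eq_zero (tauMap f L)).2 ?_
    intro ζ hζ
    refine LinearMap.ext fun q => ?_
    obtain ⟨ψ, rfl⟩ := (LinearMap.range (pull f L)).mkQ_surjective q
    rw [hexp ψ, map_sum, map_sum, LinearMap.zero_apply]
    apply Finset.sum_eq_zero
    intro i _
    rw [← tauMap_apply f L ζ, hζ]
    rfl
  · intro θ
    let ζ0 : (f.P1 →ₗ[A] L) →ₗ[K] K :=
      { toFun := fun ψ => ∑ i, (θ (ψ (x i))).1 (φ i)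
        map_add' := fun ψ ψ' => by
          rw [← Finset.sum_add_distrib]
          refine Finset.sum_congr rfl fun i _ => ?_
          rw [LinearMap.add_apply, map_add]
          rfl
        map_smul' := fun k ψ => by
          rw [RingHom.id_apply, Finset.smul_sum]
          refine Finset.sum_congr rfl fun i _ => ?_
          rw [LinearMap.smul_apply, θ.map_smul_of_tower]
          rfl }
    have hζ0 : ∀ ψ, ζ0 ψ = ∑ i, (θ (ψ (x i))).1 (φ i) := fun _ => rfl
    have hle : LinearMap.range (pull f L) ≤ LinearMap.ker ζ0 := by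
      rintro _ ⟨χ, rfl⟩
      rw [LinearMap.mem_ker, hζ0]
      have h1 : ∀ i, (θ ((pull f L χ) (x i))).1 (φ i) =
          ∑ j, (θ (χ (y j))).1 (rmul (K := K) f.P1 (η j (f.d (x i))) (φ i)) := by
        intro i
        change (θ (χ (f.d (x i)))).1 (φ i) = _
        conv_lhs => rw [hy (f.d (x i)), map_sum, map_sum]
        have h2 : ∀ (s : Fin m → tauSpace f), (∑ j, s j : tauSpace f).1 (φ i) = ∑ j, (s j).1 (φ i) := by
          intro s
          have h3 : (∑ j, s j : tauSpace f).1 = ∑ j, (s j).1 :=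
            map_sum (tauSpace f).subtype s Finset.univ
          rw [h3, LinearMap.sum_apply]
        rw [h2]
        refine Finset.sum_congr rfl fun j _ => ?_
        rw [map_smul, map_smul]
        rfl
      rw [Finset.sum_congr rfl fun i _ => h1 i, Finset.sum_comm]
      apply Finset.sum_eq_zero
      intro j _
      rw [← map_sum]
      have h4 := hexpA (η j ∘ₗ f.d)
      have h5 : ∑ i, rmul (K := K) f.P1 (η j (f.d (x i))) (φ i) = η j ∘ₗ f.d := h4.symm
      rw [h5]
      exact (θ (χ (y j))).2 (η j)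
    refine ⟨(LinearMap.range (pull f L)).liftQ ζ0 hle, ?_⟩
    refine LinearMap.ext fun l => Subtype.ext (LinearMap.ext fun ψ => ?_)
    rw [tauMap_apply]
    change ζ0 (outer ψ l) = _
    rw [hζ0]
    have h1 : ∀ i, (θ ((outer ψ l) (x i))).1 (φ i) =
        (θ l).1 (rmul (K := K) f.P1 (ψ (x i)) (φ i)) := by
      intro i
      change (θ (ψ (x i) • l)).1 (φ i) = _
      rw [map_smul]
      rfl
    rw [Finset.sum_congr rfl fun i _ => h1 i, ← map_sum, ← hexpA ψ]

/-- `dim Hom_A(L, τ f) = dim coker (Hom(P₀, L) → Hom(P₁, L))` -/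
lemma hd_tau (f : Cpx K A) (L : FMod K A) : hd L (tau f) = ee f L := by
  unfold hd ee
  rw [← (LinearEquiv.ofBijective (tauMap f L) (tauMap_bijective f L)).finrank_eq]
  exact Subspace.dual_finrank_eq

omit [Module.Finite K A] in
/-- `dim Hom(coker f, L) = hh f L` -/
lemma hd_H (f : Cpx K A) (L : FMod K A) : hd f.H L = hh f L := by
  unfold hd hh
  apply LinearEquiv.finrank_eq
  refine LinearEquiv.ofBijective ({
    toFun := fun φ => ⟨φ ∘ₗ (LinearMap.range f.d).mkQ, ?_⟩
    map_add' := fun _ _ => rfl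
    map_smul' := fun _ _ => rfl } : (f.H →ₗ[A] L) →ₗ[K] LinearMap.ker (pull f L)) ⟨?_, ?_⟩
  · rw [LinearMap.mem_ker]
    refine LinearMap.ext fun x => ?_
    change φ ((LinearMap.range f.d).mkQ (f.d x)) = 0
    have h2 : (LinearMap.range f.d).mkQ (f.d x) = 0 := by
      rw [Submodule.mkQ_apply, Submodule.Quotient.mk_eq_zero]
      exact LinearMap.mem_range_self _ _
    rw [h2, map_zero]
  · intro φ ψ h
    refine LinearMap.ext fun y => ?_
    obtain ⟨x, rfl⟩ := (LinearMap.range f.d).mkQ_surjective y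
    exact LinearMap.congr_fun (congrArg Subtype.val h) x
  · rintro ⟨φ, hφ⟩
    have hle : LinearMap.range f.d ≤ LinearMap.ker φ := by
      rintro _ ⟨x, rfl⟩
      exact LinearMap.congr_fun hφ x
    refine ⟨(LinearMap.range f.d).liftQ φ hle, ?_⟩
    apply Subtype.ext
    exact Submodule.liftQ_mkQ _ _ hle

/-- `E(f, g) = dim Hom(f, g[1])` -/
noncomputable def EE (f g : Cpx K A) : ℕ := ee f g.H

omit [Module.Finite K A] in
lemma EE_eq_zero_iff (f g : Cpx K A) : EE f g = 0 ↔ Van f g.H := (van_iff_ee f g.H).symm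

lemma EE_eq_hh (f g : Cpx K A) : EE f g = hh g (tau f) := by
  unfold EE
  rw [← hd_tau, hd_H]

omit [Module.Finite K A] in
/-- strict decrease, first half -/
lemma EE_decrease_left {U V W : Cpx K A} (hU : U.Rigid) (hW : W.Rigid)
    (hc : ∀ L, cls W L = cls U L + cls V L) :
    EE W U ≤ EE V U ∧ (EE W U = EE V U → EE V U = 0) := by
  have hc' : ∀ L, cls W L = cls (U.sum V) L := fun L => by rw [hc, cls_sum]
  have h1 := ee_le hW hc' U.H
  rw [ee_sum] at h1
  have h0 : ee U U.H = 0 := (van_iff_ee _ _).1 hU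
  have h2 : EE W U ≤ EE V U := by
    unfold EE
    omega
  refine ⟨h2, fun heq => ?_⟩
  have h3 : hh W U.H = hh (U.sum V) U.H := by
    have a1 := hh_sub_ee W U.H
    have a2 := hh_sub_ee (U.sum V) U.H
    have a3 := hc' U.H
    have a4 := ee_sum U V U.H
    unfold EE at heq
    omega
  obtain ⟨h4, h5⟩ := eq_case hW hc' U.H h3
  -- the identity of `coker U` lands in the trace
  rw [hh_sum, hh_sum] at h4
  have h6 := hh_sub_le U U.H (tr W U.H)
  have h7 := hh_sub_le V U.H (tr W U.H)
  have h8 : hh U (U.H.sub (tr W U.H)) = hh U U.H := by omega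
  rw [hh_sub_eq_iff] at h8
  have h9 := h8 (LinearMap.range U.d).mkQ (by
    refine LinearMap.ext fun x => ?_
    change (LinearMap.range U.d).mkQ (U.d x) = 0
    rw [Submodule.mkQ_apply, Submodule.Quotient.mk_eq_zero]
    exact LinearMap.mem_range_self _ _)
  rw [Submodule.range_mkQ, top_le_iff] at h9
  have h10 : Van V (U.H.sub (tr W U.H)) := ((van_sum _ _ _).1 h5).2
  apply (EE_eq_zero_iff V U).2
  apply h10.of_surjective (tr W U.H).subtype
  intro z
  exact ⟨⟨z, by rw [h9]; trivial⟩, rfl⟩

/-- strict decrease, second half -/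
lemma EE_decrease_right {U V W : Cpx K A} (hU : U.Rigid) (hW : W.Rigid)
    (hc : ∀ L, cls W L = cls U L + cls V L) :
    EE U W ≤ EE U V ∧ (EE U W = EE U V → EE U V = 0) := by
  have hc' : ∀ L, cls W L = cls (U.sum V) L := fun L => by rw [hc, cls_sum]
  have h1 := hh_le hW hc' (tau U)
  have h0 : EE U U = 0 := (EE_eq_zero_iff _ _).2 hU
  rw [hh_sum, ← EE_eq_hh, ← EE_eq_hh, ← EE_eq_hh, h0, zero_add] at h1
  refine ⟨h1, fun heq => ?_⟩
  have h3 : hh W (tau U) = hh (U.sum V) (tau U) := by
    rw [hh_sum, ← EE_eq_hh, ← EE_eq_hh, ← EE_eq_hh, h0, zero_add, heq]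
  obtain ⟨h4, h5⟩ := eq_case hW hc' (tau U) h3
  have h6 : Van U ((tau U).sub (tr W (tau U))) := ((van_sum _ _ _).1 h5).1
  rw [van_iff_ee, ← hd_tau] at h6
  unfold hd at h6
  have h7 : (tr W (tau U)).subtype = 0 := by
    have := Module.finrank_zero_iff.1 h6
    exact Subsingleton.elim _ _
  have h8 : tr W (tau U) = ⊥ := by
    rw [← Submodule.range_subtype (tr W (tau U)), h7, LinearMap.range_zero]
  have h9 : hh (U.sum V) ((tau U).sub (tr W (tau U))) = 0 := by
    unfold hh
    have : Subsingleton ((U.sum V).P0 →ₗ[A] ((tau U).sub (tr W (tau U)))) := by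
      refine ⟨fun a b => ?_⟩
      refine LinearMap.ext fun x => Subtype.ext ?_
      have ha : (a x).1 = 0 := (Submodule.mem_bot A).1 (h8.le (a x).2)
      have hb : (b x).1 = 0 := (Submodule.mem_bot A).1 (h8.le (b x).2)
      exact ha.trans hb.symm
    exact Module.finrank_zero_of_subsingleton
  rw [h9, hh_sum, ← EE_eq_hh, ← EE_eq_hh, h0, zero_add] at h4
  exact h4.symm

/-- `κ(U, V) = E(U, V) + E(V, U)` -/
noncomputable def kap (U V : Cpx K A) : ℕ := EE U V + EE V U

omit [Module.Finite K A] in
lemma kap_comm (U V : Cpx K A) : kap U V = kap V U := by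
  unfold kap
  omega

lemma kap_decrease {U V W : Cpx K A} (hU : U.Rigid) (hW : W.Rigid)
    (hc : ∀ L, cls W L = cls U L + cls V L) (hk : 0 < kap U V) : kap U W < kap U V := by
  obtain ⟨h1, h2⟩ := EE_decrease_left hU hW hc
  obtain ⟨h3, h4⟩ := EE_decrease_right hU hW hc
  unfold kap at *
  by_contra hcon
  have h5 : EE W U = EE V U := by omega
  have h6 : EE U W = EE U V := by omega
  have := h2 h5
  have := h4 h6
  omega

omit [Module.Finite K A] in
lemma rigid_sum_of_kap {U V : Cpx K A} (hU : U.Rigid) (hV : V.Rigid) (hk : kap U V = 0) :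
    (U.sum V).Rigid := by
  rw [rigid_sum_iff]
  unfold kap at hk
  have h1 : EE U V = 0 := by omega
  have h2 : EE V U = 0 := by omega
  exact ⟨⟨hU, (EE_eq_zero_iff _ _).1 h1⟩, ⟨(EE_eq_zero_iff _ _).1 h2, hV⟩⟩

end Dem
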