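import Pool.Agent.H3.Dem.Defs

/-!
The module `τ f = D coker (Hom_A(P₀, A) → Hom_A(P₁, A))`.
-/

universe u

namespace Dem

variable {K A : Type u} [Field K] [Ring A] [Algebra K A]

/-- right multiplication: `(φ a)(x) = φ(x) a` for `φ` in `Hom_A(P, A)` -/
def rmulFun {P : Type u} [AddCommGroup P] [Module A P] (a : A) (φ : P →ₗ[A] A) : P →ₗ[A] A :=
  LinearMap.toSpanSingleton A A a ∘ₗ φ

theorem rmulFun_apply {P : Type u} [AddCommGroup P] [Module A P] (a : A) (φ : P →ₗ[A] A) (x : P) :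
    rmulFun a φ x = φ x * a := rfl

theorem rmulFun_add {P : Type u} [AddCommGroup P] [Module A P] (a : A) (φ ψ : P →ₗ[A] A) :
    rmulFun a (φ + ψ) = rmulFun a φ + rmulFun a ψ := by
  ext x
  change (φ x + ψ x) * a = φ x * a + ψ x * a
  rw [add_mul]

theorem rmulFun_smul {P : Type u} [AddCommGroup P] [Module A P] (a : A) (k : K) (φ : P →ₗ[A] A) :
    rmulFun a (k • φ) = (RingHom.id K) k • rmulFun a φ := by
  ext x
  change (k • φ x) * a = k • (φ x * a)
  rw [smul_mul_assoc]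

/-- right multiplication by `a` on `Hom_A(P, A)`, as a `K`-linear map -/
def rmul (P : Type u) [AddCommGroup P] [Module A P] (a : A) :
    (P →ₗ[A] A) →ₗ[K] (P →ₗ[A] A) where
  toFun φ := rmulFun a φ
  map_add' := rmulFun_add a
  map_smul' := rmulFun_smul a

theorem tauSpace_add (f : Cpx K A) (ξ η : (f.P1 →ₗ[A] A) →ₗ[K] K)
    (h : ∀ φ : f.P0 →ₗ[A] A, ξ (φ ∘ₗ f.d) = 0) (h' : ∀ φ : f.P0 →ₗ[A] A, η (φ ∘ₗ f.d) = 0) :
    ∀ φ : f.P0 →ₗ[A] A, (ξ + η) (φ ∘ₗ f.d) = 0 := by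
  intro φ
  change ξ (φ ∘ₗ f.d) + η (φ ∘ₗ f.d) = 0
  rw [h φ, h' φ, add_zero]

theorem tauSpace_zero (f : Cpx K A) :
    ∀ φ : f.P0 →ₗ[A] A, (0 : (f.P1 →ₗ[A] A) →ₗ[K] K) (φ ∘ₗ f.d) = 0 := fun _ => rfl

theorem tauSpace_smul (f : Cpx K A) (c : K) (ξ : (f.P1 →ₗ[A] A) →ₗ[K] K)
    (h : ∀ φ : f.P0 →ₗ[A] A, ξ (φ ∘ₗ f.d) = 0) :
    ∀ φ : f.P0 →ₗ[A] A, (c • ξ) (φ ∘ₗ f.d) = 0 := by
  intro φ
  change c • ξ (φ ∘ₗ f.d) = 0
  rw [h φ, smul_zero]

/-- The underlying space of `τ f`: linear functionals on `Hom_A(P₁, A)` that vanish on the image of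
`Hom_A(P₀, A)`. This is the `K`-dual of `Tr = coker (Hom_A(P₀, A) → Hom_A(P₁, A))`. -/
def tauSpace (f : Cpx K A) : Submodule K ((f.P1 →ₗ[A] A) →ₗ[K] K) where
  carrier := {ξ | ∀ φ : f.P0 →ₗ[A] A, ξ (φ ∘ₗ f.d) = 0}
  add_mem' {ξ η} := tauSpace_add f ξ η
  zero_mem' := tauSpace_zero f
  smul_mem' := tauSpace_smul f

theorem tau_smul_mem (f : Cpx K A) (a : A) (ξ : tauSpace f) :
    ∀ φ : f.P0 →ₗ[A] A, (ξ.1 ∘ₗ rmul f.P1 a) (φ ∘ₗ f.d) = 0 :=
  fun φ => ξ.2 (rmul (K := K) f.P0 a φ)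

/-- the left `A`-action `(a ξ)(φ) = ξ(φ a)` on `τ f` -/
instance tauSMul (f : Cpx K A) : SMul A (tauSpace f) where
  smul a ξ := ⟨ξ.1 ∘ₗ rmul f.P1 a, tau_smul_mem f a ξ⟩

theorem tau_smul_apply (f : Cpx K A) (a : A) (ξ : tauSpace f) (φ : f.P1 →ₗ[A] A) :
    (a • ξ).1 φ = ξ.1 (rmul (K := K) f.P1 a φ) := rfl

theorem tau_ext (f : Cpx K A) {ξ η : tauSpace f} (h : ∀ φ, ξ.1 φ = η.1 φ) : ξ = η :=
  Subtype.ext (LinearMap.ext h)

theorem tau_one_smul (f : Cpx K A) (ξ : tauSpace f) : (1 : A) • ξ = ξ := by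
  refine tau_ext f fun φ => ?_
  change ξ.1 _ = ξ.1 φ
  congr 1
  ext x
  change φ x * 1 = φ x
  rw [mul_one]

theorem tau_mul_smul (f : Cpx K A) (a b : A) (ξ : tauSpace f) : (a * b) • ξ = a • b • ξ := by
  refine tau_ext f fun φ => ?_
  change ξ.1 _ = ξ.1 _
  congr 1
  ext x
  change φ x * (a * b) = φ x * a * b
  rw [mul_assoc]

theorem tau_smul_zero (f : Cpx K A) (a : A) : a • (0 : tauSpace f) = 0 := rfl

theorem tau_smul_add (f : Cpx K A) (a : A) (ξ η : tauSpace f) : a • (ξ + η) = a • ξ + a • η := rfl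

theorem tau_add_smul (f : Cpx K A) (a b : A) (ξ : tauSpace f) : (a + b) • ξ = a • ξ + b • ξ := by
  refine tau_ext f fun φ => ?_
  change ξ.1 _ = ξ.1 _ + ξ.1 _
  rw [← map_add]
  congr 1
  ext x
  change φ x * (a + b) = φ x * a + φ x * b
  rw [mul_add]

theorem tau_zero_smul (f : Cpx K A) (ξ : tauSpace f) : (0 : A) • ξ = 0 := by
  refine tau_ext f fun φ => ?_
  change ξ.1 _ = 0
  rw [← map_zero ξ.1]
  congr 1
  ext x
  change φ x * 0 = 0
  rw [mul_zero]

instance tauModule (f : Cpx K A) : Module A (tauSpace f) where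
  one_smul := tau_one_smul f
  mul_smul := tau_mul_smul f
  smul_zero := tau_smul_zero f
  smul_add := tau_smul_add f
  add_smul := tau_add_smul f
  zero_smul := tau_zero_smul f

theorem tau_smul_assoc (f : Cpx K A) (k : K) (a : A) (ξ : tauSpace f) : (k • a) • ξ = k • a • ξ := by
  refine tau_ext f fun φ => ?_
  change ξ.1 _ = k • ξ.1 _
  rw [← map_smul]
  congr 1
  ext x
  change φ x * (k • a) = k • (φ x * a)
  rw [mul_smul_comm]

instance tauTower (f : Cpx K A) : IsScalarTower K A (tauSpace f) := ⟨tau_smul_assoc f⟩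

/-- finite-dimensionality of `Hom_A(P, L)` -/
instance homFinite (P L : Type u) [AddCommGroup P] [Module A P] [Module K P]
    [IsScalarTower K A P] [Module.Finite K P] [AddCommGroup L] [Module A L] [Module K L]
    [IsScalarTower K A L] [Module.Finite K L] : Module.Finite K (P →ₗ[A] L) := by
  let F : (P →ₗ[A] L) →ₗ[K] (P →ₗ[K] L) :=
    { toFun := fun φ => φ.restrictScalars K
      map_add' := fun _ _ => rfl
      map_smul' := fun _ _ => rfl }
  apply Module.Finite.of_injective F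
  intro φ ψ h
  ext x
  exact LinearMap.congr_fun h x

variable [Module.Finite K A]

/-- `τ f = D coker (Hom_A(P₀, A) → Hom_A(P₁, A))` as a finite-dimensional `A`-module -/
@[reducible] def tau (f : Cpx K A) : FMod K A := { carrier := tauSpace f }


/-- the definition of `NoTauHom` says what it should -/
theorem noTauHom_iff (f : Cpx K A) (V : FMod K A) :
    NoTauHom f V ↔ ∀ φ : V →ₗ[A] tau f, φ = 0 := by
  constructor
  · intro h φ
    have := h (fun v ψ => (φ v).1 ψ) ⟨fun v w ψ => by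
        change (φ (v + w)).1 ψ = (φ v).1 ψ + (φ w).1 ψ
        rw [map_add]
        rfl, fun v ψ χ => map_add _ _ _, fun v c ψ => map_smul _ _ _⟩
      (fun a v ψ => by
        change (φ (a • v)).1 ψ = _
        rw [map_smul]
        rfl) (fun v ψ => (φ v).2 ψ)
    refine LinearMap.ext fun v => tau_ext f fun ψ => ?_
    exact this v ψ
  · intro h β h1 h2 h3 v ψ
    let φ : V →ₗ[A] tau f :=
      { toFun := fun v => ⟨{
          toFun := β v
          map_add' := h1.2.1 v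
          map_smul' := h1.2.2 v }, h3 v⟩
        map_add' := fun v w => tau_ext f fun ψ => h1.1 v w ψ
        map_smul' := fun a v => tau_ext f fun ψ => h2 a v ψ }
    have h4 : φ v = 0 := LinearMap.congr_fun (h φ) v
    have h5 : (φ v).1 ψ = 0 := by
      rw [h4]
      rfl
    exact h5

end Dem
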